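import Pool.Agent.Helper943.VCDefs2

set_option autoImplicit false

open MeasureTheory
open scoped ENNReal

namespace Pool.Agent.Helper943.VC


/-- transvection as a linear map -/
noncomputable def hzTvL {n : ℕ} (v : Fin n → ℂ) (k : ℝ) : (Fin n → ℂ) →ₗ[ℝ] (Fin n → ℂ) where
  toFun x := x + (k * omega v x) • v
  map_add' x y := by
    rw [omega_add_right, mul_add, add_smul]
    abel
  map_smul' c x := by
    rw [omega_smul_right, RingHom.id_apply, smul_add, smul_smul]
    congr 2
    ring

theorem hzTvL_inv {n : ℕ} (v : Fin n → ℂ) (k : ℝ) (x : Fin n → ℂ) :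
    hzTvL v (-k) (hzTvL v k x) = x := by
  change (x + (k * omega v x) • v) + (-k * omega v (x + (k * omega v x) • v)) • v = x
  rw [omega_add_right, omega_smul_right, omega_self, mul_zero, add_zero, add_assoc, ← add_smul]
  have : k * omega v x + -k * omega v x = 0 := by ring
  rw [this, zero_smul, add_zero]

/-- transvection -/
noncomputable def hzTv {n : ℕ} (v : Fin n → ℂ) (k : ℝ) : (Fin n → ℂ) ≃L[ℝ] (Fin n → ℂ) :=
  LinearEquiv.toContinuousLinearEquiv
    { hzTvL v k with
      invFun := hzTvL v (-k)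
      left_inv := hzTvL_inv v k
      right_inv := fun x => by
        have := hzTvL_inv v (-k) x
        rwa [neg_neg] at this }

theorem hzTv_apply {n : ℕ} (v : Fin n → ℂ) (k : ℝ) (x : Fin n → ℂ) :
    hzTv v k x = x + (k * omega v x) • v := rfl

theorem hzTv_symp {n : ℕ} (v : Fin n → ℂ) (k : ℝ) : IsSympL (hzTv v k) := by
  intro x y
  rw [hzTv_apply, hzTv_apply, omega_add_left, omega_add_right, omega_smul_left, omega_add_right,
    omega_smul_right, omega_smul_right, omega_self, omega_swap x v]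
  ring

theorem hz_map {n : ℕ} (a a' : Fin n → ℂ) (h : omega a a' ≠ 0) :
    ∃ T : (Fin n → ℂ) ≃L[ℝ] (Fin n → ℂ), IsSympL T ∧ T a = a' ∧
      ∀ c, omega c a = omega c a' → T c = c := by
  refine ⟨hzTv (a' - a) (1 / omega a' a), hzTv_symp _ _, ?_, ?_⟩
  · have h1 : omega a' a ≠ 0 := by
      rw [omega_swap]
      exact neg_ne_zero.2 h
    rw [hzTv_apply, omega_sub_left, omega_self, sub_zero, one_div, inv_mul_cancel₀ h1, one_smul]
    abel
  · intro c hc
    have h2 : omega (a' - a) c = 0 := by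
      rw [omega_sub_left, omega_swap a' c, omega_swap a c, hc]
      ring
    rw [hzTv_apply, h2, mul_zero, zero_smul, add_zero]

theorem hz_trans {n : ℕ} {T S : (Fin n → ℂ) ≃L[ℝ] (Fin n → ℂ)} (hT : IsSympL T) (hS : IsSympL S) :
    IsSympL (T.trans S) := by
  intro u v
  have h1 := hS (T u) (T v)
  rw [hT u v] at h1
  exact h1

/-- transitivity of the symplectic group on pairs with omega = 1 -/
theorem trans_pairs {n : ℕ} (a b a' b' : Fin n → ℂ) (h : omega a b = 1) (h' : omega a' b' = 1) :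
    ∃ T : (Fin n → ℂ) ≃L[ℝ] (Fin n → ℂ), IsSympL T ∧ T a = a' ∧ T b = b' := by
  have s1 : ∃ T : (Fin n → ℂ) ≃L[ℝ] (Fin n → ℂ), IsSympL T ∧ T a = a' := by
    obtain ⟨c, hc1, hc2⟩ : ∃ c, omega a c ≠ 0 ∧ omega c a' ≠ 0 := by
      by_cases h1 : omega a' b = 0
      · by_cases h2 : omega a b' = 0
        · refine ⟨b + b', ?_, ?_⟩
          · rw [omega_add_right, h, h2]
            norm_num
          · rw [omega_swap, omega_add_right, h1, h']
            norm_num
        · refine ⟨b', h2, ?_⟩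
          rw [omega_swap, h']
          norm_num
      · refine ⟨b, ?_, ?_⟩
        · rw [h]
          norm_num
        · rw [omega_swap]
          exact neg_ne_zero.2 h1
    obtain ⟨T1, t1, t2, _⟩ := hz_map a c hc1
    obtain ⟨T2, u1, u2, _⟩ := hz_map c a' hc2
    refine ⟨T1.trans T2, hz_trans t1 u1, ?_⟩
    change T2 (T1 a) = a'
    rw [t2, u2]
  obtain ⟨T, hT, hTa⟩ := s1
  have hb1 : omega a' (T b) = 1 := by
    rw [← hTa, hT, h]
  have s2 : ∃ S : (Fin n → ℂ) ≃L[ℝ] (Fin n → ℂ), IsSympL S ∧ S a' = a' ∧ S (T b) = b' := by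
    by_cases h1 : omega (T b) b' = 0
    · obtain ⟨S1, t1, t2, t3⟩ := hz_map (T b) (T b + a') (by
        rw [omega_add_right, omega_self, omega_swap, hb1]
        norm_num)
      obtain ⟨S2, u1, u2, u3⟩ := hz_map (T b + a') b' (by
        rw [omega_add_left, h1, h']
        norm_num)
      refine ⟨S1.trans S2, hz_trans t1 u1, ?_, ?_⟩
      · change S2 (S1 a') = a'
        rw [t3 a' (by rw [omega_add_right, omega_self, add_zero]),
          u3 a' (by rw [omega_add_right, omega_self, add_zero, hb1, h'])]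
      · change S2 (S1 (T b)) = b'
        rw [t2, u2]
    · obtain ⟨S1, t1, t2, t3⟩ := hz_map (T b) b' h1
      exact ⟨S1, t1, t3 a' (by rw [hb1, h']), t2⟩
  obtain ⟨S, hS, hSa, hSb⟩ := s2
  refine ⟨T.trans S, hz_trans hT hS, ?_, ?_⟩
  · change S (T a) = a'
    rw [hTa, hSa]
  · change S (T b) = b'
    rw [hSb]


end Pool.Agent.Helper943.VC
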