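import Pool.Agent.Helper943.VCDefs2

set_option autoImplicit false

open MeasureTheory
open scoped ENNReal

namespace Pool.Agent.Helper943.VC


theorem hypL972 {n : ℕ} (a c : Fin n → ℂ) (h : omega a c = 1) (eps : ℝ) (he : 0 < eps) :
    ∃ T : (Fin n → ℂ) ≃L[ℝ] (Fin n → ℂ), IsSympL T ∧
      ∀ x, T x = x + ((eps - 1) * omega x c) • a + ((1 / eps - 1) * omega a x) • c := by
  have key : ∀ k m : ℝ, (1 + k) * (1 + m) = 1 → ∀ x : Fin n → ℂ,
      (x + (k * omega x c) • a + (m * omega a x) • c) +
        (m * omega (x + (k * omega x c) • a + (m * omega a x) • c) c) • a +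
        (k * omega a (x + (k * omega x c) • a + (m * omega a x) • c)) • c = x := by
    intro k m hkm x
    have e1 : omega (x + (k * omega x c) • a + (m * omega a x) • c) c = (1 + k) * omega x c := by
      rw [omega_add_left, omega_add_left, omega_smul_left, omega_smul_left, h, omega_self]; ring
    have e2 : omega a (x + (k * omega x c) • a + (m * omega a x) • c) = (1 + m) * omega a x := by
      rw [omega_add_right, omega_add_right, omega_smul_right, omega_smul_right, h, omega_self]; ring
    rw [e1, e2]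
    have e3 : m * ((1 + k) * omega x c) = - (k * omega x c) := by
      have : m * (1 + k) = - k := by linarith
      rw [← mul_assoc, this]; ring
    have e4 : k * ((1 + m) * omega a x) = - (m * omega a x) := by
      have : k * (1 + m) = - m := by linarith
      rw [← mul_assoc, this]; ring
    rw [e3, e4]
    module
  have hk1 : (1 + (eps - 1)) * (1 + (1 / eps - 1)) = 1 := by
    field_simp
    ring
  have hk2 : (1 + (1 / eps - 1)) * (1 + (eps - 1)) = 1 := by
    rw [mul_comm]; exact hk1
  let L : (Fin n → ℂ) ≃ₗ[ℝ] (Fin n → ℂ) :=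
    { toFun := fun x => x + ((eps - 1) * omega x c) • a + ((1 / eps - 1) * omega a x) • c
      map_add' := by
        intro x y
        simp only [omega_add_left, omega_add_right]
        module
      map_smul' := by
        intro t x
        simp only [omega_smul_left, omega_smul_right, RingHom.id_apply]
        module
      invFun := fun x => x + ((1 / eps - 1) * omega x c) • a + ((eps - 1) * omega a x) • c
      left_inv := fun x => key _ _ hk1 x
      right_inv := fun x => key _ _ hk2 x }
  refine ⟨L.toContinuousLinearEquiv, ?_, fun x => rfl⟩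
  intro u v
  change omega (u + ((eps - 1) * omega u c) • a + ((1 / eps - 1) * omega a u) • c)
    (v + ((eps - 1) * omega v c) • a + ((1 / eps - 1) * omega a v) • c) = omega u v
  simp only [omega_add_left, omega_add_right, omega_smul_left, omega_smul_right, omega_self, h]
  rw [omega_swap u a, omega_swap c v, omega_swap c a, h]
  have hkm : (eps - 1) + (1 / eps - 1) + (eps - 1) * (1 / eps - 1) = 0 := by linarith
  generalize eps - 1 = k at hkm ⊢
  generalize 1 / eps - 1 = m at hkm ⊢
  generalize omega u c = p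
  generalize omega a u = q
  generalize omega v c = r
  generalize omega a v = s
  linear_combination (p * s - q * r) * hkm

theorem dual972 {n : ℕ} (a : Fin n → ℂ) (ha : a ≠ 0) : ∃ c, omega a c = 1 := by
  by_contra hcon
  push Not at hcon
  apply ha
  apply omega_nondeg
  intro v
  by_contra hv
  apply hcon ((1 / omega a v) • v)
  rw [omega_smul_right]
  field_simp

theorem indep972 {n : ℕ} (a b : Fin n → ℂ) (hb : b ≠ 0) (hab : ∀ k : ℝ, a ≠ k • b) :
    ∃ c, omega a c = 1 ∧ omega b c = 0 := by
  obtain ⟨d, hd⟩ := dual972 b hb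
  by_contra hcon
  push Not at hcon
  have h1 : ∀ v, omega b v = 0 → omega a v = 0 := by
    intro v hv
    by_contra hne
    refine hcon ((1 / omega a v) • v) ?_ ?_
    · rw [omega_smul_right]; field_simp
    · rw [omega_smul_right, hv, mul_zero]
  apply hab (omega a d)
  have h2 : a - omega a d • b = 0 := by
    apply omega_nondeg
    intro v
    have h3 := h1 (v - omega b v • d) (by rw [omega_sub_right, omega_smul_right, hd]; ring)
    rw [omega_sub_right, omega_smul_right] at h3
    rw [omega_sub_left, omega_smul_left]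
    linarith
  exact sub_eq_zero.mp h2

theorem scale972 {n : ℕ} (a b : Fin n → ℂ) (hab : omega a b = 0) (eps : ℝ) (he : 0 < eps) :
    ∃ T : (Fin n → ℂ) ≃L[ℝ] (Fin n → ℂ), IsSympL T ∧ T a = eps • a ∧ T b = eps • b := by
  have hself : ∀ (x c : Fin n → ℂ), omega x c = 1 →
      x + ((eps - 1) * omega x c) • x + ((1 / eps - 1) * omega x x) • c = eps • x := by
    intro x c hx
    rw [hx, omega_self]
    module
  by_cases ha : a = 0
  · by_cases hb : b = 0
    · refine ⟨ContinuousLinearEquiv.refl ℝ _, fun u v => rfl, ?_, ?_⟩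
      · simp [ha]
      · simp [hb]
    · obtain ⟨c, hc⟩ := dual972 b hb
      obtain ⟨T, hT, hTx⟩ := hypL972 b c hc eps he
      refine ⟨T, hT, ?_, ?_⟩
      · rw [ha]; simp
      · rw [hTx, hself b c hc]
  · by_cases hk : ∃ k : ℝ, b = k • a
    · obtain ⟨k, hk⟩ := hk
      obtain ⟨c, hc⟩ := dual972 a ha
      obtain ⟨T, hT, hTx⟩ := hypL972 a c hc eps he
      have h1 : T a = eps • a := by rw [hTx, hself a c hc]
      refine ⟨T, hT, h1, ?_⟩
      rw [hk, map_smul, h1, smul_comm]
    · push Not at hk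
      have hb : b ≠ 0 := by
        intro hb
        exact hk 0 (by rw [hb, zero_smul])
      have hk2 : ∀ k : ℝ, a ≠ k • b := by
        intro k hk3
        have hk0 : k ≠ 0 := by
          rintro rfl
          exact ha (by rw [hk3, zero_smul])
        apply hk k⁻¹
        rw [hk3, smul_smul, inv_mul_cancel₀ hk0, one_smul]
      obtain ⟨c, hc1, hc2⟩ := indep972 a b hb hk2
      obtain ⟨d, hd1, hd2⟩ := indep972 b a ha hk
      obtain ⟨T, hT, hTx⟩ := hypL972 a c hc1 eps he
      obtain ⟨U, hU, hUx⟩ := hypL972 b d hd1 eps he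
      have hba : omega b a = 0 := by rw [omega_swap, hab, neg_zero]
      have h1 : T a = eps • a := by rw [hTx, hself a c hc1]
      have h2 : T b = b := by rw [hTx, hc2, hab]; simp
      have h3 : U a = a := by rw [hUx, hd2, hba]; simp
      have h4 : U b = eps • b := by rw [hUx, hself b d hd1]
      refine ⟨T.trans U, ?_, ?_, ?_⟩
      · intro u v
        change omega (U (T u)) (U (T v)) = omega u v
        rw [hU, hT]
      · change U (T a) = _
        rw [h1, map_smul, h3]
      · change U (T b) = _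
        rw [h2, h4]

theorem bound972 {n : ℕ} (a x : Fin n → ℂ) (hx : x ∈ eball n 1) :
    (omega a x) ^ 2 ≤ (∑ j, 2 * ‖a j‖) ^ 2 := by
  have hxj : ∀ j, ‖x j‖ ≤ 1 := by
    intro j
    have h1 : ‖x j‖ ^ 2 ≤ ∑ j, ‖x j‖ ^ 2 :=
      Finset.single_le_sum (f := fun j => ‖x j‖ ^ 2) (fun i _ => by positivity) (Finset.mem_univ j)
    have h2 : ∑ j, ‖x j‖ ^ 2 < 1 ^ 2 := hx
    nlinarith [norm_nonneg (x j)]
  have h1 : |omega a x| ≤ ∑ j, 2 * ‖a j‖ := by
    unfold omega
    refine (Finset.abs_sum_le_sum_abs _ _).trans (Finset.sum_le_sum (fun j _ => ?_))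
    have r1 := Complex.abs_re_le_norm (a j)
    have r2 := Complex.abs_im_le_norm (a j)
    have r3 := Complex.abs_re_le_norm (x j)
    have r4 := Complex.abs_im_le_norm (x j)
    have r5 := hxj j
    calc |(a j).re * (x j).im - (a j).im * (x j).re|
        ≤ |(a j).re * (x j).im| + |(a j).im * (x j).re| := abs_sub _ _
      _ = |(a j).re| * |(x j).im| + |(a j).im| * |(x j).re| := by rw [abs_mul, abs_mul]
      _ ≤ ‖a j‖ * 1 + ‖a j‖ * 1 := by
          gcongr
          · exact r4.trans r5
          · exact r3.trans r5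
      _ = 2 * ‖a j‖ := by ring
  have h2 : 0 ≤ ∑ j, 2 * ‖a j‖ := Finset.sum_nonneg (fun j _ => by positivity)
  exact sq_le_sq.mpr (by rwa [abs_of_nonneg h2])

theorem symm972 {n : ℕ} (a b : Fin n → ℂ) (η : ℝ) (T : (Fin n → ℂ) ≃L[ℝ] (Fin n → ℂ))
    (hT : IsSympL T)
    (h : ∀ x ∈ eball n 1, (omega (T a) x) ^ 2 + (omega (T b) x) ^ 2 ≤ η) :
    ∃ S : (Fin n → ℂ) ≃L[ℝ] (Fin n → ℂ), IsSympL S ∧
      ∀ x ∈ eball n 1, (omega a (S x)) ^ 2 + (omega b (S x)) ^ 2 ≤ η := by
  refine ⟨T.symm, ?_, ?_⟩
  · intro u v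
    rw [← hT (T.symm u) (T.symm v), T.apply_symm_apply, T.apply_symm_apply]
  · intro x hx
    have e : ∀ y, omega y (T.symm x) = omega (T y) x := by
      intro y
      rw [← hT y (T.symm x), T.apply_symm_apply]
    rw [e, e]
    exact h x hx

/-- a pair with small omega can be made small on the unit ball by a symplectic map -/
theorem small_cyl {n : ℕ} (htr : ∀ a b a' b' : Fin n → ℂ, omega a b = 1 → omega a' b' = 1 →
      ∃ T : (Fin n → ℂ) ≃L[ℝ] (Fin n → ℂ), IsSympL T ∧ T a = a' ∧ T b = b')
    (hn : 1 ≤ n) (a b : Fin n → ℂ) (η : ℝ) (h : |omega a b| < η) :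
    ∃ S : (Fin n → ℂ) ≃L[ℝ] (Fin n → ℂ), IsSympL S ∧
      ∀ x ∈ eball n 1, (omega a (S x)) ^ 2 + (omega b (S x)) ^ 2 ≤ η := by
  by_cases hl : omega a b = 0
  · rw [hl, abs_zero] at h
    set C : ℝ := (∑ j, 2 * ‖a j‖) ^ 2 + (∑ j, 2 * ‖b j‖) ^ 2 with hC
    have hC0 : 0 ≤ C := by positivity
    have hq : 0 < η / (C + 1) := by positivity
    obtain ⟨T, hT, hTa, hTb⟩ := scale972 a b hl (Real.sqrt (η / (C + 1))) (Real.sqrt_pos.mpr hq)
    refine symm972 a b η T hT ?_
    intro x hx
    rw [hTa, hTb, omega_smul_left, omega_smul_left, mul_pow, mul_pow, Real.sq_sqrt hq.le]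
    have h1 := bound972 a x hx
    have h2 := bound972 b x hx
    have h3 : (omega a x) ^ 2 + (omega b x) ^ 2 ≤ C := by rw [hC]; linarith
    calc η / (C + 1) * (omega a x) ^ 2 + η / (C + 1) * (omega b x) ^ 2
        = η / (C + 1) * ((omega a x) ^ 2 + (omega b x) ^ 2) := by ring
      _ ≤ η / (C + 1) * (C + 1) := mul_le_mul_of_nonneg_left (by linarith) hq.le
      _ = η := by field_simp
  · set l := omega a b with hldef
    have hl0 : 0 < |l| := abs_pos.mpr hl
    set μ := Real.sqrt |l| with hμ
    have hμ0 : 0 < μ := Real.sqrt_pos.mpr hl0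
    have hμ2 : μ ^ 2 = |l| := Real.sq_sqrt hl0.le
    set e : Fin n → ℂ := Pi.single ⟨0, hn⟩ 1 with he
    set f : Fin n → ℂ := Pi.single ⟨0, hn⟩ Complex.I with hf
    have hev : ∀ x : Fin n → ℂ, omega e x = (x ⟨0, hn⟩).im := by
      intro x
      unfold omega
      rw [Finset.sum_eq_single ⟨0, hn⟩]
      · simp [he]
      · intro j _ hj
        simp [he, Pi.single_eq_of_ne hj]
      · simp
    have hfv : ∀ x : Fin n → ℂ, omega f x = - (x ⟨0, hn⟩).re := by
      intro x
      unfold omega
      rw [Finset.sum_eq_single ⟨0, hn⟩]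
      · simp [hf]
      · intro j _ hj
        simp [hf, Pi.single_eq_of_ne hj]
      · simp
    have hef : omega e f = 1 := by rw [hev]; simp [hf]
    have h0 : omega ((1 / μ) • a) ((μ / l) • b) = 1 := by
      rw [omega_smul_left, omega_smul_right, ← hldef]
      field_simp
    obtain ⟨T, hT, hTa, hTb⟩ := htr _ _ e f h0 hef
    have hTa' : T a = μ • e := by
      rw [← hTa, map_smul, smul_smul, mul_one_div_cancel hμ0.ne', one_smul]
    have hTb' : T b = (l / μ) • f := by
      rw [← hTb, map_smul, smul_smul]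
      have : l / μ * (μ / l) = 1 := by field_simp
      rw [this, one_smul]
    refine symm972 a b η T hT ?_
    intro x hx
    rw [hTa', hTb', omega_smul_left, omega_smul_left, hev, hfv, mul_pow, mul_pow, div_pow, hμ2]
    have h5 : l ^ 2 / |l| = |l| := by
      rw [← sq_abs l, sq, mul_self_div_self]
    rw [h5, neg_sq]
    have h6 : ‖x ⟨0, hn⟩‖ ^ 2 ≤ 1 := by
      have h1 : ‖x ⟨0, hn⟩‖ ^ 2 ≤ ∑ j, ‖x j‖ ^ 2 :=
        Finset.single_le_sum (f := fun j => ‖x j‖ ^ 2) (fun i _ => by positivity) (Finset.mem_univ _)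
      have h2 : ∑ j, ‖x j‖ ^ 2 < 1 ^ 2 := hx
      linarith
    rw [Complex.sq_norm, Complex.normSq_apply] at h6
    nlinarith


end Pool.Agent.Helper943.VC
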