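import Pool.Agent.Helper943.VCDefs2

set_option autoImplicit false

open MeasureTheory
open scoped ENNReal

namespace Pool.Agent.Helper943.VC


theorem cap_mono_sub {n : ℕ} (c : Set (Fin n → ℂ) → ℝ≥0∞) (hc : IsCapacity n c)
    (U V : Set (Fin n → ℂ)) (hU : IsOpen U) (hV : IsOpen V) (h : U ⊆ V) : c U ≤ c V := by
  refine hc.mono U V hU hV ⟨id, contDiffOn_id, Set.injOn_id _, fun x hx => h hx, ?_⟩
  intro z _ u v
  rw [fderiv_id]
  rfl

theorem cap_symp_le {n : ℕ} (c : Set (Fin n → ℂ) → ℝ≥0∞) (hc : IsCapacity n c)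
    (T : (Fin n → ℂ) ≃L[ℝ] (Fin n → ℂ)) (hT : IsSympL T) (U : Set (Fin n → ℂ)) (hU : IsOpen U) :
    c U ≤ c (T '' U) := by
  refine hc.mono U (T '' U) hU (T.toHomeomorph.isOpenMap U hU)
    ⟨T, T.contDiff.contDiffOn, T.injective.injOn, Set.mapsTo_image _ _, ?_⟩
  intro z _ u v
  rw [ContinuousLinearEquiv.fderiv]
  exact hT u v

theorem cap_symp {n : ℕ} (c : Set (Fin n → ℂ) → ℝ≥0∞) (hc : IsCapacity n c)
    (T : (Fin n → ℂ) ≃L[ℝ] (Fin n → ℂ)) (hT : IsSympL T) (U : Set (Fin n → ℂ)) (hU : IsOpen U) :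
    c (T '' U) = c U := by
  refine le_antisymm ?_ (cap_symp_le c hc T hT U hU)
  have hT' : IsSympL T.symm := by
    intro u v
    rw [← hT (T.symm u) (T.symm v), T.apply_symm_apply, T.apply_symm_apply]
  have h := cap_symp_le c hc T.symm hT' (T '' U) (T.toHomeomorph.isOpenMap U hU)
  have e : T.symm '' (T '' U) = U := by
    rw [Set.image_image]
    simp
  rwa [e] at h

theorem cap_transl_le {n : ℕ} (c : Set (Fin n → ℂ) → ℝ≥0∞) (hc : IsCapacity n c)
    (z : Fin n → ℂ) (U : Set (Fin n → ℂ)) (hU : IsOpen U) :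
    c U ≤ c ((fun x => z + x) '' U) := by
  refine hc.mono U _ hU ((Homeomorph.addLeft z).isOpenMap U hU)
    ⟨fun x => z + x, (contDiff_const.add contDiff_id).contDiffOn,
      (add_right_injective z).injOn, Set.mapsTo_image _ _, ?_⟩
  intro y _ u v
  have : fderiv ℝ (fun x : Fin n → ℂ => z + x) y = ContinuousLinearMap.id ℝ _ := by
    rw [fderiv_const_add, fderiv_fun_id]
  rw [this]
  rfl

theorem cap_transl {n : ℕ} (c : Set (Fin n → ℂ) → ℝ≥0∞) (hc : IsCapacity n c)
    (z : Fin n → ℂ) (U : Set (Fin n → ℂ)) (hU : IsOpen U) :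
    c ((fun x => z + x) '' U) = c U := by
  refine le_antisymm ?_ (cap_transl_le c hc z U hU)
  have h := cap_transl_le c hc (-z) ((fun x => z + x) '' U)
    ((Homeomorph.addLeft z).isOpenMap U hU)
  have e : (fun x => -z + x) '' ((fun x => z + x) '' U) = U := by
    rw [Set.image_image]
    simp
  rwa [e] at h

/-- symplectic cylinders have capacity at most pi r^2 -/
theorem cap_cyl {n : ℕ} (htr : ∀ a b a' b' : Fin n → ℂ, omega a b = 1 → omega a' b' = 1 →
      ∃ T : (Fin n → ℂ) ≃L[ℝ] (Fin n → ℂ), IsSympL T ∧ T a = a' ∧ T b = b')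
    (hn : 1 ≤ n) (c : Set (Fin n → ℂ) → ℝ≥0∞) (hc : IsCapacity n c)
    (a b : Fin n → ℂ) (h : omega a b = 1) (r : ℝ) (hr : 0 < r) :
    c {x | (omega a x) ^ 2 + (omega b x) ^ 2 < r ^ 2} ≤ ENNReal.ofReal (Real.pi * r ^ 2) := by
  have h0 : 0 < n := hn
  set i0 : Fin n := ⟨0, h0⟩ with hi0
  set e : Fin n → ℂ := Pi.single i0 1 with he
  set f : Fin n → ℂ := Pi.single i0 Complex.I with hf
  have hoe : ∀ x, omega e x = (x i0).im := by
    intro x
    unfold omega
    rw [Finset.sum_eq_single i0]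
    · simp [he]
    · intro j _ hj
      simp [he, Pi.single_eq_of_ne hj]
    · intro hh
      exact absurd (Finset.mem_univ _) hh
  have hof : ∀ x, omega f x = -(x i0).re := by
    intro x
    unfold omega
    rw [Finset.sum_eq_single i0]
    · simp [hf]
    · intro j _ hj
      simp [hf, Pi.single_eq_of_ne hj]
    · intro hh
      exact absurd (Finset.mem_univ _) hh
  have hef : omega e f = 1 := by
    rw [hoe]
    simp [hf]
  obtain ⟨T, hT, hTe, hTf⟩ := htr e f a b hef h
  have hnorm : ∀ x : Fin n → ℂ, (omega e x) ^ 2 + (omega f x) ^ 2 = ‖x i0‖ ^ 2 := by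
    intro x
    rw [hoe, hof, Complex.sq_norm, Complex.normSq_apply]
    ring
  have hoa : ∀ x, omega a (T x) = omega e x := by
    intro x
    rw [← hTe, hT]
  have hob : ∀ x, omega b (T x) = omega f x := by
    intro x
    rw [← hTf, hT]
  have hcylopen : IsOpen (cyl n 1) := by
    have : cyl n 1 = {z : Fin n → ℂ | ‖z i0‖ < 1} := by
      ext z
      unfold cyl
      simp only [Set.mem_setOf_eq]
      exact ⟨fun hz => hz h0, fun hz _ => hz⟩
    rw [this]
    exact isOpen_lt (continuous_apply i0).norm continuous_const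
  have hset : {x | (omega a x) ^ 2 + (omega b x) ^ 2 < r ^ 2} =
      T '' ((fun z => r • z) '' cyl n 1) := by
    ext x
    constructor
    · intro hx
      rw [Set.mem_setOf_eq] at hx
      refine ⟨T.symm x, ⟨r⁻¹ • T.symm x, ?_, ?_⟩, T.apply_symm_apply x⟩
      · have h1 := hoa (T.symm x)
        have h2 := hob (T.symm x)
        rw [T.apply_symm_apply] at h1 h2
        rw [h1, h2, hnorm] at hx
        have h3 : ‖T.symm x i0‖ < r := lt_of_pow_lt_pow_left₀ 2 hr.le hx
        intro _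
        show ‖(r⁻¹ • T.symm x) i0‖ < 1
        rw [Pi.smul_apply, norm_smul, norm_inv, Real.norm_of_nonneg hr.le,
          inv_mul_lt_iff₀ hr, mul_one]
        exact h3
      · show r • (r⁻¹ • T.symm x) = T.symm x
        rw [smul_smul, mul_inv_cancel₀ hr.ne', one_smul]
    · rintro ⟨y, ⟨z, hz, rfl⟩, rfl⟩
      rw [Set.mem_setOf_eq, hoa, hob, hnorm]
      have h1 : ‖z i0‖ < 1 := hz h0
      show ‖(r • z) i0‖ ^ 2 < r ^ 2
      rw [Pi.smul_apply, norm_smul, Real.norm_of_nonneg hr.le, mul_pow]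
      have h2 : ‖z i0‖ ^ 2 < 1 := by
        have := norm_nonneg (z i0)
        nlinarith
      have h3 : 0 < r ^ 2 := by positivity
      nlinarith
  have hopen2 : IsOpen ((fun z : Fin n → ℂ => r • z) '' cyl n 1) :=
    (Homeomorph.smulOfNeZero r hr.ne').isOpenMap _ hcylopen
  rw [hset, cap_symp c hc T hT _ hopen2, hc.conf _ hcylopen r hr, hc.cyl,
    ← ENNReal.ofReal_mul (by positivity), mul_comm]


end Pool.Agent.Helper943.VC
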