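import Pool.Agent.Helper943.VCDefs2

set_option autoImplicit false

open MeasureTheory
open scoped ENNReal

namespace Pool.Agent.Helper943.VC


theorem nonsq_bound {n : ℕ} (a e : Fin n → ℂ) : |omega a e| ≤ (∑ j, 2 * ‖a j‖) * ‖e‖ := by
  unfold omega
  rw [Finset.sum_mul]
  refine (Finset.abs_sum_le_sum_abs _ _).trans (Finset.sum_le_sum fun j _ => ?_)
  have h1 := Complex.abs_re_le_norm (a j)
  have h2 := Complex.abs_im_le_norm (a j)
  have h3 := Complex.abs_re_le_norm (e j)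
  have h4 := Complex.abs_im_le_norm (e j)
  have h5 : ‖e j‖ ≤ ‖e‖ := norm_le_pi_norm e j
  have h6 : |(a j).re * (e j).im - (a j).im * (e j).re| ≤
      |(a j).re| * |(e j).im| + |(a j).im| * |(e j).re| := by
    rw [← abs_mul, ← abs_mul]
    exact abs_sub _ _
  have h7 : |(a j).re| * |(e j).im| ≤ ‖a j‖ * ‖e‖ :=
    mul_le_mul h1 (h4.trans h5) (abs_nonneg _) (norm_nonneg _)
  have h8 : |(a j).im| * |(e j).re| ≤ ‖a j‖ * ‖e‖ :=
    mul_le_mul h2 (h3.trans h5) (abs_nonneg _) (norm_nonneg _)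
  linarith

theorem nonsq_cont {n : ℕ} (a : Fin n → ℂ) : Continuous (fun x : Fin n → ℂ => omega a x) := by
  unfold omega
  refine continuous_finsetSum _ fun j _ => ?_
  exact (continuous_const.mul (Complex.continuous_im.comp (continuous_apply j))).sub
    (continuous_const.mul (Complex.continuous_re.comp (continuous_apply j)))

theorem nonsq_ball {n : ℕ} (z : Fin n → ℂ) (hz : z ∈ eball n 1) : ‖z‖ ≤ 1 := by
  rw [pi_norm_le_iff_of_nonneg zero_le_one]
  intro j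
  have h1 : ∑ j, ‖z j‖ ^ 2 < 1 ^ 2 := hz
  have h2 : ‖z j‖ ^ 2 ≤ ∑ j, ‖z j‖ ^ 2 :=
    Finset.single_le_sum (f := fun j => ‖z j‖ ^ 2) (fun i _ => by positivity) (Finset.mem_univ j)
  have h3 := norm_nonneg (z j)
  nlinarith

/-- infinitesimal nonsqueezing -/
theorem nonsq {n : ℕ} (hn : 1 ≤ n) (c : Set (Fin n → ℂ) → ℝ≥0∞) (hc : IsCapacity n c)
    (hop : ∀ r : ℝ, IsOpen (eball n r))
    (hmono : ∀ U V : Set (Fin n → ℂ), IsOpen U → IsOpen V → U ⊆ V → c U ≤ c V)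
    (hsymp : ∀ T : (Fin n → ℂ) ≃L[ℝ] (Fin n → ℂ), IsSympL T → ∀ U, IsOpen U → c (T '' U) = c U)
    (htra : ∀ (z : Fin n → ℂ) (U : Set (Fin n → ℂ)), IsOpen U → c ((fun x => z + x) '' U) = c U)
    (hcyl : ∀ a b : Fin n → ℂ, omega a b = 1 → ∀ r : ℝ, 0 < r →
      c {x | (omega a x) ^ 2 + (omega b x) ^ 2 < r ^ 2} ≤ ENNReal.ofReal (Real.pi * r ^ 2))
    (ψ : (Fin n → ℂ) ≃ₜ (Fin n → ℂ)) (hψ : LocPres c ψ) (p : Fin n → ℂ)
    (L : (Fin n → ℂ) →L[ℝ] (Fin n → ℂ)) (hL : HasFDerivAt ψ L p)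
    (S : (Fin n → ℂ) ≃L[ℝ] (Fin n → ℂ)) (hS : IsSympL S)
    (a b : Fin n → ℂ) (hab : omega a b = 1) (ρ : ℝ)
    (h : ∀ x ∈ eball n 1, (omega a (L (S x))) ^ 2 + (omega b (L (S x))) ^ 2 ≤ ρ) : 1 ≤ ρ := by
  by_contra hρ
  push Not at hρ
  have hρ0 : 0 ≤ ρ := by
    have h0 : (0 : Fin n → ℂ) ∈ eball n 1 := by simp [eball]
    have h1 := h 0 h0
    have h2 := sq_nonneg (omega a (L (S 0)))
    have h3 := sq_nonneg (omega b (L (S 0)))
    linarith
  -- the radius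
  obtain ⟨r, hr0, hr2⟩ : ∃ r : ℝ, 0 < r ∧ r ^ 2 = (ρ + 1) / 2 :=
    ⟨Real.sqrt ((ρ + 1) / 2), Real.sqrt_pos.2 (by linarith), Real.sq_sqrt (by linarith)⟩
  -- constants
  set Ka : ℝ := ∑ j, 2 * ‖a j‖ with hKa
  set Kb : ℝ := ∑ j, 2 * ‖b j‖ with hKb
  have hKa0 : 0 ≤ Ka := Finset.sum_nonneg fun j _ => by positivity
  have hKb0 : 0 ≤ Kb := Finset.sum_nonneg fun j _ => by positivity
  set K : ℝ := Ka + Kb + 1 with hK
  have hK0 : 0 < K := by linarith
  set M : ℝ := ‖(S : (Fin n → ℂ) →L[ℝ] (Fin n → ℂ))‖ + 1 with hM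
  have hM0 : 0 < M := by have := norm_nonneg (S : (Fin n → ℂ) →L[ℝ] (Fin n → ℂ)); linarith
  set η : ℝ := (1 - ρ) / 24 with hη
  have hη0 : 0 < η := by rw [hη]; linarith
  have hη1 : η ≤ 1 := by rw [hη]; linarith
  set ε : ℝ := η / (M * K) with hε
  have hε0 : 0 < ε := by positivity
  set V : Set (Fin n → ℂ) := S '' eball n 1 with hV
  have hVo : IsOpen V := S.toHomeomorph.isOpenMap _ (hop 1)
  have hcV : c V = ENNReal.ofReal Real.pi := by rw [hV, hsymp S hS _ (hop 1), hc.ball]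
  have hVb : ∀ x ∈ V, ‖x‖ ≤ M := by
    rintro _ ⟨z, hz, rfl⟩
    have h1 : ‖S z‖ ≤ ‖(S : (Fin n → ℂ) →L[ℝ] (Fin n → ℂ))‖ * ‖z‖ :=
      (S : (Fin n → ℂ) →L[ℝ] (Fin n → ℂ)).le_opNorm z
    have h2 := nonsq_ball z hz
    have h3 := norm_nonneg (S : (Fin n → ℂ) →L[ℝ] (Fin n → ℂ))
    calc ‖S z‖ ≤ ‖(S : (Fin n → ℂ) →L[ℝ] (Fin n → ℂ))‖ * ‖z‖ := h1
      _ ≤ ‖(S : (Fin n → ℂ) →L[ℝ] (Fin n → ℂ))‖ * 1 := mul_le_mul_of_nonneg_left h2 h3
      _ ≤ M := by rw [mul_one, hM]; linarith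
  have hVq : ∀ x ∈ V, (omega a (L x)) ^ 2 + (omega b (L x)) ^ 2 ≤ ρ := by
    rintro _ ⟨z, hz, rfl⟩
    exact h z hz
  obtain ⟨U, hUo, hpU, hU⟩ := hψ p
  obtain ⟨δ1, hδ1, hball⟩ := Metric.isOpen_iff.1 hUo p hpU
  have hlit := (hasFDerivAt_iff_isLittleO_nhds_zero.1 hL).def hε0
  obtain ⟨δ2, hδ2, hder⟩ := Metric.eventually_nhds_iff.1 hlit
  set t : ℝ := min δ1 δ2 / (2 * M) with ht
  have hmin : 0 < min δ1 δ2 := lt_min hδ1 hδ2
  have ht0 : 0 < t := by positivity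
  have htM : t * M = min δ1 δ2 / 2 := by rw [ht]; field_simp
  have htx : ∀ x ∈ V, ‖t • x‖ < min δ1 δ2 := by
    intro x hx
    rw [norm_smul, Real.norm_eq_abs, abs_of_pos ht0]
    calc t * ‖x‖ ≤ t * M := mul_le_mul_of_nonneg_left (hVb x hx) ht0.le
      _ = min δ1 δ2 / 2 := htM
      _ < min δ1 δ2 := by linarith
  set tV : Set (Fin n → ℂ) := (fun z => t • z) '' V with htV
  have hsm : IsOpenMap (fun z : Fin n → ℂ => t • z) := isOpenMap_smul₀ ht0.ne'
  have htVo : IsOpen tV := hsm _ hVo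
  set W : Set (Fin n → ℂ) := (fun x => p + x) '' tV with hW
  have hWo : IsOpen W := (Homeomorph.addLeft p).isOpenMap _ htVo
  have hWU : W ⊆ U := by
    rintro _ ⟨_, ⟨x, hx, rfl⟩, rfl⟩
    apply hball
    simp only [Metric.mem_ball, dist_eq_norm, add_sub_cancel_left]
    exact (htx x hx).trans_le (min_le_left _ _)
  set Z : Set (Fin n → ℂ) := {x | (omega a x) ^ 2 + (omega b x) ^ 2 < r ^ 2} with hZ
  have hZo : IsOpen Z :=
    isOpen_lt (((nonsq_cont a).pow 2).add ((nonsq_cont b).pow 2)) continuous_const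
  set tZ : Set (Fin n → ℂ) := (fun z => t • z) '' Z with htZ
  have htZo : IsOpen tZ := hsm _ hZo
  set W' : Set (Fin n → ℂ) := (fun x => ψ p + x) '' tZ with hW'
  have hW'o : IsOpen W' := (Homeomorph.addLeft (ψ p)).isOpenMap _ htZo
  have hsub : ψ '' W ⊆ W' := by
    rintro _ ⟨_, ⟨_, ⟨x, hx, rfl⟩, rfl⟩, rfl⟩
    refine ⟨ψ (p + t • x) - ψ p, ⟨t⁻¹ • (ψ (p + t • x) - ψ p), ?_, ?_⟩, ?_⟩
    · -- membership in `Z`
      have hd := hder (show dist (t • x) 0 < δ2 by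
        rw [dist_zero_right]; exact (htx x hx).trans_le (min_le_right _ _))
      set e : Fin n → ℂ := t⁻¹ • (ψ (p + t • x) - ψ p - L (t • x)) with he
      have hy : t⁻¹ • (ψ (p + t • x) - ψ p) = L x + e := by
        rw [he, map_smul, smul_sub _ _ (t • L x), smul_smul, inv_mul_cancel₀ ht0.ne', one_smul]
        abel
      have hen : ‖e‖ ≤ ε * M := by
        rw [he, norm_smul, norm_inv, Real.norm_eq_abs, abs_of_pos ht0]
        rw [inv_mul_le_iff₀ ht0]
        calc ‖ψ (p + t • x) - ψ p - L (t • x)‖ ≤ ε * ‖t • x‖ := hd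
          _ = ε * (t * ‖x‖) := by rw [norm_smul, Real.norm_eq_abs, abs_of_pos ht0]
          _ ≤ ε * (t * M) := by
            have := hVb x hx
            gcongr
          _ = t * (ε * M) := by ring
      have heM : ε * M * K = η := by rw [hε]; field_simp
      have hea : |omega a e| ≤ η := by
        calc |omega a e| ≤ Ka * ‖e‖ := nonsq_bound a e
          _ ≤ K * (ε * M) := by
            apply mul_le_mul _ hen (norm_nonneg _) hK0.le
            linarith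
          _ = η := by rw [← heM]; ring
      have heb : |omega b e| ≤ η := by
        calc |omega b e| ≤ Kb * ‖e‖ := nonsq_bound b e
          _ ≤ K * (ε * M) := by
            apply mul_le_mul _ hen (norm_nonneg _) hK0.le
            linarith
          _ = η := by rw [← heM]; ring
      have hq := hVq x hx
      show (omega a (t⁻¹ • (ψ (p + t • x) - ψ p))) ^ 2 +
        (omega b (t⁻¹ • (ψ (p + t • x) - ψ p))) ^ 2 < r ^ 2
      rw [hy, omega_add_right, omega_add_right, hr2]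
      set α := omega a (L x)
      set β := omega b (L x)
      set e1 := omega a e
      set e2 := omega b e
      obtain ⟨ha1, ha2⟩ := abs_le.1 hea
      obtain ⟨hb1, hb2⟩ := abs_le.1 heb
      have hα : |α| ≤ 1 := by
        rw [← sq_le_one_iff_abs_le_one]; nlinarith [sq_nonneg β]
      have hβ : |β| ≤ 1 := by
        rw [← sq_le_one_iff_abs_le_one]; nlinarith [sq_nonneg α]
      have k1 : α * e1 ≤ η := by
        calc α * e1 ≤ |α * e1| := le_abs_self _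
          _ = |α| * |e1| := abs_mul _ _
          _ ≤ 1 * η := mul_le_mul hα hea (abs_nonneg _) zero_le_one
          _ = η := one_mul _
      have k2 : β * e2 ≤ η := by
        calc β * e2 ≤ |β * e2| := le_abs_self _
          _ = |β| * |e2| := abs_mul _ _
          _ ≤ 1 * η := mul_le_mul hβ heb (abs_nonneg _) zero_le_one
          _ = η := one_mul _
      have k3 : e1 ^ 2 ≤ η := by
        rw [← sq_abs]
        nlinarith [abs_nonneg e1]
      have k4 : e2 ^ 2 ≤ η := by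
        rw [← sq_abs]
        nlinarith [abs_nonneg e2]
      have k5 : (α + e1) ^ 2 + (β + e2) ^ 2 = (α ^ 2 + β ^ 2) + 2 * (α * e1) + 2 * (β * e2) +
          e1 ^ 2 + e2 ^ 2 := by ring
      rw [k5]
      have k6 : 24 * η = 1 - ρ := by rw [hη]; ring
      linarith
    · show t • (t⁻¹ • (ψ (p + t • x) - ψ p)) = _
      rw [smul_smul, mul_inv_cancel₀ ht0.ne', one_smul]
    · show ψ p + (ψ (p + t • x) - ψ p) = _
      abel
  have hψo : IsOpen (ψ '' W) := ψ.isOpenMap _ hWo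
  have hc1 : c (ψ '' W) = ENNReal.ofReal (t ^ 2) * ENNReal.ofReal Real.pi := by
    rw [hU W hWo hWU, hW, htra p tV htVo, htV, hc.conf V hVo t ht0, hcV]
  have hc2 : c W' ≤ ENNReal.ofReal (t ^ 2) * ENNReal.ofReal (Real.pi * r ^ 2) := by
    rw [hW', htra (ψ p) tZ htZo, htZ, hc.conf Z hZo t ht0]
    exact mul_le_mul_right (hcyl a b hab r hr0) _
  have hc3 := (hmono _ _ hψo hW'o hsub).trans hc2
  rw [hc1, ← ENNReal.ofReal_mul (by positivity), ← ENNReal.ofReal_mul (by positivity)] at hc3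
  have hpi := Real.pi_pos
  have hc4 := (ENNReal.ofReal_le_ofReal_iff (by positivity)).1 hc3
  have hc5 : 0 < t ^ 2 * Real.pi := by positivity
  have hc6 : t ^ 2 * Real.pi * 1 ≤ t ^ 2 * Real.pi * r ^ 2 := by linarith
  have hc7 := le_of_mul_le_mul_left hc6 hc5
  rw [hr2] at hc7
  linarith


end Pool.Agent.Helper943.VC
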