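import Pool.Agent.Helper943.VCDefs2

set_option autoImplicit false

open MeasureTheory
open scoped ENNReal

namespace Pool.Agent.Helper943.VC

/-- omega as a bilinear map -/
noncomputable def omegaL (n : ℕ) : (Fin n → ℂ) →ₗ[ℝ] ((Fin n → ℂ) →ₗ[ℝ] ℝ) :=
  LinearMap.mk₂ ℝ omega (fun u v w => omega_add_left u v w) (fun t u w => omega_smul_left t u w)
    (fun u v w => omega_add_right u v w) (fun t u w => omega_smul_right t u w)

theorem omegaL_apply {n : ℕ} (u v : Fin n → ℂ) : omegaL n u v = omega u v := rfl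

theorem omegaL_inj (n : ℕ) : Function.Injective (omegaL n) := by
  rw [injective_iff_map_eq_zero]
  intro u hu
  exact omega_nondeg u (fun v => by rw [← omegaL_apply, hu]; rfl)

theorem omegaL_surj (n : ℕ) : Function.Surjective (omegaL n) := by
  have h : Module.finrank ℝ (Fin n → ℂ) = Module.finrank ℝ ((Fin n → ℂ) →ₗ[ℝ] ℝ) :=
    (Subspace.dual_finrank_eq (K := ℝ) (V := Fin n → ℂ)).symm
  exact (LinearMap.injective_iff_surjective_of_finrank_eq_finrank h).mp (omegaL_inj n)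

/-- representation of functionals by omega -/
theorem omega_rep {n : ℕ} (l : (Fin n → ℂ) →ₗ[ℝ] ℝ) : ∃ a : Fin n → ℂ, ∀ x, omega a x = l x := by
  obtain ⟨a, ha⟩ := omegaL_surj n l
  exact ⟨a, fun x => by rw [← ha, omegaL_apply]⟩


theorem pair_equiv {n : ℕ} (L : (Fin n → ℂ) →L[ℝ] (Fin n → ℂ)) (h : PairProp L) :
    ∃ M : (Fin n → ℂ) ≃L[ℝ] (Fin n → ℂ), (M : (Fin n → ℂ) →L[ℝ] (Fin n → ℂ)) = L := by
  have hsurj : Function.Surjective (L : (Fin n → ℂ) →ₗ[ℝ] (Fin n → ℂ)) := by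
    by_contra hcon
    rw [← LinearMap.range_eq_top] at hcon
    obtain ⟨f, hf0, hf⟩ := Submodule.exists_le_ker_of_lt_top _ (lt_top_iff_ne_top.mpr hcon)
    obtain ⟨a, ha⟩ := omega_rep f
    have ha0 : ∃ b0, omega a b0 ≠ 0 := by
      by_contra hall
      push Not at hall
      apply hf0
      refine LinearMap.ext fun x => ?_
      rw [← ha, hall]
      rfl
    obtain ⟨b0, hb0⟩ := ha0
    obtain ⟨b', hb'⟩ := omega_rep ((omegaL n ((omega a b0)⁻¹ • b0)) ∘ₗ
      (L : (Fin n → ℂ) →ₗ[ℝ] (Fin n → ℂ)))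
    have h1 := h a ((omega a b0)⁻¹ • b0) 0 b' (by
      rw [omega_smul_right, inv_mul_cancel₀ hb0]) (by
      intro x
      rw [omega_zero_left, ha]
      have : (L : (Fin n → ℂ) →ₗ[ℝ] (Fin n → ℂ)) x ∈ LinearMap.ker f := hf ⟨x, rfl⟩
      exact this.symm) (by
      intro x
      rw [hb']
      rfl)
    rw [omega_zero_left, abs_zero] at h1
    linarith
  have hinj : Function.Injective (L : (Fin n → ℂ) →ₗ[ℝ] (Fin n → ℂ)) :=
    LinearMap.injective_iff_surjective.mpr hsurj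
  refine ⟨(LinearEquiv.ofBijective (L : (Fin n → ℂ) →ₗ[ℝ] (Fin n → ℂ))
    ⟨hinj, hsurj⟩).toContinuousLinearEquiv, ?_⟩
  ext1 x
  rfl

theorem two_maps {V M₁ M₂ : Type*} [AddCommGroup V] [AddCommGroup M₁] [AddCommGroup M₂]
    [Module ℝ V] [Module ℝ M₁] [Module ℝ M₂] (f : V →ₗ[ℝ] M₁) (g : V →ₗ[ℝ] M₂)
    (h : ∀ x, f x = 0 ∨ g x = 0) : f = 0 ∨ g = 0 := by
  by_contra hcon
  push Not at hcon
  obtain ⟨h1, h2⟩ := hcon
  obtain ⟨x, hx⟩ : ∃ x, f x ≠ 0 := by
    by_contra hh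
    push Not at hh
    exact h1 (LinearMap.ext hh)
  obtain ⟨y, hy⟩ : ∃ y, g y ≠ 0 := by
    by_contra hh
    push Not at hh
    exact h2 (LinearMap.ext hh)
  have gx := (h x).resolve_left hx
  have fy := (h y).resolve_right hy
  rcases h (x + y) with h3 | h3
  · rw [map_add, fy, add_zero] at h3
    exact hx h3
  · rw [map_add, gx, zero_add] at h3
    exact hy h3

theorem exists_adj {n : ℕ} (M : (Fin n → ℂ) →ₗ[ℝ] (Fin n → ℂ)) :
    ∃ A : (Fin n → ℂ) →ₗ[ℝ] (Fin n → ℂ), ∀ a x, omega (A a) x = omega a (M x) := by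
  let e : (Fin n → ℂ) ≃ₗ[ℝ] ((Fin n → ℂ) →ₗ[ℝ] ℝ) :=
    LinearEquiv.ofBijective (omegaL n) ⟨omegaL_inj n, omegaL_surj n⟩
  have he : ∀ u v, e u v = omega u v := fun u v => rfl
  refine ⟨e.symm.toLinearMap ∘ₗ (LinearMap.lcomp ℝ ℝ M) ∘ₗ e.toLinearMap, fun a x => ?_⟩
  rw [← he]
  simp only [LinearMap.comp_apply, LinearEquiv.coe_coe, LinearEquiv.apply_symm_apply]
  rfl

theorem scale_pair {n : ℕ} (L : (Fin n → ℂ) →L[ℝ] (Fin n → ℂ)) (h : PairProp L)
    (A : (Fin n → ℂ) →ₗ[ℝ] (Fin n → ℂ)) (hA : ∀ a x, omega (A a) x = omega a (L x))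
    (a b : Fin n → ℂ) : |omega a b| ≤ |omega (A a) (A b)| := by
  by_cases h0 : omega a b = 0
  · rw [h0, abs_zero]
    exact abs_nonneg _
  · have h1 := h a ((omega a b)⁻¹ • b) (A a) (A ((omega a b)⁻¹ • b)) (by
      rw [omega_smul_right, inv_mul_cancel₀ h0]) (hA a) (hA _)
    rw [map_smul, omega_smul_right, abs_mul, abs_inv] at h1
    have h2 : 0 < |omega a b| := abs_pos.mpr h0
    rw [inv_mul_eq_div, le_div_iff₀ h2, one_mul] at h1
    exact h1

/-- complex conjugation -/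
noncomputable def conjL (n : ℕ) : (Fin n → ℂ) →ₗ[ℝ] (Fin n → ℂ) :=
  LinearMap.pi fun j => (Complex.conjAe.toLinearMap) ∘ₗ LinearMap.proj j

theorem conjL_apply {n : ℕ} (u : Fin n → ℂ) (j : Fin n) :
    conjL n u j = (starRingEnd ℂ) (u j) := rfl

theorem omega_conj {n : ℕ} (u v : Fin n → ℂ) : omega (conjL n u) (conjL n v) = - omega u v := by
  simp only [omega, ← Finset.sum_neg_distrib, conjL_apply, Complex.conj_re, Complex.conj_im]
  exact Finset.sum_congr rfl (fun j _ => by ring)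

theorem conj_conj {n : ℕ} : (conjL n) ∘ₗ (conjL n) = LinearMap.id := by
  refine LinearMap.ext fun u => ?_
  funext j
  simp [conjL_apply]

theorem pair_det {n : ℕ} (hdet : ∀ L : (Fin n → ℂ) →L[ℝ] (Fin n → ℂ),
      (∀ u v, omega (L u) (L v) = omega u v) → |L.det| = 1)
    (M : (Fin n → ℂ) ≃L[ℝ] (Fin n → ℂ))
    (h : PairProp (M : (Fin n → ℂ) →L[ℝ] (Fin n → ℂ)))
    (h' : PairProp (M.symm : (Fin n → ℂ) →L[ℝ] (Fin n → ℂ))) :
    |(M : (Fin n → ℂ) →L[ℝ] (Fin n → ℂ)).det| = 1 := by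
  have hdet' : ∀ L : (Fin n → ℂ) →ₗ[ℝ] (Fin n → ℂ),
      (∀ u v, omega (L u) (L v) = omega u v) → |LinearMap.det L| = 1 := by
    intro L hL
    have := hdet (LinearMap.toContinuousLinearMap L) hL
    exact this
  obtain ⟨A, hA⟩ := exists_adj ((M : (Fin n → ℂ) →L[ℝ] (Fin n → ℂ)) : (Fin n → ℂ) →ₗ[ℝ] (Fin n → ℂ))
  obtain ⟨B, hB⟩ := exists_adj ((M.symm : (Fin n → ℂ) →L[ℝ] (Fin n → ℂ)) :
    (Fin n → ℂ) →ₗ[ℝ] (Fin n → ℂ))
  have hBA : ∀ a, B (A a) = a := by
    intro a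
    have : B (A a) - a = 0 := by
      apply omega_nondeg
      intro x
      rw [omega_sub_left, hB]
      have h1 := hA a (M.symm x)
      have h2 : ((M : (Fin n → ℂ) →L[ℝ] (Fin n → ℂ)) : (Fin n → ℂ) →ₗ[ℝ] (Fin n → ℂ)) (M.symm x) = x :=
        M.apply_symm_apply x
      rw [h2] at h1
      have h3 : omega (A a) (((M.symm : (Fin n → ℂ) →L[ℝ] (Fin n → ℂ)) :
          (Fin n → ℂ) →ₗ[ℝ] (Fin n → ℂ)) x) = omega (A a) (M.symm x) := rfl
      rw [h3, h1, sub_self]
    exact sub_eq_zero.mp this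
  have habs : ∀ a b, |omega (A a) (A b)| = |omega a b| := by
    intro a b
    apply le_antisymm
    · have := scale_pair _ h' B hB (A a) (A b)
      rwa [hBA, hBA] at this
    · exact scale_pair _ h A hA a b
  let β : (Fin n → ℂ) →ₗ[ℝ] ((Fin n → ℂ) →ₗ[ℝ] ℝ) := (LinearMap.lcomp ℝ ℝ A) ∘ₗ (omegaL n) ∘ₗ A
  have hβ : ∀ a b, β a b = omega (A a) (A b) := fun a b => rfl
  have hdich : (β - omegaL n) = 0 ∨ (β + omegaL n) = 0 := by
    apply two_maps
    intro a
    apply two_maps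
    intro b
    have h1 := habs a b
    rcases abs_eq_abs.mp h1 with h2 | h2
    · left
      rw [LinearMap.sub_apply, LinearMap.sub_apply, hβ, omegaL_apply, h2, sub_self]
    · right
      rw [LinearMap.add_apply, LinearMap.add_apply, hβ, omegaL_apply, h2, neg_add_cancel]
  have hMA : |LinearMap.det ((M : (Fin n → ℂ) →L[ℝ] (Fin n → ℂ)) :
      (Fin n → ℂ) →ₗ[ℝ] (Fin n → ℂ))| * |LinearMap.det A| = 1 := by
    rw [← abs_mul, ← LinearMap.det_comp]
    rcases hdich with hd | hd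
    · have : (((M : (Fin n → ℂ) →L[ℝ] (Fin n → ℂ)) : (Fin n → ℂ) →ₗ[ℝ] (Fin n → ℂ)) ∘ₗ A)
          = LinearMap.id := by
        refine LinearMap.ext fun b => ?_
        have : (((M : (Fin n → ℂ) →L[ℝ] (Fin n → ℂ)) : (Fin n → ℂ) →ₗ[ℝ] (Fin n → ℂ)) (A b)) - b = 0 := by
          apply omega_nondeg
          intro x
          rw [omega_sub_left, omega_swap, ← hA, omega_swap b x]
          have h1 : (β - omegaL n) x b = 0 := by rw [hd]; rfl
          rw [LinearMap.sub_apply, LinearMap.sub_apply, hβ, omegaL_apply] at h1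
          linarith
        exact sub_eq_zero.mp this
      rw [this, LinearMap.det_id, abs_one]
    · have : (((M : (Fin n → ℂ) →L[ℝ] (Fin n → ℂ)) : (Fin n → ℂ) →ₗ[ℝ] (Fin n → ℂ)) ∘ₗ A)
          = (-1 : ℝ) • LinearMap.id := by
        refine LinearMap.ext fun b => ?_
        have : (((M : (Fin n → ℂ) →L[ℝ] (Fin n → ℂ)) : (Fin n → ℂ) →ₗ[ℝ] (Fin n → ℂ)) (A b)) - (-b) = 0 := by
          apply omega_nondeg
          intro x
          rw [omega_sub_left, omega_swap, ← hA, omega_neg_left, omega_swap b x]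
          have h1 : (β + omegaL n) x b = 0 := by rw [hd]; rfl
          rw [LinearMap.add_apply, LinearMap.add_apply, hβ, omegaL_apply] at h1
          linarith
        have h2 := sub_eq_zero.mp this
        rw [LinearMap.comp_apply, h2]
        simp
      rw [this, LinearMap.det_smul, LinearMap.det_id, mul_one, abs_pow, abs_neg, abs_one, one_pow]
  have hdetA : |LinearMap.det A| = 1 := by
    rcases hdich with hd | hd
    · apply hdet'
      intro u v
      have h1 : (β - omegaL n) u v = 0 := by rw [hd]; rfl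
      rw [LinearMap.sub_apply, LinearMap.sub_apply, hβ, omegaL_apply] at h1
      linarith
    · have h1 := hdet' (A ∘ₗ conjL n) (by
        intro u v
        have h1 : (β + omegaL n) (conjL n u) (conjL n v) = 0 := by rw [hd]; rfl
        rw [LinearMap.add_apply, LinearMap.add_apply, hβ, omegaL_apply, omega_conj] at h1
        rw [LinearMap.comp_apply, LinearMap.comp_apply]
        linarith)
      have h2 : LinearMap.det (conjL n) * LinearMap.det (conjL n) = 1 := by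
        rw [← LinearMap.det_comp, conj_conj, LinearMap.det_id]
      have h3 : |LinearMap.det (conjL n)| = 1 := by
        have h4 : |LinearMap.det (conjL n)| * |LinearMap.det (conjL n)| = 1 := by
          rw [← abs_mul, h2, abs_one]
        nlinarith [abs_nonneg (LinearMap.det (conjL n))]
      rw [LinearMap.det_comp, abs_mul, h3, mul_one] at h1
      exact h1
  rw [hdetA, mul_one] at hMA
  exact hMA


end Pool.Agent.Helper943.VC
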