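import Pool.Agent.Helper943.VCDefs2

set_option autoImplicit false

open MeasureTheory
open scoped ENNReal

namespace Pool.Agent.Helper943.VC

/-- splitting off the last coordinate -/
noncomputable def prodId_deriv_e (n : ℕ) : (Fin (n + 1) → ℂ) ≃ₗ[ℝ] ((Fin n → ℂ) × ℂ) where
  toFun z := (Fin.init z, z (Fin.last n))
  invFun p := Fin.snoc (α := fun _ => ℂ) p.1 p.2
  map_add' _ _ := rfl
  map_smul' _ _ := rfl
  left_inv z := by simp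
  right_inv p := by simp

/-- derivative of phi x id -/
theorem prodId_deriv {n : ℕ} (φ : (Fin n → ℂ) → (Fin n → ℂ)) (z : Fin n → ℂ)
    (L : (Fin n → ℂ) →L[ℝ] (Fin n → ℂ)) (h : HasFDerivAt φ L z) :
    ∃ L2 : (Fin (n + 1) → ℂ) →L[ℝ] (Fin (n + 1) → ℂ),
      HasFDerivAt (prodId φ) L2 (Fin.snoc (α := fun _ => ℂ) z 0) ∧ L2.det = L.det := by
  let E : (Fin (n + 1) → ℂ) ≃L[ℝ] ((Fin n → ℂ) × ℂ) := (prodId_deriv_e n).toContinuousLinearEquiv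
  have hE : E (Fin.snoc (α := fun _ => ℂ) z 0) = (z, 0) := by
    show (prodId_deriv_e n) (Fin.snoc (α := fun _ => ℂ) z 0) = (z, 0)
    simp [prodId_deriv_e]
  have h1 : HasFDerivAt (Prod.map φ id) (L.prodMap (ContinuousLinearMap.id ℝ ℂ))
      (E (Fin.snoc (α := fun _ => ℂ) z 0)) := by
    rw [hE]
    exact HasFDerivAt.prodMap (z, (0 : ℂ)) h (hasFDerivAt_id (0 : ℂ))
  have h2 := h1.comp (Fin.snoc (α := fun _ => ℂ) z 0) E.hasFDerivAt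
  have h3 := E.symm.hasFDerivAt.comp (Fin.snoc (α := fun _ => ℂ) z 0) h2
  refine ⟨_, h3, ?_⟩
  have h4 : (((E.symm : ((Fin n → ℂ) × ℂ) →L[ℝ] (Fin (n + 1) → ℂ)).comp
      ((L.prodMap (ContinuousLinearMap.id ℝ ℂ)).comp (E : (Fin (n + 1) → ℂ) →L[ℝ] ((Fin n → ℂ) × ℂ))) :
      (Fin (n + 1) → ℂ) →L[ℝ] (Fin (n + 1) → ℂ)) : (Fin (n + 1) → ℂ) →ₗ[ℝ] (Fin (n + 1) → ℂ)) =
      ((prodId_deriv_e n).symm : ((Fin n → ℂ) × ℂ) →ₗ[ℝ] (Fin (n + 1) → ℂ)) ∘ₗ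
      (((L : (Fin n → ℂ) →ₗ[ℝ] (Fin n → ℂ))).prodMap (LinearMap.id : ℂ →ₗ[ℝ] ℂ)) ∘ₗ
      ((prodId_deriv_e n).symm.symm : (Fin (n + 1) → ℂ) →ₗ[ℝ] ((Fin n → ℂ) × ℂ)) := by
    ext w i
    rfl
  show LinearMap.det _ = LinearMap.det _
  rw [h4, LinearMap.det_conj, LinearMap.det_prodMap]
  simp


end Pool.Agent.Helper943.VC
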