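import Pool.Agent.Helper943.VCDefs2

set_option autoImplicit false

open MeasureTheory
open scoped ENNReal

namespace Pool.Agent.Helper943.VC

/-- area formula conclusion -/
theorem vol_of_det {n : ℕ} (φ : (Fin n → ℂ) ≃ₜ (Fin n → ℂ))
    (hd : ∀ᵐ z : Fin n → ℂ, DifferentiableAt ℝ φ z)
    (hN : ∀ N : Set (Fin n → ℂ), volume N = 0 → volume (φ '' N) = 0)
    (hdet : ∀ (z : Fin n → ℂ) (L : (Fin n → ℂ) →L[ℝ] (Fin n → ℂ)),
      HasFDerivAt φ L z → |L.det| = 1) :
    ∀ A, MeasurableSet A → volume (φ '' A) = volume A := by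
  intro A hA
  obtain ⟨D, hD⟩ : ∃ D : Set (Fin n → ℂ), D = {z | DifferentiableAt ℝ φ z} := ⟨_, rfl⟩
  have hDm : MeasurableSet D := by
    rw [hD]
    exact measurableSet_of_differentiableAt ℝ φ
  have hDc : volume Dᶜ = 0 := by
    rw [hD]
    exact hd
  have h1 : volume (φ '' (A ∩ D)) = volume (A ∩ D) := by
    have h2 := lintegral_abs_det_fderiv_eq_addHaar_image (volume : Measure (Fin n → ℂ))
      (hA.inter hDm) (f := φ) (f' := fun z => fderiv ℝ φ z)
      (fun z hz => by
        have h3 : z ∈ D := hz.2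
        rw [hD] at h3
        exact (DifferentiableAt.hasFDerivAt h3).hasFDerivWithinAt)
      (φ.injective.injOn)
    rw [← h2]
    have h4 : ∫⁻ z in A ∩ D, ENNReal.ofReal |(fderiv ℝ φ z).det| =
        ∫⁻ z in A ∩ D, 1 := by
      apply setLIntegral_congr_fun (hA.inter hDm)
      intro z hz
      have h3 : z ∈ D := hz.2
      rw [hD] at h3
      have h5 := hdet z (fderiv ℝ φ z) (DifferentiableAt.hasFDerivAt h3)
      show ENNReal.ofReal |(fderiv ℝ φ z).det| = 1
      rw [h5, ENNReal.ofReal_one]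
    rw [h4, setLIntegral_one]
  have h2 : volume (φ '' (A \ D)) = 0 :=
    hN _ (measure_mono_null (fun z hz => hz.2) hDc)
  have h3 : volume (A \ D) = 0 := measure_mono_null (fun z hz => hz.2) hDc
  apply le_antisymm
  · calc volume (φ '' A) = volume (φ '' (A ∩ D) ∪ φ '' (A \ D)) := by
          rw [← Set.image_union, Set.inter_union_sdiff]
      _ ≤ volume (φ '' (A ∩ D)) + volume (φ '' (A \ D)) := measure_union_le _ _
      _ = volume (A ∩ D) := by rw [h1, h2, add_zero]
      _ ≤ volume A := measure_mono Set.inter_subset_left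
  · calc volume A = volume ((A ∩ D) ∪ (A \ D)) := by rw [Set.inter_union_sdiff]
      _ ≤ volume (A ∩ D) + volume (A \ D) := measure_union_le _ _
      _ = volume (φ '' (A ∩ D)) := by rw [h1, h3, add_zero]
      _ ≤ volume (φ '' A) := measure_mono (Set.image_mono Set.inter_subset_left)


end Pool.Agent.Helper943.VC
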