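import Pool.Agent.Helper943.VCDefs2

set_option autoImplicit false

open MeasureTheory
open scoped ENNReal

namespace Pool.Agent.Helper943.VC

theorem lip_facts {n : ℕ} (φ : (Fin n → ℂ) → (Fin n → ℂ)) (h : LocallyLipschitz φ) :
    (∀ᵐ z : Fin n → ℂ, DifferentiableAt ℝ φ z) ∧
      (∀ N : Set (Fin n → ℂ), volume N = 0 → volume (φ '' N) = 0) := by
  choose K t ht hK using h
  obtain ⟨s, hs, hcov⟩ := TopologicalSpace.countable_cover_nhds
    (f := fun x => interior (t x)) (fun x => interior_mem_nhds.mpr (ht x))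
  constructor
  · have h1 : ∀ x ∈ s, ∀ᵐ z : Fin n → ℂ, z ∈ interior (t x) → DifferentiableAt ℝ φ z := by
      intro x _
      have h2 := ((hK x).mono interior_subset).ae_differentiableWithinAt_of_mem
        (μ := (volume : Measure (Fin n → ℂ)))
      filter_upwards [h2] with z hz hzm
      exact (hz hzm).differentiableAt (isOpen_interior.mem_nhds hzm)
    have h3 := (ae_ball_iff hs).mpr h1
    filter_upwards [h3] with z hz
    have hz1 : z ∈ ⋃ x ∈ s, interior (t x) := by rw [hcov]; exact Set.mem_univ z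
    obtain ⟨x, hx, hzx⟩ := Set.mem_iUnion₂.mp hz1
    exact hz x hx hzx
  · intro N hN
    have hsub : φ '' N ⊆ ⋃ x ∈ s, φ '' (N ∩ interior (t x)) := by
      rintro _ ⟨z, hz, rfl⟩
      have hz1 : z ∈ ⋃ x ∈ s, interior (t x) := by rw [hcov]; exact Set.mem_univ z
      obtain ⟨x, hx, hzx⟩ := Set.mem_iUnion₂.mp hz1
      exact Set.mem_iUnion₂.mpr ⟨x, hx, z, ⟨hz, hzx⟩, rfl⟩
    refine measure_mono_null hsub ?_
    rw [measure_biUnion_null_iff hs]
    intro x _
    have hac1 : (Measure.hausdorffMeasure (Module.finrank ℝ (Fin n → ℂ)) :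
        Measure (Fin n → ℂ)) ≪ volume := Measure.absolutelyContinuous_isAddHaarMeasure _ _
    have hac2 : (volume : Measure (Fin n → ℂ)) ≪
        Measure.hausdorffMeasure (Module.finrank ℝ (Fin n → ℂ)) :=
      Measure.absolutelyContinuous_isAddHaarMeasure _ _
    apply hac2
    have h4 : Measure.hausdorffMeasure (Module.finrank ℝ (Fin n → ℂ)) (N ∩ interior (t x)) = 0 :=
      measure_mono_null Set.inter_subset_left (hac1 hN)
    have h5 := ((hK x).mono (Set.inter_subset_right.trans interior_subset :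
      N ∩ interior (t x) ⊆ t x)).hausdorffMeasure_image_le
      (d := (Module.finrank ℝ (Fin n → ℂ) : ℝ)) (Nat.cast_nonneg _)
    rw [h4, mul_zero] at h5
    exact nonpos_iff_eq_zero.mp h5


end Pool.Agent.Helper943.VC
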