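import Pool.Agent.Helper943.VCMain
import Pool.Agent.Helper943.VCM1
import Pool.Agent.Helper943.VCM2
import Pool.Agent.Helper943.VCM3
import Pool.Agent.Helper943.VCM4
import Pool.Agent.Helper943.VCM5
import Pool.Agent.Helper943.VCM6
import Pool.Agent.Helper943.VCM7
import Pool.Agent.Helper943.VCM8

set_option autoImplicit false

open MeasureTheory
open scoped ENNReal

namespace Pool.Agent.Helper943.VC

theorem deriv_pair {n : ℕ} (hn : 1 ≤ n) (c : Set (Fin n → ℂ) → ℝ≥0∞) (hc : IsCapacity n c)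
    (ψ : (Fin n → ℂ) ≃ₜ (Fin n → ℂ)) (hψ : LocPres c ψ) (p : Fin n → ℂ)
    (L : (Fin n → ℂ) →L[ℝ] (Fin n → ℂ)) (hL : HasFDerivAt ψ L p) : PairProp L := by
  intro a b a' b' hab ha' hb'
  by_contra hlt
  push Not at hlt
  obtain ⟨η, h1, h2⟩ := exists_between hlt
  obtain ⟨S, hS, hs⟩ := small_cyl trans_pairs hn a' b' η h1
  have h3 := nonsq hn c hc (eball_open n) (cap_mono_sub c hc) (cap_symp c hc) (cap_transl c hc)
    (cap_cyl trans_pairs hn c hc) ψ hψ p L hL S hS a b hab η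
    (fun x hx => by rw [← ha', ← hb']; exact hs x hx)
  linarith

theorem locPres_symm {n : ℕ} (c : Set (Fin n → ℂ) → ℝ≥0∞) (φ : (Fin n → ℂ) ≃ₜ (Fin n → ℂ))
    (hφ : LocPres c φ) : LocPres c φ.symm := by
  intro q
  obtain ⟨U, hU, hp, h⟩ := hφ (φ.symm q)
  refine ⟨φ '' U, φ.isOpenMap _ hU, ⟨φ.symm q, hp, by simp⟩, ?_⟩
  intro V hV hVU
  have h1 : φ '' (φ.symm '' V) = V := by
    rw [← Set.image_comp]; simp
  have h2 : φ.symm '' V ⊆ U := by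
    rintro _ ⟨v, hv', rfl⟩
    obtain ⟨u, hu, rfl⟩ := hVU hv'
    simpa using hu
  have h3 := h (φ.symm '' V) (φ.symm.isOpenMap _ hV) h2
  rw [h1] at h3
  exact h3.symm

theorem deriv_det {n : ℕ} (hn : 1 ≤ n) (c : Set (Fin n → ℂ) → ℝ≥0∞) (hc : IsCapacity n c)
    (φ : (Fin n → ℂ) ≃ₜ (Fin n → ℂ)) (hφ : LocPres c φ) (p : Fin n → ℂ)
    (L : (Fin n → ℂ) →L[ℝ] (Fin n → ℂ)) (hL : HasFDerivAt φ L p) : |L.det| = 1 := by
  have hP := deriv_pair hn c hc φ hφ p L hL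
  obtain ⟨M, hM⟩ := pair_equiv L hP
  have hinv : HasFDerivAt φ.symm (M.symm : (Fin n → ℂ) →L[ℝ] (Fin n → ℂ)) (φ p) := by
    apply HasFDerivAt.of_local_left_inverse (f := φ)
    · exact φ.symm.continuous.continuousAt
    · rw [hM]
      simpa using hL
    · exact Filter.Eventually.of_forall (fun y => by simp)
  have h1 := deriv_pair hn c hc φ.symm (locPres_symm c φ hφ) (φ p) _ hinv
  rw [← hM]
  exact pair_det (fun L h => abs_det_one L h) M (by rw [hM]; exact hP) h1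

theorem deriv_det_any (c : ∀ m : ℕ, Set (Fin m → ℂ) → ℝ≥0∞)
    (hc : ∀ m, 1 ≤ m → IsCapacity m (c m)) {n : ℕ} (hn : 1 ≤ n)
    (φ : (Fin n → ℂ) ≃ₜ (Fin n → ℂ)) (hφ : IsCSympHomeo c n φ) (p : Fin n → ℂ)
    (L : (Fin n → ℂ) →L[ℝ] (Fin n → ℂ)) (hL : HasFDerivAt φ L p) : |L.det| = 1 := by
  rcases Nat.even_or_odd n with he | ho
  · obtain ⟨Φ, hΦ⟩ := prodId_homeo φ
    obtain ⟨L2, h2, hd⟩ := prodId_deriv φ p L hL
    rw [← hd]
    exact deriv_det (by omega) (c (n + 1)) (hc _ (by omega)) Φ (by rw [hΦ]; exact hφ.2 he) _ L2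
      (by rw [hΦ]; exact h2)
  · exact deriv_det hn (c n) (hc n hn) φ (hφ.1 ho) p L hL

theorem csymp_symm (c : ∀ m : ℕ, Set (Fin m → ℂ) → ℝ≥0∞) {n : ℕ}
    (φ : (Fin n → ℂ) ≃ₜ (Fin n → ℂ)) (hφ : IsCSympHomeo c n φ) : IsCSympHomeo c n φ.symm := by
  refine ⟨fun ho => locPres_symm _ φ (hφ.1 ho), fun he => ?_⟩
  obtain ⟨Φ, hΦ⟩ := prodId_homeo φ
  have h1 : LocPres (c (n + 1)) Φ.symm := by
    apply locPres_symm
    rw [hΦ]; exact hφ.2 he
  have h2 : (Φ.symm : (Fin (n + 1) → ℂ) → (Fin (n + 1) → ℂ)) = prodId φ.symm := by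
    funext z
    rw [← Φ.injective.eq_iff, Homeomorph.apply_symm_apply, hΦ]
    simp [prodId]
  rw [← h2]
  exact h1

end Pool.Agent.Helper943.VC
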