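import Pool.Agent.Helper943.VCMac

set_option autoImplicit false

open MeasureTheory
open scoped ENNReal

namespace Pool.Agent.Helper943.VC

theorem cap_vol_pt {n : ℕ} (c : Set (Fin n → ℂ) → ℝ≥0∞) (hc : IsCapacity n c)
    (K : ℝ≥0∞) (W : Set (Fin n → ℂ)) (hW : c (eball n 1) ^ n ≤ K * volume (closure W)) :
    volume (eball n 1) ≤ (K * volume (eball n 1) / ENNReal.ofReal Real.pi ^ n) *
      volume (closure W) := by
  have hpi0 : ENNReal.ofReal Real.pi ^ n ≠ 0 :=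
    pow_ne_zero n (ENNReal.ofReal_pos.2 Real.pi_pos).ne'
  have hpit : ENNReal.ofReal Real.pi ^ n ≠ ⊤ := ENNReal.pow_ne_top ENNReal.ofReal_ne_top
  rw [hc.ball] at hW
  have h3 : K * volume (eball n 1) / ENNReal.ofReal Real.pi ^ n * volume (closure W) =
      (K * volume (closure W) * volume (eball n 1)) / ENNReal.ofReal Real.pi ^ n := by
    rw [div_eq_mul_inv, div_eq_mul_inv]
    ring
  rw [h3, ENNReal.le_div_iff_mul_le (Or.inl hpi0) (Or.inl hpit), mul_comm]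
  exact mul_le_mul' hW (le_refl _)

theorem coarse_flat_odd (c : ∀ m : ℕ, Set (Fin m → ℂ) → ℝ≥0∞)
    (hc : ∀ m, 1 ≤ m → IsCapacity m (c m)) {n : ℕ} (hn : 1 ≤ n) (ho : Odd n)
    (K : ℝ≥0∞) (hK : K ≠ ⊤)
    (hv : ∀ ψ : (Fin n → ℂ) ≃ₜ (Fin n → ℂ),
      c n (ψ '' eball n 1) ^ n ≤ K * volume (closure (ψ '' eball n 1)))
    (φ : (Fin n → ℂ) ≃ₜ (Fin n → ℂ)) (hφ : IsCSympHomeo c n φ) :
    ∀ A, MeasurableSet A → volume (φ '' A) = volume A := by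
  have hpi0 : ENNReal.ofReal Real.pi ^ n ≠ 0 :=
    pow_ne_zero n (ENNReal.ofReal_pos.2 Real.pi_pos).ne'
  apply macro_step c hc hn (K * volume (eball n 1) / ENNReal.ofReal Real.pi ^ n)
    (ENNReal.div_ne_top (ENNReal.mul_ne_top hK (eball_fin n).ne) hpi0) 1 ?_ φ hφ
  intro ψ _ _ hodd _
  rw [ψ.image_closure]
  apply cap_vol_pt (c n) (hc n hn)
  rw [← hodd ho _ (eball_open n 1) subset_rfl]
  exact hv ψ

theorem coarse_flat (c : ∀ m : ℕ, Set (Fin m → ℂ) → ℝ≥0∞)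
    (hc : ∀ m, 1 ≤ m → IsCapacity m (c m)) {n : ℕ} (hn : 1 ≤ n)
    (h1 : Odd n → ∃ K : ℝ≥0∞, K ≠ ⊤ ∧ ∀ ψ : (Fin n → ℂ) ≃ₜ (Fin n → ℂ),
      c n (ψ '' eball n 1) ^ n ≤ K * volume (closure (ψ '' eball n 1)))
    (h2 : Even n → ∃ K : ℝ≥0∞, K ≠ ⊤ ∧ ∀ ψ : (Fin (n + 1) → ℂ) ≃ₜ (Fin (n + 1) → ℂ),
      c (n + 1) (ψ '' eball (n + 1) 1) ^ (n + 1) ≤
        K * volume (closure (ψ '' eball (n + 1) 1)))
    (φ : (Fin n → ℂ) ≃ₜ (Fin n → ℂ)) (hφ : IsCSympHomeo c n φ) :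
    ∀ A, MeasurableSet A → volume (φ '' A) = volume A := by
  rcases Nat.even_or_odd n with he | ho
  · have ho' : Odd (n + 1) := he.add_one
    obtain ⟨Φ, hΦ⟩ := prodId_homeo φ
    obtain ⟨K, hKt, hv⟩ := h2 he
    apply prodId_vol φ
    rw [← hΦ]
    apply coarse_flat_odd c hc (by omega) ho' K hKt hv Φ
    refine ⟨fun _ => ?_, fun he' => absurd ho' (Nat.not_odd_iff_even.2 he')⟩
    rw [hΦ]
    exact hφ.2 he
  · obtain ⟨K, hKt, hv⟩ := h1 ho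
    exact coarse_flat_odd c hc hn ho K hKt hv φ hφ

end Pool.Agent.Helper943.VC
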