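import Mathlib

set_option autoImplicit false

open MeasureTheory
open scoped ENNReal

namespace Pool.Agent.Helper943.VC

/-- The standard symplectic form of R^{2n}; the j-th coordinate pair (x_j, y_j) is the complex number `z j`. -/
def omega {n : ℕ} (u v : Fin n → ℂ) : ℝ :=
  ∑ j, ((u j).re * (v j).im - (u j).im * (v j).re)

/-- The open Euclidean ball of radius r (r positive) around the origin of R^{2n}. -/
def eball (n : ℕ) (r : ℝ) : Set (Fin n → ℂ) := {z | ∑ j, ‖z j‖ ^ 2 < r ^ 2}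

/-- The open symplectic cylinder of radius r. -/
def cyl (n : ℕ) (r : ℝ) : Set (Fin n → ℂ) := {z | ∀ h : 0 < n, ‖z ⟨0, h⟩‖ < r}

/-- Symplectic embedding of the open set U into V: smooth, injective, preserves the symplectic form. -/
def IsSympEmb {n : ℕ} (f : (Fin n → ℂ) → (Fin n → ℂ)) (U V : Set (Fin n → ℂ)) : Prop :=
  ContDiffOn ℝ ((⊤ : ℕ∞) : WithTop ℕ∞) f U ∧ Set.InjOn f U ∧ Set.MapsTo f U V ∧
    ∀ z ∈ U, ∀ u v, omega (fderiv ℝ f z u) (fderiv ℝ f z v) = omega u v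

/-- Normalised symplectic capacity on R^{2n}. -/
structure IsCapacity (n : ℕ) (c : Set (Fin n → ℂ) → ℝ≥0∞) : Prop where
  mono : ∀ U V, IsOpen U → IsOpen V → (∃ f, IsSympEmb f U V) → c U ≤ c V
  conf : ∀ U, IsOpen U → ∀ l : ℝ, 0 < l → c ((fun z => l • z) '' U) = ENNReal.ofReal (l ^ 2) * c U
  ball : c (eball n 1) = ENNReal.ofReal Real.pi
  cyl : c (cyl n 1) = ENNReal.ofReal Real.pi

/-- c(U) is at most pi (vol U / vol B(1))^(1/n) for every open U, written without roots. -/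
def VolDominated (n : ℕ) (c : Set (Fin n → ℂ) → ℝ≥0∞) : Prop :=
  ∀ U, IsOpen U → c U ^ n * volume (eball n 1) ≤ ENNReal.ofReal Real.pi ^ n * volume U

/-- The Gromov width: supremum of pi r^2 over the balls B(r) that embed symplectically into U. -/
noncomputable def gromovWidth {n : ℕ} (U : Set (Fin n → ℂ)) : ℝ≥0∞ :=
  ⨆ (r : ℝ) (_ : 0 < r ∧ ∃ f, IsSympEmb f (eball n r) U), ENNReal.ofReal (Real.pi * r ^ 2)

/-- Every point has an open neighbourhood U with c(f(V)) = c(V) for all open V inside U. -/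
def LocPres {n : ℕ} (c : Set (Fin n → ℂ) → ℝ≥0∞) (f : (Fin n → ℂ) → (Fin n → ℂ)) : Prop :=
  ∀ p, ∃ U, IsOpen U ∧ p ∈ U ∧ ∀ V, IsOpen V → V ⊆ U → c (f '' V) = c V

/-- f times the identity of R^2. -/
def prodId {n : ℕ} (f : (Fin n → ℂ) → (Fin n → ℂ)) : (Fin (n + 1) → ℂ) → (Fin (n + 1) → ℂ) :=
  fun z => Fin.snoc (α := fun _ => ℂ) (f (Fin.init z)) (z (Fin.last n))

/-- c-symplectic homeomorphism of R^{2n} (without the orientation condition, which is not needed):
for odd n it locally preserves c_n, for even n its product with the identity of R^2 locally preserves c_{n+1}. -/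
def IsCSympHomeo (c : ∀ m : ℕ, Set (Fin m → ℂ) → ℝ≥0∞) (n : ℕ)
    (φ : (Fin n → ℂ) ≃ₜ (Fin n → ℂ)) : Prop :=
  (Odd n → LocPres (c n) φ) ∧ (Even n → LocPres (c (n + 1)) (prodId φ))

end Pool.Agent.Helper943.VC
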