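import Pool.Agent.Helper943.VCOm

set_option autoImplicit false

open MeasureTheory
open scoped ENNReal

namespace Pool.Agent.Helper943.VC

/-- symplectic linear isomorphism -/
def IsSympL {n : ℕ} (T : (Fin n → ℂ) ≃L[ℝ] (Fin n → ℂ)) : Prop :=
  ∀ u v, omega (T u) (T v) = omega u v

/-- the adjoint of L (with respect to omega) does not shrink omega -/
def PairProp {n : ℕ} (L : (Fin n → ℂ) →L[ℝ] (Fin n → ℂ)) : Prop :=
  ∀ a b a' b' : Fin n → ℂ, omega a b = 1 → (∀ x, omega a' x = omega a (L x)) →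
    (∀ x, omega b' x = omega b (L x)) → 1 ≤ |omega a' b'|

end Pool.Agent.Helper943.VC
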