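import Pool.Agent.Helper943.VCFin

set_option autoImplicit false

open MeasureTheory
open scoped ENNReal

namespace Pool.Agent.Helper943.VC

/-- the map x -> z + r x -/
noncomputable def aff {n : ℕ} (z : Fin n → ℂ) (r : ℝ) (hr : 0 < r) :
    (Fin n → ℂ) ≃ₜ (Fin n → ℂ) :=
  (Homeomorph.smulOfNeZero r hr.ne').trans (Homeomorph.addLeft z)

theorem aff_apply {n : ℕ} (z : Fin n → ℂ) (r : ℝ) (hr : 0 < r) (x : Fin n → ℂ) :
    aff z r hr x = z + r • x := rfl

/-- the blow-up of phi at z with scale r -/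
noncomputable def blow {n : ℕ} (φ : (Fin n → ℂ) ≃ₜ (Fin n → ℂ)) (z : Fin n → ℂ) (r : ℝ)
    (hr : 0 < r) : (Fin n → ℂ) ≃ₜ (Fin n → ℂ) :=
  ((aff z r hr).trans φ).trans (aff (φ z) r hr).symm

theorem cap_aff {n : ℕ} (c : Set (Fin n → ℂ) → ℝ≥0∞) (hc : IsCapacity n c)
    (z : Fin n → ℂ) (r : ℝ) (hr : 0 < r) (V : Set (Fin n → ℂ)) (hV : IsOpen V) :
    c (aff z r hr '' V) = ENNReal.ofReal (r ^ 2) * c V := by
  have e : aff z r hr '' V = (fun x => z + x) '' ((fun x => r • x) '' V) := by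
    rw [← Set.image_comp]; rfl
  have ho : IsOpen ((fun x => r • x) '' V) := (Homeomorph.smulOfNeZero r hr.ne').isOpenMap _ hV
  rw [e, cap_transl c hc z _ ho, hc.conf V hV r hr]

theorem cap_blow {n : ℕ} (c : Set (Fin n → ℂ) → ℝ≥0∞) (hc : IsCapacity n c)
    (φ : (Fin n → ℂ) ≃ₜ (Fin n → ℂ)) (z : Fin n → ℂ) (r : ℝ) (hr : 0 < r)
    (V : Set (Fin n → ℂ)) (hV : IsOpen V)
    (h : c (φ '' (aff z r hr '' V)) = c (aff z r hr '' V)) : c (blow φ z r hr '' V) = c V := by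
  have e : aff (φ z) r hr '' (blow φ z r hr '' V) = φ '' (aff z r hr '' V) := by
    rw [← Set.image_comp, ← Set.image_comp]
    congr 1
    funext x
    simp [blow]
  have h1 := cap_aff c hc (φ z) r hr (blow φ z r hr '' V) ((blow φ z r hr).isOpenMap _ hV)
  rw [e, h, cap_aff c hc z r hr V hV] at h1
  have h2 : ENNReal.ofReal (r ^ 2) ≠ 0 := (ENNReal.ofReal_pos.2 (by positivity)).ne'
  exact ((ENNReal.mul_right_inj h2 ENNReal.ofReal_ne_top).1 h1).symm

theorem blow_locPres {n : ℕ} (c : Set (Fin n → ℂ) → ℝ≥0∞) (hc : IsCapacity n c)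
    (φ : (Fin n → ℂ) ≃ₜ (Fin n → ℂ)) (hφ : LocPres c φ) (z : Fin n → ℂ) (r : ℝ) (hr : 0 < r) :
    LocPres c (blow φ z r hr) := by
  intro x
  obtain ⟨U, hU, hp, h⟩ := hφ (aff z r hr x)
  refine ⟨aff z r hr ⁻¹' U, hU.preimage (aff z r hr).continuous, hp, ?_⟩
  intro V hV hVU
  apply cap_blow c hc φ z r hr V hV
  exact h _ ((aff z r hr).isOpenMap _ hV) (Set.image_subset_iff.2 hVU)

theorem blow_zero {n : ℕ} (φ : (Fin n → ℂ) ≃ₜ (Fin n → ℂ)) (z : Fin n → ℂ) (r : ℝ) (hr : 0 < r) :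
    blow φ z r hr 0 = 0 := by
  simp only [blow, Homeomorph.trans_apply]
  rw [Homeomorph.symm_apply_eq]
  simp [aff_apply]

theorem blow_prod {n : ℕ} (φ : (Fin n → ℂ) ≃ₜ (Fin n → ℂ)) (z : Fin n → ℂ) (r : ℝ) (hr : 0 < r)
    (Φ : (Fin (n + 1) → ℂ) ≃ₜ (Fin (n + 1) → ℂ))
    (hΦ : (Φ : (Fin (n + 1) → ℂ) → (Fin (n + 1) → ℂ)) = prodId φ) :
    (blow Φ (Fin.snoc (α := fun _ => ℂ) z 0) r hr : (Fin (n + 1) → ℂ) → (Fin (n + 1) → ℂ))
      = prodId (blow φ z r hr) := by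
  funext x
  simp only [blow, Homeomorph.trans_apply]
  rw [Homeomorph.symm_apply_eq, aff_apply, aff_apply, hΦ]
  have e : ∀ y : Fin n → ℂ, φ z + r • ((aff (φ z) r hr).symm y) = y := by
    intro y
    rw [← aff_apply (φ z) r hr]
    exact (aff (φ z) r hr).apply_symm_apply y
  funext j
  refine Fin.lastCases ?_ (fun i => ?_) j
  · simp [prodId]
  · simp only [prodId, Pi.add_apply, Pi.smul_apply, Fin.snoc_castSucc]
    have e1 : (Fin.init (α := fun _ => ℂ)
        (Fin.snoc (α := fun _ => ℂ) z 0 + r • x : Fin (n + 1) → ℂ)) = aff z r hr (Fin.init x) := by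
      funext i
      simp [Fin.init, aff_apply]
    have e2 : (Fin.init (α := fun _ => ℂ) (Fin.snoc (α := fun _ => ℂ) z 0 : Fin (n + 1) → ℂ)) = z := by
      simp
    rw [e1, e2]
    have := congrFun (e (φ (aff z r hr (Fin.init x)))) i
    simpa using this.symm

open scoped Pointwise in
theorem blow_vol {n : ℕ} (φ : (Fin n → ℂ) ≃ₜ (Fin n → ℂ)) (z : Fin n → ℂ) (r : ℝ) (hr : 0 < r)
    (S : Set (Fin n → ℂ)) :
    volume (φ '' (aff z r hr '' S)) = ENNReal.ofReal (r ^ (2 * n)) * volume (blow φ z r hr '' S) := by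
  have e : φ '' (aff z r hr '' S) = (fun x => φ z + x) '' (r • (blow φ z r hr '' S)) := by
    rw [← Set.image_comp, ← Set.image_smul, ← Set.image_comp, ← Set.image_comp]
    congr 1
    funext x
    have := (aff (φ z) r hr).apply_symm_apply (φ (aff z r hr x))
    rw [aff_apply] at this
    simpa [blow] using this.symm
  rw [e, transl_vol, Measure.addHaar_smul]
  congr 2
  have : Module.finrank ℝ (Fin n → ℂ) = 2 * n := by
    rw [Module.finrank_pi_fintype]
    simp [Complex.finrank_real_complex, mul_comm]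
  rw [this, abs_of_pos (by positivity)]

end Pool.Agent.Helper943.VC
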