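import Mathlib

set_option autoImplicit false

namespace Pool.Agent.Helper943.VC

/-- A set of homeomorphisms of R^{2n} that contains the translations and is closed under
composition, inverses and rescaling: for φ in G, z in R^{2n}, r > 0 the map
x ↦ (φ(z + r x) - φ(z)) / r is in G. -/
def ClosedFam (n : ℕ) (G : Set ((Fin n → ℂ) ≃ₜ (Fin n → ℂ))) : Prop :=
  (∀ z : Fin n → ℂ, Homeomorph.addLeft z ∈ G) ∧
  (∀ φ ∈ G, ∀ ψ ∈ G, φ.trans ψ ∈ G) ∧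
  (∀ φ ∈ G, φ.symm ∈ G) ∧
  (∀ φ ∈ G, ∀ (z : Fin n → ℂ) (r : ℝ), 0 < r →
    ∃ ψ ∈ G, ∀ x, ψ x = r⁻¹ • (φ (z + r • x) - φ z))

end Pool.Agent.Helper943.VC
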