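import Pool.Agent.Helper943.VCDefs2

set_option autoImplicit false

open MeasureTheory
open scoped ENNReal

namespace Pool.Agent.Helper943.VC

theorem limit_aux_34490 {n : ℕ} (ψ : (Fin n → ℂ) ≃ₜ (Fin n → ℂ))
    (ψk : ℕ → ((Fin n → ℂ) ≃ₜ (Fin n → ℂ)))
    (h : TendstoLocallyUniformly (fun k => (ψk k : (Fin n → ℂ) → (Fin n → ℂ))) ψ Filter.atTop)
    (hv : ∀ k K, IsCompact K → volume (ψk k '' K) = volume K) :
    ∀ W, IsOpen W → volume W ≤ volume (ψ '' W) := by
  intro W hW
  rw [hW.measure_eq_iSup_isCompact volume]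
  refine iSup_le fun K => iSup_le fun hKW => iSup_le fun hK => ?_
  have hψK : IsCompact (ψ '' K) := hK.image ψ.continuous
  have hopen : IsOpen (ψ '' W) := ψ.isOpenMap W hW
  obtain ⟨ε, hε, hth⟩ := hψK.exists_thickening_subset_open hopen (Set.image_mono hKW)
  have hu : TendstoUniformlyOn (fun k => (ψk k : (Fin n → ℂ) → (Fin n → ℂ))) ψ Filter.atTop K :=
    (tendstoLocallyUniformlyOn_iff_tendstoUniformlyOn_of_compact hK).1
      h.tendstoLocallyUniformlyOn
  obtain ⟨k, hk⟩ := (Metric.tendstoUniformlyOn_iff.1 hu ε hε).exists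
  rw [← hv k K hK]
  apply measure_mono
  rintro y ⟨x, hx, rfl⟩
  apply hth
  rw [Metric.mem_thickening_iff]
  exact ⟨ψ x, Set.mem_image_of_mem _ hx, by rw [dist_comm]; exact hk x hx⟩

/-- C^0-limits of volume preserving homeomorphisms -/
theorem limit_vol {n : ℕ}
    (eqo : ∀ φ : (Fin n → ℂ) ≃ₜ (Fin n → ℂ), (∀ W, IsOpen W → volume W ≤ volume (φ '' W)) →
      (∀ W, IsOpen W → volume W ≤ volume (φ.symm '' W)) →
      ∀ A, MeasurableSet A → volume (φ '' A) = volume A)
    (φ : (Fin n → ℂ) ≃ₜ (Fin n → ℂ))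
    (φk : ℕ → ((Fin n → ℂ) ≃ₜ (Fin n → ℂ)))
    (h1 : TendstoLocallyUniformly (fun k => (φk k : (Fin n → ℂ) → (Fin n → ℂ))) φ Filter.atTop)
    (h2 : TendstoLocallyUniformly (fun k => ((φk k).symm : (Fin n → ℂ) → (Fin n → ℂ))) φ.symm
      Filter.atTop)
    (hv : ∀ k A, MeasurableSet A → volume (φk k '' A) = volume A) :
    ∀ A, MeasurableSet A → volume (φ '' A) = volume A := by
  apply eqo φ
  · exact limit_aux_34490 φ φk h1 (fun k K hK => hv k K hK.measurableSet)
  · apply limit_aux_34490 φ.symm (fun k => (φk k).symm) h2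
    intro k K hK
    have e1 := hv k ((φk k).symm '' K) (hK.image (φk k).symm.continuous).measurableSet
    have e2 : φk k '' ((φk k).symm '' K) = K := by
      rw [Set.image_image]
      simp
    rw [e2] at e1
    exact e1.symm


end Pool.Agent.Helper943.VC
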