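import Pool.Agent.Helper943.VCDefs2

set_option autoImplicit false

open MeasureTheory
open scoped ENNReal

namespace Pool.Agent.Helper943.VC

/-- area formula, one inequality -/
theorem vol_ge_of_det {n : ℕ} (φ : (Fin n → ℂ) ≃ₜ (Fin n → ℂ))
    (hd : ∀ᵐ z : Fin n → ℂ, DifferentiableAt ℝ φ z)
    (hdet : ∀ (z : Fin n → ℂ) (L : (Fin n → ℂ) →L[ℝ] (Fin n → ℂ)),
      HasFDerivAt φ L z → |L.det| = 1) :
    ∀ A, MeasurableSet A → volume A ≤ volume (φ '' A) := by
  intro A hA
  obtain ⟨D, hDdef⟩ : ∃ D : Set (Fin n → ℂ), D = {z | DifferentiableAt ℝ φ z} := ⟨_, rfl⟩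
  have hD : MeasurableSet D := by
    rw [hDdef]; exact measurableSet_of_differentiableAt ℝ (φ : (Fin n → ℂ) → (Fin n → ℂ))
  have hDn : volume Dᶜ = 0 := by
    rw [hDdef]; exact hd
  have h1 : volume A ≤ volume (A ∩ D) := by
    calc volume A ≤ volume ((A ∩ D) ∪ Dᶜ) := by
          refine measure_mono ?_
          intro x hx
          by_cases h : x ∈ D
          · exact Or.inl ⟨hx, h⟩
          · exact Or.inr h
      _ ≤ volume (A ∩ D) + volume Dᶜ := measure_union_le _ _
      _ = volume (A ∩ D) := by rw [hDn, add_zero]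
  have h2 : ∫⁻ x in A ∩ D, ENNReal.ofReal |(fderiv ℝ φ x).det| = volume (φ '' (A ∩ D)) := by
    refine lintegral_abs_det_fderiv_eq_addHaar_image volume (hA.inter hD) ?_ ?_
    · intro x hx
      have hx2 : x ∈ {z | DifferentiableAt ℝ φ z} := hDdef ▸ hx.2
      have hx3 : DifferentiableAt ℝ φ x := hx2
      exact hx3.hasFDerivAt.hasFDerivWithinAt
    · exact φ.injective.injOn
  have h3 : ∫⁻ x in A ∩ D, ENNReal.ofReal |(fderiv ℝ φ x).det| = volume (A ∩ D) := by
    have h4 : ∫⁻ x in A ∩ D, ENNReal.ofReal |(fderiv ℝ φ x).det| = ∫⁻ _ in A ∩ D, 1 := by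
      refine setLIntegral_congr_fun (hA.inter hD) ?_
      intro x hx
      have hx2 : x ∈ {z | DifferentiableAt ℝ φ z} := hDdef ▸ hx.2
      have hx3 : DifferentiableAt ℝ φ x := hx2
      beta_reduce
      rw [hdet x _ hx3.hasFDerivAt, ENNReal.ofReal_one]
    rw [h4, setLIntegral_one]
  calc volume A ≤ volume (A ∩ D) := h1
    _ = volume (φ '' (A ∩ D)) := by rw [← h3, h2]
    _ ≤ volume (φ '' A) := measure_mono (Set.image_mono Set.inter_subset_left)


end Pool.Agent.Helper943.VC
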