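import Pool.Agent.Helper943.VCDefs2

set_option autoImplicit false

open MeasureTheory
open scoped ENNReal

namespace Pool.Agent.Helper943.VC

/-- a set where the image measure has density at least t -/
theorem dens_set {n : ℕ} (φ : (Fin n → ℂ) ≃ₜ (Fin n → ℂ)) (K : ℝ≥0∞) (hK : K ≠ ⊤)
    (hφ : ∀ A, MeasurableSet A → volume (φ '' A) ≤ K * volume A)
    (t : ℝ≥0∞) (ht : t ≠ ⊤) (A : Set (Fin n → ℂ)) (hA : MeasurableSet A)
    (hAf : volume A ≠ ⊤) (h : t * volume A < volume (φ '' A)) :
    ∃ E, MeasurableSet E ∧ E ⊆ A ∧ 0 < volume E ∧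
      ∀ B, MeasurableSet B → B ⊆ E → t * volume B ≤ volume (φ '' B) := by
  obtain ⟨μ, hμdef⟩ : ∃ μ : Measure (Fin n → ℂ), μ = Measure.map φ.symm volume := ⟨_, rfl⟩
  have hμ : ∀ B, MeasurableSet B → μ B = volume (φ '' B) := by
    intro B hB
    rw [hμdef, Measure.map_apply φ.symm.continuous.measurable hB]
    congr 1
    ext x
    constructor
    · intro hx
      exact ⟨φ.symm x, hx, φ.apply_symm_apply x⟩
    · rintro ⟨y, hy, rfl⟩
      change φ.symm (φ y) ∈ B
      rw [φ.symm_apply_apply]
      exact hy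
  have hac : μ ≪ (volume : Measure (Fin n → ℂ)) := by
    refine Measure.AbsolutelyContinuous.mk fun B hB hB0 => ?_
    rw [hμ B hB]
    have h1 := hφ B hB
    rw [hB0, mul_zero] at h1
    exact le_antisymm h1 bot_le
  haveI : SFinite μ := by
    rw [hμdef]
    infer_instance
  have hg : Measurable (μ.rnDeriv volume) := Measure.measurable_rnDeriv μ volume
  have hdens : ∀ B, MeasurableSet B →
      μ B = ∫⁻ x in B, μ.rnDeriv volume x ∂(volume : Measure (Fin n → ℂ)) := by
    intro B hB
    have h1 := Measure.withDensity_rnDeriv_eq μ volume hac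
    conv_lhs => rw [← h1]
    rw [withDensity_apply _ hB]
  have hE : MeasurableSet (A ∩ {x | t ≤ μ.rnDeriv volume x}) :=
    hA.inter (measurableSet_le measurable_const hg)
  refine ⟨A ∩ {x | t ≤ μ.rnDeriv volume x}, hE, Set.inter_subset_left, ?_, ?_⟩
  · rw [pos_iff_ne_zero]
    intro hE0
    have h2 : μ A ≤ t * volume A := by
      rw [hdens A hA]
      calc ∫⁻ x in A, μ.rnDeriv volume x ∂(volume : Measure (Fin n → ℂ)) ≤
          ∫⁻ _x in A, t ∂(volume : Measure (Fin n → ℂ)) := by
            refine lintegral_mono_ae ?_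
            rw [ae_restrict_iff' hA]
            have h3 : ∀ᵐ x ∂(volume : Measure (Fin n → ℂ)),
                x ∉ A ∩ {x | t ≤ μ.rnDeriv volume x} := by
              rw [ae_iff]
              simp only [not_not]
              exact hE0
            filter_upwards [h3] with x hx hxA
            by_contra hcon
            exact hx ⟨hxA, (not_le.1 hcon).le⟩
        _ = t * volume A := setLIntegral_const A t
    rw [hμ A hA] at h2
    exact absurd h (not_lt.2 h2)
  · intro B hB hBE
    rw [← hμ B hB, hdens B hB, ← setLIntegral_const B t]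
    exact setLIntegral_mono' hB fun x hx => (hBE hx).2


end Pool.Agent.Helper943.VC
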