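import Pool.Agent.Helper943.VCDefs2

set_option autoImplicit false

open MeasureTheory
open scoped ENNReal

namespace Pool.Agent.Helper943.VC

/-- translates overlap -/
theorem exists_overlap {n : ℕ} (E F : Set (Fin n → ℂ)) (hE : MeasurableSet E)
    (hF : MeasurableSet F) (h1 : 0 < volume E) (h2 : 0 < volume F) :
    ∃ z : Fin n → ℂ, 0 < volume (((fun x => z + x) '' F) ∩ E) := by
  by_contra hcon
  push Not at hcon
  have h0 : ∀ z : Fin n → ℂ, volume (((fun x => z + x) '' F) ∩ E) = 0 :=
    fun z => nonpos_iff_eq_zero.1 (hcon z)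
  let S : Set ((Fin n → ℂ) × (Fin n → ℂ)) := {p | p.2 ∈ E ∧ p.2 - p.1 ∈ F}
  have hS : MeasurableSet S :=
    (measurable_snd hE).inter ((measurable_snd.sub measurable_fst) hF)
  have e1 : ((volume : Measure (Fin n → ℂ)).prod (volume : Measure (Fin n → ℂ))) S = 0 := by
    rw [Measure.prod_apply hS]
    have : ∀ z : Fin n → ℂ, volume (Prod.mk z ⁻¹' S) = 0 := by
      intro z
      rw [← h0 z]
      congr 1
      ext x
      simp only [S, Set.mem_preimage, Set.mem_ofPred_eq, Set.mem_inter_iff, Set.mem_image]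
      constructor
      · rintro ⟨ha, hb⟩
        exact ⟨⟨x - z, hb, by abel⟩, ha⟩
      · rintro ⟨⟨y, hy, rfl⟩, ha⟩
        exact ⟨ha, by simpa using hy⟩
    simp [this]
  rw [Measure.prod_apply_symm hS] at e1
  have e2 : ∀ x ∈ E, volume ((fun z => (z, x)) ⁻¹' S) = volume F := by
    intro x hx
    have : ((fun z => (z, x)) ⁻¹' S) = (fun z => x - z) ⁻¹' F := by
      ext z; simp [S, hx]
    rw [this]
    exact (Measure.measurePreserving_sub_left volume x).measure_preimage hF.nullMeasurableSet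
  have e3 : ∫⁻ x in E, volume ((fun z => (z, x)) ⁻¹' S) = volume F * volume E := by
    rw [setLIntegral_congr_fun hE e2]
    simp
  have e4 : ∫⁻ x in E, volume ((fun z => (z, x)) ⁻¹' S) ≤ 0 := by
    rw [← e1]
    exact setLIntegral_le_lintegral _ _
  rw [e3] at e4
  exact absurd (nonpos_iff_eq_zero.1 e4) (mul_ne_zero h2.ne' h1.ne')


end Pool.Agent.Helper943.VC
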