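import Pool.Agent.Helper943.VCDefs2

set_option autoImplicit false

open MeasureTheory
open scoped ENNReal

namespace Pool.Agent.Helper943.VC

theorem group_trick_step {n : ℕ}
    (hdens : ∀ (φ : (Fin n → ℂ) ≃ₜ (Fin n → ℂ)) (K : ℝ≥0∞), K ≠ ⊤ →
      (∀ A, MeasurableSet A → volume (φ '' A) ≤ K * volume A) →
      ∀ (t : ℝ≥0∞), t ≠ ⊤ → ∀ (A : Set (Fin n → ℂ)), MeasurableSet A →
      volume A ≠ ⊤ → t * volume A < volume (φ '' A) →
      ∃ E, MeasurableSet E ∧ E ⊆ A ∧ 0 < volume E ∧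
        ∀ B, MeasurableSet B → B ⊆ E → t * volume B ≤ volume (φ '' B))
    (hover : ∀ (E F : Set (Fin n → ℂ)), MeasurableSet E → MeasurableSet F → 0 < volume E →
      0 < volume F → ∃ z : Fin n → ℂ, 0 < volume (((fun x => z + x) '' F) ∩ E))
    (G : Set ((Fin n → ℂ) ≃ₜ (Fin n → ℂ)))
    (htr : ∀ z : Fin n → ℂ, Homeomorph.addLeft z ∈ G)
    (hcomp : ∀ φ ∈ G, ∀ ψ ∈ G, φ.trans ψ ∈ G)
    (c : ℝ≥0∞) (hc : c ≠ ⊤)
    (h : ∀ φ ∈ G, ∀ A, MeasurableSet A → volume (φ '' A) ≤ c * volume A)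
    (t : ℝ≥0∞) (ht : t ≠ ⊤) (hct : c < t * t) :
    ∀ φ ∈ G, ∀ A, MeasurableSet A → volume (φ '' A) ≤ t * volume A := by
  intro φ hφ A hA
  by_contra hcon
  rw [not_le] at hcon
  have ht0 : t ≠ 0 := by
    rintro rfl
    rw [mul_zero] at hct
    exact not_lt_zero hct
  have hAtop : volume A ≠ ⊤ := by
    intro hAt
    rw [hAt, ENNReal.mul_top ht0] at hcon
    exact not_top_lt hcon
  obtain ⟨E, hE, hEA, hE0, hEB⟩ := hdens φ c hc (h φ hφ) t ht A hA hAtop hcon
  have hFm : MeasurableSet (φ '' E) := φ.measurableEmbedding.measurableSet_image.mpr hE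
  have hF0 : 0 < volume (φ '' E) :=
    lt_of_lt_of_le (ENNReal.mul_pos ht0 hE0.ne') (hEB E hE subset_rfl)
  obtain ⟨z, hz⟩ := hover E (φ '' E) hE hFm hE0 hF0
  set B : Set (Fin n → ℂ) := ((fun x => z + x) '' (φ '' E)) ∩ E with hB
  have hBm : MeasurableSet B := by
    refine MeasurableSet.inter ?_ hE
    exact (Homeomorph.addLeft z).measurableEmbedding.measurableSet_image.mpr hFm
  set E1 : Set (Fin n → ℂ) := {x | x ∈ E ∧ z + φ x ∈ E} with hE1
  have hE1m : MeasurableSet E1 := by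
    refine MeasurableSet.inter hE ?_
    exact ((measurable_const.add φ.continuous.measurable) hE)
  have hBE1 : (fun x => z + x) '' (φ '' E1) = B := by
    ext y
    constructor
    · rintro ⟨_, ⟨x, ⟨hx1, hx2⟩, rfl⟩, rfl⟩
      exact ⟨⟨φ x, ⟨x, hx1, rfl⟩, rfl⟩, hx2⟩
    · rintro ⟨⟨_, ⟨x, hx1, rfl⟩, rfl⟩, hy⟩
      exact ⟨φ x, ⟨x, ⟨hx1, hy⟩, rfl⟩, rfl⟩
  have hvB : volume B = volume (φ '' E1) := by
    rw [← hBE1, Set.image_add_left, measure_preimage_add]
  have hE1E : E1 ⊆ E := fun x hx => hx.1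
  have h1 : t * volume E1 ≤ volume B := by rw [hvB]; exact hEB E1 hE1m hE1E
  have h2 : t * volume B ≤ volume (φ '' B) := hEB B hBm Set.inter_subset_right
  have hE10 : volume E1 ≠ 0 := by
    intro h0
    have h3 := h φ hφ E1 hE1m
    rw [h0, mul_zero, ← hvB] at h3
    exact absurd (lt_of_lt_of_le hz h3) (lt_irrefl _)
  have hE1t : volume E1 ≠ ⊤ :=
    ((measure_mono (hE1E.trans hEA)).trans_lt (lt_top_iff_ne_top.mpr hAtop)).ne
  have hψ : (φ.trans (Homeomorph.addLeft z)).trans φ ∈ G := hcomp _ (hcomp _ hφ _ (htr z)) _ hφ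
  have h4 := h _ hψ E1 hE1m
  have h5 : ((φ.trans (Homeomorph.addLeft z)).trans φ) '' E1 = φ '' B := by
    rw [← hBE1, Set.image_image, Set.image_image]
    rfl
  rw [h5] at h4
  have h6 : t * t * volume E1 ≤ c * volume E1 := by
    calc t * t * volume E1 = t * (t * volume E1) := mul_assoc _ _ _
      _ ≤ t * volume B := by gcongr
      _ ≤ volume (φ '' B) := h2
      _ ≤ c * volume E1 := h4
  have h7 : c * volume E1 < t * t * volume E1 := ENNReal.mul_lt_mul_left hE10 hE1t hct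
  exact absurd (lt_of_lt_of_le h7 h6) (lt_irrefl _)

/-- In a group of homeomorphisms containing the translations a uniform bound for the volume
distortion is a bound by 1. -/
theorem group_trick {n : ℕ}
    (hdens : ∀ (φ : (Fin n → ℂ) ≃ₜ (Fin n → ℂ)) (K : ℝ≥0∞), K ≠ ⊤ →
      (∀ A, MeasurableSet A → volume (φ '' A) ≤ K * volume A) →
      ∀ (t : ℝ≥0∞), t ≠ ⊤ → ∀ (A : Set (Fin n → ℂ)), MeasurableSet A →
      volume A ≠ ⊤ → t * volume A < volume (φ '' A) →
      ∃ E, MeasurableSet E ∧ E ⊆ A ∧ 0 < volume E ∧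
        ∀ B, MeasurableSet B → B ⊆ E → t * volume B ≤ volume (φ '' B))
    (hover : ∀ (E F : Set (Fin n → ℂ)), MeasurableSet E → MeasurableSet F → 0 < volume E →
      0 < volume F → ∃ z : Fin n → ℂ, 0 < volume (((fun x => z + x) '' F) ∩ E))
    (G : Set ((Fin n → ℂ) ≃ₜ (Fin n → ℂ)))
    (htr : ∀ z : Fin n → ℂ, Homeomorph.addLeft z ∈ G)
    (hcomp : ∀ φ ∈ G, ∀ ψ ∈ G, φ.trans ψ ∈ G) (hinv : ∀ φ ∈ G, φ.symm ∈ G)
    (K : ℝ≥0∞) (hK : K ≠ ⊤)
    (h : ∀ φ ∈ G, ∀ A, MeasurableSet A → volume (φ '' A) ≤ K * volume A) :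
    ∀ φ ∈ G, ∀ A, MeasurableSet A → volume (φ '' A) = volume A := by
  -- iterate
  set c0 : ℝ := max K.toReal 2 with hc0
  have hc01 : 1 < c0 := lt_of_lt_of_le (by norm_num) (le_max_right _ _)
  have hc00 : 0 < c0 := by linarith
  have hit : ∀ m : ℕ, ∀ φ ∈ G, ∀ A, MeasurableSet A →
      volume (φ '' A) ≤ ENNReal.ofReal (c0 ^ (((3:ℝ) / 4) ^ m)) * volume A := by
    intro m
    induction m with
    | zero =>
      intro φ hφ A hA
      rw [pow_zero, Real.rpow_one]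
      refine le_trans (h φ hφ A hA) ?_
      gcongr
      rw [← ENNReal.ofReal_toReal hK]
      exact ENNReal.ofReal_le_ofReal (le_max_left _ _)
    | succ m ih =>
      refine group_trick_step hdens hover G htr hcomp _ ENNReal.ofReal_ne_top ih _
        ENNReal.ofReal_ne_top ?_
      rw [← ENNReal.ofReal_mul (Real.rpow_nonneg hc00.le _), ← Real.rpow_add hc00]
      refine (ENNReal.ofReal_lt_ofReal_iff (Real.rpow_pos_of_pos hc00 _)).mpr ?_
      refine Real.rpow_lt_rpow_of_exponent_lt hc01 ?_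
      rw [pow_succ]
      have : (0:ℝ) < (3 / 4) ^ m := by positivity
      linarith
  have hle : ∀ φ ∈ G, ∀ A, MeasurableSet A → volume (φ '' A) ≤ volume A := by
    intro φ hφ A hA
    by_cases hAt : volume A = ⊤
    · rw [hAt]; exact le_top
    have hlim : Filter.Tendsto (fun m : ℕ => ENNReal.ofReal (c0 ^ (((3:ℝ) / 4) ^ m)) * volume A)
        Filter.atTop (nhds (1 * volume A)) := by
      refine ENNReal.Tendsto.mul_const ?_ (Or.inr hAt)
      have h1 : Filter.Tendsto (fun m : ℕ => ((3:ℝ) / 4) ^ m) Filter.atTop (nhds 0) :=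
        tendsto_pow_atTop_nhds_zero_of_lt_one (by norm_num) (by norm_num)
      have h2 : Filter.Tendsto (fun m : ℕ => c0 ^ (((3:ℝ) / 4) ^ m)) Filter.atTop (nhds (c0 ^ (0:ℝ))) :=
        ((Real.continuous_const_rpow hc00.ne').tendsto 0).comp h1
      rw [Real.rpow_zero] at h2
      have h3 := ENNReal.tendsto_ofReal h2
      rwa [ENNReal.ofReal_one] at h3
    rw [one_mul] at hlim
    exact ge_of_tendsto' hlim (fun m => hit m φ hφ A hA)
  intro φ hφ A hA
  refine le_antisymm (hle φ hφ A hA) ?_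
  have hm : MeasurableSet (φ '' A) := φ.measurableEmbedding.measurableSet_image.mpr hA
  have h1 := hle φ.symm (hinv φ hφ) (φ '' A) hm
  have h2 : φ.symm '' (φ '' A) = A := by
    rw [Set.image_image]
    simp
  rwa [h2] at h1


end Pool.Agent.Helper943.VC
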