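import Pool.Agent.Helper943.VCDefs2

set_option autoImplicit false

open MeasureTheory
open scoped ENNReal

namespace Pool.Agent.Helper943.VC

/-- capacity bound with a constant gives a volume bound with a constant -/
theorem cap_vol_const {n : ℕ} (hn : 1 ≤ n) (c : Set (Fin n → ℂ) → ℝ≥0∞) (K : ℝ≥0∞) (hK : K ≠ ⊤)
    (hv : ∀ U, IsOpen U → Bornology.IsBounded U → c U ^ n ≤ K * volume (closure U))
    (hfin : volume (eball n 1) < ⊤) (hpos : 0 < volume (eball n 1))
    (hsc : ∀ r : ℝ, 0 < r → volume (eball n r) = ENNReal.ofReal (r ^ (2 * n)) * volume (eball n 1)) :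
    ∃ K' : ℝ≥0∞, K' ≠ ⊤ ∧ ∀ (W : Set (Fin n → ℂ)), IsOpen W → Bornology.IsBounded W →
      ∀ r : ℝ, 0 < r → ENNReal.ofReal (Real.pi * r ^ 2) ≤ c W →
        volume (eball n r) ≤ K' * volume (closure W) := by
  have hpi0 : ENNReal.ofReal Real.pi ^ n ≠ 0 :=
    pow_ne_zero n (ENNReal.ofReal_pos.2 Real.pi_pos).ne'
  have hpit : ENNReal.ofReal Real.pi ^ n ≠ ⊤ := ENNReal.pow_ne_top ENNReal.ofReal_ne_top
  refine ⟨K * volume (eball n 1) / ENNReal.ofReal Real.pi ^ n,
    ENNReal.div_ne_top (ENNReal.mul_ne_top hK hfin.ne) hpi0, ?_⟩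
  intro W hW hWb r hr hcr
  have h1 : ENNReal.ofReal (Real.pi * r ^ 2) ^ n ≤ K * volume (closure W) :=
    (pow_le_pow_left₀ (zero_le) hcr n).trans (hv W hW hWb)
  have h2 : ENNReal.ofReal (Real.pi * r ^ 2) ^ n =
      ENNReal.ofReal Real.pi ^ n * ENNReal.ofReal (r ^ (2 * n)) := by
    rw [ENNReal.ofReal_mul Real.pi_pos.le, mul_pow, pow_mul,
      ENNReal.ofReal_pow (sq_nonneg r)]
  rw [h2] at h1
  have h3 : K * volume (eball n 1) / ENNReal.ofReal Real.pi ^ n * volume (closure W) =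
      (K * volume (closure W) * volume (eball n 1)) / ENNReal.ofReal Real.pi ^ n := by
    rw [div_eq_mul_inv, div_eq_mul_inv]
    ring
  rw [h3, ENNReal.le_div_iff_mul_le (Or.inl hpi0) (Or.inl hpit), hsc r hr]
  have h4 := mul_le_mul' h1 (le_refl (volume (eball n 1)))
  refine le_trans (le_of_eq ?_) h4
  ring

/-- a measurable version from open sets -/
theorem inv_bound {n : ℕ} (φ : (Fin n → ℂ) ≃ₜ (Fin n → ℂ)) (K : ℝ≥0∞) (hK : K ≠ ⊤)
    (h : ∀ W, IsOpen W → volume W ≤ K * volume (φ.symm '' W)) :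
    ∀ A, MeasurableSet A → volume (φ '' A) ≤ K * volume A := by
  intro A _
  by_contra hlt
  rw [not_le] at hlt
  by_cases hK0 : K = 0
  · have h1 := h Set.univ isOpen_univ
    rw [hK0, zero_mul] at h1
    have h2 : volume (φ '' A) ≤ 0 := (measure_mono (Set.subset_univ _)).trans h1
    exact absurd (lt_of_lt_of_le hlt h2) (not_lt.2 (zero_le))
  · have h1 : volume A < volume (φ '' A) / K := by
      rw [ENNReal.lt_div_iff_mul_lt (Or.inl hK0) (Or.inl hK), mul_comm]
      exact hlt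
    obtain ⟨U, hAU, hU, hUlt⟩ := Set.exists_isOpen_lt_of_lt A _ h1
    rw [ENNReal.lt_div_iff_mul_lt (Or.inl hK0) (Or.inl hK), mul_comm] at hUlt
    have h2 := h (φ '' U) (φ.isOpenMap U hU)
    have h3 : φ.symm '' (φ '' U) = U := φ.toEquiv.symm_image_image U
    rw [h3] at h2
    have h4 : volume (φ '' A) ≤ volume (φ '' U) := measure_mono (Set.image_mono hAU)
    exact absurd (lt_of_le_of_lt (h4.trans h2) hUlt) (lt_irrefl _)


end Pool.Agent.Helper943.VC
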