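import Pool.Agent.Helper943.VCGrp
import Pool.Agent.Helper943.VCN1
import Pool.Agent.Helper943.VCN2
import Pool.Agent.Helper943.VCN3
import Pool.Agent.Helper943.VCN5
import Pool.Agent.Helper943.VCM9
import Pool.Agent.Helper943.VCM10

set_option autoImplicit false

open MeasureTheory
open scoped ENNReal

namespace Pool.Agent.Helper943.VC

/-- a uniform lower bound for the volume of images of small balls, over a group of homeomorphisms
containing the translations, forces volume preservation -/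
theorem group_main {n : ℕ} (hn : 1 ≤ n) (G : Set ((Fin n → ℂ) ≃ₜ (Fin n → ℂ)))
    (htr : ∀ z : Fin n → ℂ, Homeomorph.addLeft z ∈ G)
    (hcomp : ∀ φ ∈ G, ∀ ψ ∈ G, φ.trans ψ ∈ G) (hinv : ∀ φ ∈ G, φ.symm ∈ G)
    (K : ℝ≥0∞) (hK : K ≠ ⊤)
    (H : ∀ φ ∈ G, ∀ p, ∃ U, IsOpen U ∧ p ∈ U ∧ ∀ z : Fin n → ℂ, ∀ r : ℝ, 0 < r →
      ((fun x => z + x) '' eball n r) ⊆ U →
        volume (eball n r) ≤ K * volume (φ '' (closure ((fun x => z + x) '' eball n r)))) :
    ∀ φ ∈ G, ∀ A, MeasurableSet A → volume (φ '' A) = volume A := by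
  apply group_trick (fun φ K => dens_set φ K) (fun E F => exists_overlap E F) G htr hcomp hinv K hK
  intro φ hφ
  apply inv_bound φ K hK
  apply vitali_const hn φ.symm K (eball_fin n) (eball_pos n) (fun r hr => eball_vol n r hr)
    (fun r => eball_open n r)
  exact H φ.symm (hinv φ hφ)

theorem coarse_odd {n : ℕ} (hn : 1 ≤ n) (c : Set (Fin n → ℂ) → ℝ≥0∞) (hc : IsCapacity n c)
    (K : ℝ≥0∞) (hK : K ≠ ⊤)
    (hv : ∀ U, IsOpen U → Bornology.IsBounded U → c U ^ n ≤ K * volume (closure U))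
    (φ : (Fin n → ℂ) ≃ₜ (Fin n → ℂ)) (hφ : LocPres c φ) :
    ∀ A, MeasurableSet A → volume (φ '' A) = volume A := by
  obtain ⟨K', hK', hW⟩ := cap_vol_const hn c K hK hv (eball_fin n) (eball_pos n)
    (fun r hr => eball_vol n r hr)
  apply group_main hn {ψ | LocPres c ψ} (fun z => locPres_transl c hc z)
    (fun φ hφ ψ hψ => locPres_trans c φ ψ hφ hψ) (fun φ hφ => locPres_symm c φ hφ) K' hK' ?_ φ hφ
  intro ψ hψ p
  obtain ⟨U, hU, hp, h⟩ := hψ p
  refine ⟨U, hU, hp, ?_⟩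
  intro z r hr hsub
  have ho : IsOpen ((fun x => z + x) '' eball n r) := transl_open z _ (eball_open n r)
  rw [ψ.image_closure]
  apply hW _ (ψ.isOpenMap _ ho) ?_ r hr
  · rw [h _ ho hsub]
    exact cap_ball c hc (fun r => eball_open n r) (fun r hr => eball_smul n r hr)
      (fun z U => transl_emb z U) (fun z U hU => transl_open z U hU) z r hr
  · have hcpt : IsCompact (closure ((fun x => z + x) '' eball n r)) :=
      (ball_bdd z r hr).isCompact_closure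
    exact (hcpt.image ψ.continuous).isBounded.subset (Set.image_mono subset_closure)

theorem coarse_any (c : ∀ m : ℕ, Set (Fin m → ℂ) → ℝ≥0∞)
    (hc : ∀ m, 1 ≤ m → IsCapacity m (c m))
    (hK : ∀ m, Odd m → ∃ K : ℝ≥0∞, K ≠ ⊤ ∧
      ∀ U, IsOpen U → Bornology.IsBounded U → c m U ^ m ≤ K * volume (closure U))
    {n : ℕ} (hn : 1 ≤ n) (φ : (Fin n → ℂ) ≃ₜ (Fin n → ℂ)) (hφ : IsCSympHomeo c n φ) :
    ∀ A, MeasurableSet A → volume (φ '' A) = volume A := by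
  rcases Nat.even_or_odd n with he | ho
  · have ho' : Odd (n + 1) := he.add_one
    obtain ⟨Φ, hΦ⟩ := prodId_homeo φ
    obtain ⟨K, hKt, hv⟩ := hK _ ho'
    apply prodId_vol φ
    rw [← hΦ]
    apply coarse_odd (by omega) (c (n + 1)) (hc _ (by omega)) K hKt hv Φ
    rw [hΦ]
    exact hφ.2 he
  · obtain ⟨K, hKt, hv⟩ := hK _ ho
    exact coarse_odd hn (c n) (hc n hn) K hKt hv φ (hφ.1 ho)

theorem distortion (c : ∀ m : ℕ, Set (Fin m → ℂ) → ℝ≥0∞)
    (hc : ∀ m, 1 ≤ m → IsCapacity m (c m)) {n : ℕ} (hn : 1 ≤ n) (K : ℝ≥0∞) (hK : K ≠ ⊤)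
    (H : ∀ φ : (Fin n → ℂ) ≃ₜ (Fin n → ℂ), IsCSympHomeo c n φ →
      ∀ p, ∃ U, IsOpen U ∧ p ∈ U ∧ ∀ z : Fin n → ℂ, ∀ r : ℝ, 0 < r →
      ((fun x => z + x) '' eball n r) ⊆ U →
        volume (eball n r) ≤ K * volume (φ '' ((fun x => z + x) '' eball n r))) :
    ∀ φ : (Fin n → ℂ) ≃ₜ (Fin n → ℂ), IsCSympHomeo c n φ →
      ∀ A, MeasurableSet A → volume (φ '' A) = volume A := by
  intro φ hφ
  apply group_main hn {ψ | IsCSympHomeo c n ψ} (fun z => csymp_transl c hc hn z)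
    (fun φ hφ ψ hψ => csymp_trans c φ ψ hφ hψ) (fun φ hφ => csymp_symm c φ hφ) K hK ?_ φ hφ
  intro ψ hψ p
  obtain ⟨U, hU, hp, h⟩ := H ψ hψ p
  refine ⟨U, hU, hp, ?_⟩
  intro z r hr hsub
  refine (h z r hr hsub).trans ?_
  gcongr
  exact subset_closure

theorem ae_diff_vol (c : ∀ m : ℕ, Set (Fin m → ℂ) → ℝ≥0∞)
    (hc : ∀ m, 1 ≤ m → IsCapacity m (c m)) {n : ℕ} (hn : 1 ≤ n)
    (φ : (Fin n → ℂ) ≃ₜ (Fin n → ℂ)) (hφ : IsCSympHomeo c n φ)
    (h1 : ∀ᵐ z : Fin n → ℂ, DifferentiableAt ℝ φ z)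
    (h2 : ∀ᵐ z : Fin n → ℂ, DifferentiableAt ℝ φ.symm z) :
    ∀ A, MeasurableSet A → volume (φ '' A) = volume A := by
  intro A hA
  apply le_antisymm
  · have h3 := vol_ge_of_det φ.symm h2
      (fun z L hL => deriv_det_any c hc hn φ.symm (csymp_symm c φ hφ) z L hL) (φ '' A)
      (φ.toMeasurableEquiv.measurableSet_image.2 hA)
    rwa [← Set.image_comp, φ.symm_comp_self, Set.image_id] at h3
  · exact vol_ge_of_det φ h1 (fun z L hL => deriv_det_any c hc hn φ hφ z L hL) A hA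

end Pool.Agent.Helper943.VC
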