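import Pool.Agent.Helper943.VCL1

set_option autoImplicit false

open MeasureTheory
open scoped ENNReal

namespace Pool.Agent.Helper943.VC

/-- Vitali covering argument -/
theorem vitali_const {n : ℕ} (hn : 1 ≤ n) (φ : (Fin n → ℂ) ≃ₜ (Fin n → ℂ)) (K : ℝ≥0∞)
    (hfin : volume (eball n 1) < ⊤) (hpos : 0 < volume (eball n 1))
    (hsc : ∀ r : ℝ, 0 < r → volume (eball n r) = ENNReal.ofReal (r ^ (2 * n)) * volume (eball n 1))
    (hop : ∀ r : ℝ, IsOpen (eball n r))
    (H : ∀ p, ∃ U, IsOpen U ∧ p ∈ U ∧ ∀ z : Fin n → ℂ, ∀ r : ℝ, 0 < r →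
      ((fun x => z + x) '' eball n r) ⊆ U →
        volume (eball n r) ≤ K * volume (φ '' (closure ((fun x => z + x) '' eball n r)))) :
    ∀ W, IsOpen W → volume W ≤ K * volume (φ '' W) := by
  intro W hW
  choose U hU1 hU2 hU3 using H
  set B : ((Fin n → ℂ) × ℝ) → Set (Fin n → ℂ) :=
    fun a => {x | ∑ j, ‖x j - a.1 j‖ ^ 2 ≤ a.2 ^ 2} with hB
  set t : Set ((Fin n → ℂ) × ℝ) := {a | a.1 ∈ W ∧ 0 < a.2 ∧ B a ⊆ W ∩ U a.1} with ht
  have hsubE : ∀ a : (Fin n → ℂ) × ℝ, (fun x => a.1 + x) '' eball n a.2 ⊆ B a := by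
    intro a
    rw [vs_tr]
    intro x hx
    have hx' : ∑ j, ‖x j - a.1 j‖ ^ 2 < a.2 ^ 2 := hx
    exact hx'.le
  have hn' : (1:ℝ) ≤ n := by exact_mod_cast hn
  obtain ⟨u, hut, huc, hud, huW⟩ := Vitali.exists_disjoint_covering_ae
    (volume : Measure (Fin n → ℂ)) W t (Real.toNNReal ((4 * n) ^ (2 * n))) (fun a => a.2)
    (fun a => a.1) B
    (fun a ha => vs_sub a.1 a.2 ha.2.1.le)
    (by
      intro a ha
      have hr : 0 < a.2 := ha.2.1
      have h4 : 0 < 4 * n * a.2 := by positivity
      calc volume (Metric.closedBall a.1 (3 * a.2))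
          ≤ volume ((fun x => a.1 + x) '' eball n (4 * n * a.2)) := by
            apply measure_mono
            rw [vs_tr]
            intro x hx
            rw [Metric.mem_closedBall, dist_pi_le_iff (by positivity)] at hx
            show ∑ j, ‖x j - a.1 j‖ ^ 2 < (4 * n * a.2) ^ 2
            calc ∑ j, ‖x j - a.1 j‖ ^ 2 ≤ ∑ j : Fin n, (3 * a.2) ^ 2 := by
                  apply Finset.sum_le_sum
                  intro j _
                  have := hx j
                  rw [dist_eq_norm] at this
                  exact pow_le_pow_left₀ (norm_nonneg _) this 2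
              _ = n * (3 * a.2) ^ 2 := by simp
              _ < (4 * n * a.2) ^ 2 := by
                  have h1 : (n:ℝ) * (3 * a.2) ^ 2 ≤ n ^ 2 * (3 * a.2) ^ 2 := by
                    apply mul_le_mul_of_nonneg_right _ (by positivity)
                    nlinarith
                  have h2 : (n:ℝ) ^ 2 * (3 * a.2) ^ 2 < (4 * n * a.2) ^ 2 := by
                    have : 0 < (n:ℝ) ^ 2 * a.2 ^ 2 := by positivity
                    nlinarith
                  linarith
        _ = volume (eball n (4 * n * a.2)) := vs_vol _ _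
        _ = ENNReal.ofReal ((4 * n * a.2) ^ (2 * n)) * volume (eball n 1) := hsc _ h4
        _ = ENNReal.ofReal ((4 * n) ^ (2 * n)) * (ENNReal.ofReal (a.2 ^ (2 * n)) * volume (eball n 1)) := by
            rw [← mul_assoc, ← ENNReal.ofReal_mul (by positivity), ← mul_pow]
        _ = ENNReal.ofReal ((4 * n) ^ (2 * n)) * volume ((fun x => a.1 + x) '' eball n a.2) := by
            rw [← hsc a.2 hr, vs_vol]
        _ ≤ _ := by
            apply mul_le_mul_right
            exact measure_mono (hsubE a))
    (by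
      intro a ha
      refine ⟨a.1, ?_⟩
      rw [mem_interior]
      refine ⟨(fun x => a.1 + x) '' eball n a.2, hsubE a, ?_, ?_⟩
      · exact (Homeomorph.addLeft a.1).isOpenMap _ (hop _)
      · rw [vs_tr]
        have hr : 0 < a.2 := ha.2.1
        simp only [Set.mem_setOf_eq, sub_self, norm_zero]
        simp
        positivity)
    (fun a _ => vs_closed a.1 a.2)
    (by
      intro x hx ε hε
      have hopn : IsOpen (W ∩ U x) := hW.inter (hU1 x)
      obtain ⟨ρ, hρ, hρ2⟩ := Metric.nhds_basis_closedBall.mem_iff.1 (hopn.mem_nhds ⟨hx, hU2 x⟩)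
      refine ⟨(x, min ε ρ), ⟨hx, lt_min hε hρ, ?_⟩, min_le_left _ _, rfl⟩
      refine (vs_sub x (min ε ρ) (lt_min hε hρ).le).trans ?_
      exact (Metric.closedBall_subset_closedBall (min_le_right _ _)).trans hρ2)
  calc volume W ≤ volume ((W \ ⋃ a ∈ u, B a) ∪ ⋃ a ∈ u, B a) := by
        apply measure_mono
        intro x hx
        by_cases h : x ∈ ⋃ a ∈ u, B a
        · exact Or.inr h
        · exact Or.inl ⟨hx, h⟩
    _ ≤ volume (W \ ⋃ a ∈ u, B a) + volume (⋃ a ∈ u, B a) := measure_union_le _ _
    _ = volume (⋃ a ∈ u, B a) := by rw [huW, zero_add]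
    _ ≤ ∑' a : u, volume (B a) := measure_biUnion_le _ huc _
    _ ≤ ∑' a : u, K * volume (φ '' (B a)) := by
        apply ENNReal.tsum_le_tsum
        intro a
        have ha := hut a.2
        refine (vs_cvol hfin hsc a.1.1 a.1.2 ha.2.1).trans ?_
        refine (hU3 a.1.1 a.1.1 a.1.2 ha.2.1
          ((hsubE a).trans (ha.2.2.trans Set.inter_subset_right))).trans ?_
        gcongr
        exact closure_minimal (hsubE a) (vs_closed a.1.1 a.1.2)
    _ = K * volume (⋃ a ∈ u, φ '' (B a)) := by
        rw [ENNReal.tsum_mul_left, measure_biUnion huc]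
        · intro a ha b hb hab
          have := hud ha hb hab
          rw [Function.onFun, Set.disjoint_image_iff φ.injective]
          exact this
        · intro a ha
          apply IsClosed.measurableSet
          exact φ.isClosedMap _ (vs_closed a.1 a.2)
    _ ≤ K * volume (φ '' W) := by
        gcongr
        apply Set.iUnion₂_subset
        intro a ha
        apply Set.image_mono
        exact (hut ha).2.2.trans Set.inter_subset_left

end Pool.Agent.Helper943.VC
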