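import Pool.Agent.Helper943.VCAsm
import Pool.Agent.Helper943.VCVit

set_option autoImplicit false

open MeasureTheory
open scoped ENNReal

namespace Pool.Agent.Helper943.VC

theorem locPres_trans {n : ℕ} (c : Set (Fin n → ℂ) → ℝ≥0∞) (φ ψ : (Fin n → ℂ) ≃ₜ (Fin n → ℂ))
    (hφ : LocPres c φ) (hψ : LocPres c ψ) : LocPres c (φ.trans ψ) := by
  intro p
  obtain ⟨U1, h1, hp1, H1⟩ := hφ p
  obtain ⟨U2, h2, hp2, H2⟩ := hψ (φ p)
  refine ⟨U1 ∩ φ ⁻¹' U2, h1.inter (h2.preimage φ.continuous), ⟨hp1, hp2⟩, ?_⟩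
  intro V hV hVU
  have e : (φ.trans ψ) '' V = ψ '' (φ '' V) := by
    rw [← Set.image_comp]; rfl
  rw [e, H2 _ (φ.isOpenMap _ hV), H1 V hV (hVU.trans Set.inter_subset_left)]
  rintro _ ⟨v, hv, rfl⟩
  exact (hVU hv).2

theorem locPres_transl {n : ℕ} (c : Set (Fin n → ℂ) → ℝ≥0∞) (hc : IsCapacity n c)
    (z : Fin n → ℂ) : LocPres c (Homeomorph.addLeft z : (Fin n → ℂ) ≃ₜ (Fin n → ℂ)) := by
  intro p
  refine ⟨Set.univ, isOpen_univ, trivial, ?_⟩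
  intro V hV _
  exact cap_transl c hc z V hV

theorem csymp_trans (c : ∀ m : ℕ, Set (Fin m → ℂ) → ℝ≥0∞) {n : ℕ}
    (φ ψ : (Fin n → ℂ) ≃ₜ (Fin n → ℂ)) (hφ : IsCSympHomeo c n φ) (hψ : IsCSympHomeo c n ψ) :
    IsCSympHomeo c n (φ.trans ψ) := by
  refine ⟨fun ho => locPres_trans _ φ ψ (hφ.1 ho) (hψ.1 ho), fun he => ?_⟩
  obtain ⟨Φ, hΦ⟩ := prodId_homeo φ
  obtain ⟨Ψ, hΨ⟩ := prodId_homeo ψ
  have h1 : LocPres (c (n + 1)) (Φ.trans Ψ) := by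
    apply locPres_trans
    · rw [hΦ]; exact hφ.2 he
    · rw [hΨ]; exact hψ.2 he
  have h2 : (Φ.trans Ψ : (Fin (n + 1) → ℂ) → (Fin (n + 1) → ℂ)) = prodId (φ.trans ψ) := by
    funext z
    rw [Homeomorph.trans_apply, hΦ, hΨ]
    simp [prodId]
  rw [← h2]
  exact h1

theorem csymp_transl (c : ∀ m : ℕ, Set (Fin m → ℂ) → ℝ≥0∞)
    (hc : ∀ m, 1 ≤ m → IsCapacity m (c m)) {n : ℕ} (hn : 1 ≤ n) (z : Fin n → ℂ) :
    IsCSympHomeo c n (Homeomorph.addLeft z) := by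
  refine ⟨fun _ => locPres_transl _ (hc n hn) z, fun _ => ?_⟩
  have h2 : ((Homeomorph.addLeft (Fin.snoc (α := fun _ => ℂ) z 0 : Fin (n + 1) → ℂ) :
      (Fin (n + 1) → ℂ) ≃ₜ (Fin (n + 1) → ℂ)) : (Fin (n + 1) → ℂ) → (Fin (n + 1) → ℂ))
      = prodId (Homeomorph.addLeft z : (Fin n → ℂ) ≃ₜ (Fin n → ℂ)) := by
    funext x
    funext j
    refine Fin.lastCases ?_ (fun i => ?_) j
    · simp [prodId]
    · simp [prodId, Fin.init]
  rw [← h2]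
  exact locPres_transl _ (hc _ (by omega)) _

theorem ball_bdd {n : ℕ} (z : Fin n → ℂ) (r : ℝ) (hr : 0 < r) :
    Bornology.IsBounded ((fun x => z + x) '' eball n r) := by
  refine (Metric.isBounded_closedBall (x := z) (r := r)).subset ?_
  refine subset_trans ?_ (vs_sub z r hr.le)
  rw [vs_tr]
  intro x hx
  have hx' : ∑ j, ‖x j - z j‖ ^ 2 < r ^ 2 := hx
  exact hx'.le

end Pool.Agent.Helper943.VC
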