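import Pool.Agent.Helper943.VCDefs

set_option autoImplicit false

open MeasureTheory
open scoped ENNReal

namespace Pool.Agent.Helper943.VC

lemma vs_tr {n : ℕ} (z : Fin n → ℂ) (r : ℝ) :
    (fun x => z + x) '' eball n r = {x | ∑ j, ‖x j - z j‖ ^ 2 < r ^ 2} := by
  ext x
  simp only [Set.mem_image, eball, Set.mem_setOf_eq]
  constructor
  · rintro ⟨y, hy, rfl⟩
    simpa using hy
  · intro h
    exact ⟨x - z, by simpa using h, by simp⟩

lemma vs_vol {n : ℕ} (z : Fin n → ℂ) (r : ℝ) :
    volume ((fun x => z + x) '' eball n r) = volume (eball n r) := by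
  rw [Set.image_add_left, measure_preimage_add]

lemma vs_sub {n : ℕ} (z : Fin n → ℂ) (r : ℝ) (hr : 0 ≤ r) :
    {x : Fin n → ℂ | ∑ j, ‖x j - z j‖ ^ 2 ≤ r ^ 2} ⊆ Metric.closedBall z r := by
  intro x hx
  rw [Metric.mem_closedBall, dist_pi_le_iff hr]
  intro j
  rw [dist_eq_norm]
  have h1 : ‖x j - z j‖ ^ 2 ≤ ∑ j, ‖x j - z j‖ ^ 2 :=
    Finset.single_le_sum (f := fun j => ‖x j - z j‖ ^ 2) (fun i _ => by positivity) (Finset.mem_univ j)
  have h2 : ‖x j - z j‖ ^ 2 ≤ r ^ 2 := h1.trans hx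
  exact (pow_le_pow_iff_left₀ (norm_nonneg _) hr (by norm_num)).1 h2

lemma vs_closed {n : ℕ} (z : Fin n → ℂ) (r : ℝ) :
    IsClosed {x : Fin n → ℂ | ∑ j, ‖x j - z j‖ ^ 2 ≤ r ^ 2} :=
  isClosed_le (by fun_prop) continuous_const

lemma vs_cvol {n : ℕ} (hfin : volume (eball n 1) < ⊤)
    (hsc : ∀ r : ℝ, 0 < r → volume (eball n r) = ENNReal.ofReal (r ^ (2 * n)) * volume (eball n 1))
    (z : Fin n → ℂ) (r : ℝ) (hr : 0 < r) :
    volume {x : Fin n → ℂ | ∑ j, ‖x j - z j‖ ^ 2 ≤ r ^ 2} ≤ volume (eball n r) := by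
  rw [hsc r hr]
  have hlim : Filter.Tendsto (fun s : ℝ => ENNReal.ofReal (s ^ (2 * n)) * volume (eball n 1))
      (nhdsWithin r (Set.Ioi r)) (nhds (ENNReal.ofReal (r ^ (2 * n)) * volume (eball n 1))) := by
    apply ENNReal.Tendsto.mul_const _ (Or.inr hfin.ne)
    apply ENNReal.tendsto_ofReal
    exact ((continuous_pow (2 * n)).tendsto r).mono_left nhdsWithin_le_nhds
  apply ge_of_tendsto hlim
  filter_upwards [self_mem_nhdsWithin] with s hs
  have hs' : r < s := hs
  rw [← hsc s (hr.trans hs'), ← vs_vol z s]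
  apply measure_mono
  rw [vs_tr]
  intro x hx
  have hx' : ∑ j, ‖x j - z j‖ ^ 2 ≤ r ^ 2 := hx
  show ∑ j, ‖x j - z j‖ ^ 2 < s ^ 2
  nlinarith

/-- Vitali covering argument -/
theorem vitali_step {n : ℕ} (hn : 1 ≤ n) (φ : (Fin n → ℂ) ≃ₜ (Fin n → ℂ))
    (hfin : volume (eball n 1) < ⊤) (hpos : 0 < volume (eball n 1))
    (hsc : ∀ r : ℝ, 0 < r → volume (eball n r) = ENNReal.ofReal (r ^ (2 * n)) * volume (eball n 1))
    (hop : ∀ r : ℝ, IsOpen (eball n r))
    (H : ∀ p, ∃ U, IsOpen U ∧ p ∈ U ∧ ∀ z : Fin n → ℂ, ∀ r : ℝ, 0 < r →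
      ((fun x => z + x) '' eball n r) ⊆ U →
        volume (eball n r) ≤ volume (φ '' ((fun x => z + x) '' eball n r))) :
    ∀ W, IsOpen W → volume W ≤ volume (φ '' W) := by
  intro W hW
  choose U hU1 hU2 hU3 using H
  set B : ((Fin n → ℂ) × ℝ) → Set (Fin n → ℂ) :=
    fun a => {x | ∑ j, ‖x j - a.1 j‖ ^ 2 ≤ a.2 ^ 2} with hB
  set t : Set ((Fin n → ℂ) × ℝ) := {a | a.1 ∈ W ∧ 0 < a.2 ∧ B a ⊆ W ∩ U a.1} with ht
  have hsubE : ∀ a : (Fin n → ℂ) × ℝ, (fun x => a.1 + x) '' eball n a.2 ⊆ B a := by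
    intro a
    rw [vs_tr]
    intro x hx
    have hx' : ∑ j, ‖x j - a.1 j‖ ^ 2 < a.2 ^ 2 := hx
    exact hx'.le
  have hn' : (1:ℝ) ≤ n := by exact_mod_cast hn
  obtain ⟨u, hut, huc, hud, huW⟩ := Vitali.exists_disjoint_covering_ae
    (volume : Measure (Fin n → ℂ)) W t (Real.toNNReal ((4 * n) ^ (2 * n))) (fun a => a.2)
    (fun a => a.1) B
    (fun a ha => vs_sub a.1 a.2 ha.2.1.le)
    (by
      intro a ha
      have hr : 0 < a.2 := ha.2.1
      have h4 : 0 < 4 * n * a.2 := by positivity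
      calc volume (Metric.closedBall a.1 (3 * a.2))
          ≤ volume ((fun x => a.1 + x) '' eball n (4 * n * a.2)) := by
            apply measure_mono
            rw [vs_tr]
            intro x hx
            rw [Metric.mem_closedBall, dist_pi_le_iff (by positivity)] at hx
            show ∑ j, ‖x j - a.1 j‖ ^ 2 < (4 * n * a.2) ^ 2
            calc ∑ j, ‖x j - a.1 j‖ ^ 2 ≤ ∑ j : Fin n, (3 * a.2) ^ 2 := by
                  apply Finset.sum_le_sum
                  intro j _
                  have := hx j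
                  rw [dist_eq_norm] at this
                  exact pow_le_pow_left₀ (norm_nonneg _) this 2
              _ = n * (3 * a.2) ^ 2 := by simp
              _ < (4 * n * a.2) ^ 2 := by
                  have h1 : (n:ℝ) * (3 * a.2) ^ 2 ≤ n ^ 2 * (3 * a.2) ^ 2 := by
                    apply mul_le_mul_of_nonneg_right _ (by positivity)
                    nlinarith
                  have h2 : (n:ℝ) ^ 2 * (3 * a.2) ^ 2 < (4 * n * a.2) ^ 2 := by
                    have : 0 < (n:ℝ) ^ 2 * a.2 ^ 2 := by positivity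
                    nlinarith
                  linarith
        _ = volume (eball n (4 * n * a.2)) := vs_vol _ _
        _ = ENNReal.ofReal ((4 * n * a.2) ^ (2 * n)) * volume (eball n 1) := hsc _ h4
        _ = ENNReal.ofReal ((4 * n) ^ (2 * n)) * (ENNReal.ofReal (a.2 ^ (2 * n)) * volume (eball n 1)) := by
            rw [← mul_assoc, ← ENNReal.ofReal_mul (by positivity), ← mul_pow]
        _ = ENNReal.ofReal ((4 * n) ^ (2 * n)) * volume ((fun x => a.1 + x) '' eball n a.2) := by
            rw [← hsc a.2 hr, vs_vol]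
        _ ≤ _ := by
            apply mul_le_mul_right
            exact measure_mono (hsubE a))
    (by
      intro a ha
      refine ⟨a.1, ?_⟩
      rw [mem_interior]
      refine ⟨(fun x => a.1 + x) '' eball n a.2, hsubE a, ?_, ?_⟩
      · exact (Homeomorph.addLeft a.1).isOpenMap _ (hop _)
      · rw [vs_tr]
        have hr : 0 < a.2 := ha.2.1
        simp only [Set.mem_setOf_eq, sub_self, norm_zero]
        simp
        positivity)
    (fun a _ => vs_closed a.1 a.2)
    (by
      intro x hx ε hε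
      have hopn : IsOpen (W ∩ U x) := hW.inter (hU1 x)
      obtain ⟨ρ, hρ, hρ2⟩ := Metric.nhds_basis_closedBall.mem_iff.1 (hopn.mem_nhds ⟨hx, hU2 x⟩)
      refine ⟨(x, min ε ρ), ⟨hx, lt_min hε hρ, ?_⟩, min_le_left _ _, rfl⟩
      refine (vs_sub x (min ε ρ) (lt_min hε hρ).le).trans ?_
      exact (Metric.closedBall_subset_closedBall (min_le_right _ _)).trans hρ2)
  calc volume W ≤ volume ((W \ ⋃ a ∈ u, B a) ∪ ⋃ a ∈ u, B a) := by
        apply measure_mono
        intro x hx
        by_cases h : x ∈ ⋃ a ∈ u, B a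
        · exact Or.inr h
        · exact Or.inl ⟨hx, h⟩
    _ ≤ volume (W \ ⋃ a ∈ u, B a) + volume (⋃ a ∈ u, B a) := measure_union_le _ _
    _ = volume (⋃ a ∈ u, B a) := by rw [huW, zero_add]
    _ ≤ ∑' a : u, volume (B a) := measure_biUnion_le _ huc _
    _ ≤ ∑' a : u, volume (φ '' ((fun x => a.1.1 + x) '' eball n a.1.2)) := by
        apply ENNReal.tsum_le_tsum
        intro a
        have ha := hut a.2
        refine (vs_cvol hfin hsc a.1.1 a.1.2 ha.2.1).trans ?_
        apply hU3 a.1.1 a.1.1 a.1.2 ha.2.1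
        exact (hsubE a.1).trans (ha.2.2.trans Set.inter_subset_right)
    _ = volume (⋃ a ∈ u, φ '' ((fun x => a.1 + x) '' eball n a.2)) := by
        rw [measure_biUnion huc]
        · intro a ha b hb hab
          have := hud ha hb hab
          rw [Function.onFun, Set.disjoint_image_iff φ.injective]
          exact this.mono (hsubE a) (hsubE b)
        · intro a ha
          apply IsOpen.measurableSet
          apply φ.isOpenMap
          exact (Homeomorph.addLeft a.1).isOpenMap _ (hop _)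
    _ ≤ volume (φ '' W) := by
        apply measure_mono
        apply Set.iUnion₂_subset
        intro a ha
        apply Set.image_mono
        exact (hsubE a).trans ((hut ha).2.2.trans Set.inter_subset_left)



end Pool.Agent.Helper943.VC
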