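import Pool.Agent.Helper943.VCDefs

set_option autoImplicit false

open MeasureTheory
open scoped ENNReal

namespace Pool.Agent.Helper943.VC

/-- two one-sided inequalities on open sets give volume preservation -/
theorem eq_of_open {n : ℕ} (φ : (Fin n → ℂ) ≃ₜ (Fin n → ℂ))
    (h1 : ∀ W, IsOpen W → volume W ≤ volume (φ '' W))
    (h2 : ∀ W, IsOpen W → volume W ≤ volume (φ.symm '' W)) :
    ∀ A, MeasurableSet A → volume (φ '' A) = volume A := by
  have heq : ∀ W : Set (Fin n → ℂ), IsOpen W → volume (φ '' W) = volume W := by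
    intro W hW
    apply le_antisymm _ (h1 W hW)
    have h3 := h2 (φ '' W) (φ.isOpenMap W hW)
    have e : φ.symm '' (φ '' W) = W := by
      rw [← Set.image_comp]
      have : (φ.symm ∘ φ : (Fin n → ℂ) → (Fin n → ℂ)) = id := by
        funext x; simp
      rw [this, Set.image_id]
    rwa [e] at h3
  have hm : Measurable (φ.symm : (Fin n → ℂ) → (Fin n → ℂ)) := φ.symm.continuous.measurable
  have hap : ∀ A : Set (Fin n → ℂ), MeasurableSet A →
      (volume.map (φ.symm : (Fin n → ℂ) → (Fin n → ℂ))) A = volume (φ '' A) := by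
    intro A hA
    rw [Measure.map_apply hm hA, ← Homeomorph.image_eq_preimage_symm]
  have key : (volume : Measure (Fin n → ℂ)) = volume.map (φ.symm : (Fin n → ℂ) → (Fin n → ℂ)) := by
    refine Measure.ext_of_generateFrom_of_iUnion {s : Set (Fin n → ℂ) | IsOpen s}
      (fun k : ℕ => Metric.ball (0 : Fin n → ℂ) k) BorelSpace.measurable_eq isPiSystem_isOpen
      (Metric.iUnion_ball_nat 0) (fun i => (Metric.isOpen_ball : IsOpen (Metric.ball (0 : Fin n → ℂ) (i : ℝ)))) (fun i => measure_ball_lt_top.ne) ?_
    intro s hs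
    rw [hap s (IsOpen.measurableSet hs), heq s hs]
  intro A hA
  rw [← hap A hA, ← key]


end Pool.Agent.Helper943.VC
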