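import Pool.Agent.Helper943.VCDefs

set_option autoImplicit false

open MeasureTheory
open scoped ENNReal

namespace Pool.Agent.Helper943.VC

theorem eball_open (n : ℕ) (r : ℝ) : IsOpen (eball n r) := by
  unfold eball
  exact isOpen_lt (by fun_prop) continuous_const

theorem eball_smul (n : ℕ) (r : ℝ) (hr : 0 < r) : (fun z => r • z) '' eball n 1 = eball n r := by
  have key : ∀ w : Fin n → ℂ, ∑ j, ‖(r • w) j‖ ^ 2 = r ^ 2 * ∑ j, ‖w j‖ ^ 2 := by
    intro w
    rw [Finset.mul_sum]
    apply Finset.sum_congr rfl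
    intro j _
    rw [Pi.smul_apply, norm_smul, mul_pow, Real.norm_eq_abs, sq_abs]
  ext z
  simp only [eball, Set.mem_image, Set.mem_setOf_eq]
  constructor
  · rintro ⟨w, hw, rfl⟩
    rw [key]
    have : 0 < r ^ 2 := by positivity
    nlinarith
  · intro hz
    refine ⟨r⁻¹ • z, ?_, smul_inv_smul₀ hr.ne' z⟩
    have h := key (r⁻¹ • z)
    rw [smul_inv_smul₀ hr.ne' z] at h
    rw [h] at hz
    have h2 : 0 < r ^ 2 := by positivity
    have : r ^ 2 * ∑ j, ‖(r⁻¹ • z) j‖ ^ 2 < r ^ 2 * 1 := by rw [mul_one]; exact hz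
    have h3 := lt_of_mul_lt_mul_left this h2.le
    simpa using h3

theorem eball_vol (n : ℕ) (r : ℝ) (hr : 0 < r) :
    volume (eball n r) = ENNReal.ofReal (r ^ (2 * n)) * volume (eball n 1) := by
  rw [← eball_smul n r hr]
  have h := Measure.addHaar_smul (volume : Measure (Fin n → ℂ)) r (eball n 1)
  have hf : Module.finrank ℝ (Fin n → ℂ) = 2 * n := by
    rw [Module.finrank_pi_fintype]
    simp [Complex.finrank_real_complex, mul_comm]
  rw [hf, abs_of_pos (by positivity)] at h
  exact h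

theorem eball_fin (n : ℕ) : volume (eball n 1) < ⊤ := by
  have hsub : eball n 1 ⊆ Metric.closedBall (0 : Fin n → ℂ) 1 := by
    intro z hz
    simp only [eball, Set.mem_setOf_eq, one_pow] at hz
    rw [mem_closedBall_zero_iff, pi_norm_le_iff_of_nonneg zero_le_one]
    intro j
    have h1 : ‖z j‖ ^ 2 ≤ ∑ i, ‖z i‖ ^ 2 :=
      Finset.single_le_sum (f := fun i => ‖z i‖ ^ 2) (fun i _ => by positivity) (Finset.mem_univ j)
    nlinarith [norm_nonneg (z j)]
  exact (measure_mono hsub).trans_lt (isCompact_closedBall _ _).measure_lt_top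

theorem eball_pos (n : ℕ) : 0 < volume (eball n 1) := by
  refine (eball_open n 1).measure_pos _ ⟨0, ?_⟩
  simp [eball]

theorem transl_vol (n : ℕ) (z : Fin n → ℂ) (S : Set (Fin n → ℂ)) :
    volume ((fun x => z + x) '' S) = volume S := by
  rw [Set.image_add_left, measure_preimage_add]


end Pool.Agent.Helper943.VC
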