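import Pool.Agent.Helper943.VCDefs

set_option autoImplicit false

open MeasureTheory
open scoped ENNReal

namespace Pool.Agent.Helper943.VC

/-- a real linear map preserving the symplectic form has determinant of absolute value one -/
theorem abs_det_one {n : ℕ} (L : (Fin n → ℂ) →L[ℝ] (Fin n → ℂ))
    (h : ∀ u v, omega (L u) (L v) = omega u v) : |L.det| = 1 := by
  let B : LinearMap.BilinForm ℝ (Fin n → ℂ) := LinearMap.mk₂ ℝ omega
    (fun u u' v => by
      unfold omega
      rw [← Finset.sum_add_distrib]
      refine Finset.sum_congr rfl fun j _ => ?_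
      simp only [Pi.add_apply, Complex.add_re, Complex.add_im]
      ring)
    (fun c u v => by
      unfold omega
      rw [smul_eq_mul, Finset.mul_sum]
      refine Finset.sum_congr rfl fun j _ => ?_
      simp only [Pi.smul_apply, Complex.smul_re, Complex.smul_im, smul_eq_mul]
      ring)
    (fun u v v' => by
      unfold omega
      rw [← Finset.sum_add_distrib]
      refine Finset.sum_congr rfl fun j _ => ?_
      simp only [Pi.add_apply, Complex.add_re, Complex.add_im]
      ring)
    (fun c u v => by
      unfold omega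
      rw [smul_eq_mul, Finset.mul_sum]
      refine Finset.sum_congr rfl fun j _ => ?_
      simp only [Pi.smul_apply, Complex.smul_re, Complex.smul_im, smul_eq_mul]
      ring)
  have hB : ∀ u v, B u v = omega u v := fun u v => rfl
  have hleft : B.SeparatingLeft := by
    intro u hu
    have h1 := hu (fun j => Complex.I * u j)
    rw [hB] at h1
    have h2 : omega u (fun j => Complex.I * u j) = ∑ j, ((u j).re ^ 2 + (u j).im ^ 2) := by
      unfold omega
      refine Finset.sum_congr rfl fun j _ => ?_
      simp
      ring
    rw [h2, Finset.sum_eq_zero_iff_of_nonneg (fun j _ => by positivity)] at h1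
    funext j
    have h3 := h1 j (Finset.mem_univ j)
    apply Complex.ext
    · simp only [Pi.zero_apply, Complex.zero_re]
      nlinarith [sq_nonneg (u j).re, sq_nonneg (u j).im]
    · simp only [Pi.zero_apply, Complex.zero_im]
      nlinarith [sq_nonneg (u j).re, sq_nonneg (u j).im]
  have hnd : B.Nondegenerate := LinearMap.BilinForm.Nondegenerate.ofSeparatingLeft hleft
  let b := Module.finBasis ℝ (Fin n → ℂ)
  have hdet := (LinearMap.BilinForm.nondegenerate_iff_det_ne_zero b).mp hnd
  have hcomp : B.comp (L : (Fin n → ℂ) →ₗ[ℝ] (Fin n → ℂ)) (L : (Fin n → ℂ) →ₗ[ℝ] (Fin n → ℂ)) =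
      B := by
    refine LinearMap.ext fun u => LinearMap.ext fun v => ?_
    exact h u v
  have hM := LinearMap.BilinForm.toMatrix_comp b b B (L : (Fin n → ℂ) →ₗ[ℝ] (Fin n → ℂ))
    (L : (Fin n → ℂ) →ₗ[ℝ] (Fin n → ℂ))
  rw [hcomp] at hM
  have hD := congrArg Matrix.det hM
  rw [Matrix.det_mul, Matrix.det_mul, Matrix.det_transpose, LinearMap.det_toMatrix] at hD
  have hL : L.det = LinearMap.det (L : (Fin n → ℂ) →ₗ[ℝ] (Fin n → ℂ)) := rfl
  rw [← hL] at hD
  have h4 : L.det * L.det = 1 := by
    have h5 : (L.det * L.det - 1) * (LinearMap.BilinForm.toMatrix b B).det = 0 := by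
      linear_combination -hD
    rcases mul_eq_zero.mp h5 with h6 | h6
    · linarith
    · exact absurd h6 hdet
  have h7 : |L.det| * |L.det| = 1 := by
    rw [← abs_mul, h4, abs_one]
  have h8 := abs_nonneg L.det
  nlinarith


end Pool.Agent.Helper943.VC
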