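import Pool.Agent.Helper943.VCDefs

set_option autoImplicit false

open MeasureTheory
open scoped ENNReal

namespace Pool.Agent.Helper943.VC

/-- symplectic embeddings preserve volume -/
theorem emb_vol {n : ℕ} (hdet : ∀ L : (Fin n → ℂ) →L[ℝ] (Fin n → ℂ),
      (∀ u v, omega (L u) (L v) = omega u v) → |L.det| = 1)
    {f : (Fin n → ℂ) → (Fin n → ℂ)} {U V : Set (Fin n → ℂ)} (hU : IsOpen U)
    (hf : IsSympEmb f U V) : volume U ≤ volume V := by
  obtain ⟨h1, h2, h3, h4⟩ := hf
  have hd : ∀ x ∈ U, HasFDerivWithinAt f (fderiv ℝ f x) U x := by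
    intro x hx
    have h5 : ContDiffAt ℝ ((⊤ : ℕ∞) : WithTop ℕ∞) f x := h1.contDiffAt (hU.mem_nhds hx)
    exact (h5.differentiableAt (by simp)).hasFDerivAt.hasFDerivWithinAt
  have h6 := lintegral_abs_det_fderiv_eq_addHaar_image volume hU.measurableSet hd h2
  have h7 : ∫⁻ x in U, ENNReal.ofReal |(fderiv ℝ f x).det| = volume U := by
    rw [← setLIntegral_one]
    apply setLIntegral_congr_fun hU.measurableSet
    intro x hx
    simp only
    rw [hdet _ (h4 x hx), ENNReal.ofReal_one]
  rw [← h7, h6]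
  exact measure_mono h3.image_subset


end Pool.Agent.Helper943.VC
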