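import Pool.Agent.Helper943.VCDefs

set_option autoImplicit false

open MeasureTheory
open scoped ENNReal

namespace Pool.Agent.Helper943.VC

/-- translations are symplectic embeddings -/
theorem transl_emb {n : ℕ} (z : Fin n → ℂ) (U : Set (Fin n → ℂ)) :
    IsSympEmb (fun x => z + x) U ((fun x => z + x) '' U) := by
  refine ⟨?_, ?_, ?_, ?_⟩
  · exact (contDiff_const.add contDiff_id).contDiffOn
  · intro x _ y _ h
    exact add_left_cancel h
  · exact Set.mapsTo_image _ _
  · intro x _ u v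
    have h : fderiv ℝ (fun x : Fin n → ℂ => z + x) x = ContinuousLinearMap.id ℝ _ := by
      rw [fderiv_const_add]
      exact fderiv_id
    rw [h]
    rfl


theorem transl_open {n : ℕ} (z : Fin n → ℂ) (U : Set (Fin n → ℂ)) (hU : IsOpen U) :
    IsOpen ((fun x => z + x) '' U) := by
  exact (Homeomorph.addLeft z).isOpenMap U hU


theorem gw_ball {n : ℕ} (z : Fin n → ℂ) (r : ℝ) (hr : 0 < r)  :
    ENNReal.ofReal (Real.pi * r ^ 2) ≤ gromovWidth ((fun x => z + x) '' eball n r) := by
  unfold gromovWidth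
  exact le_iSup₂_of_le r ⟨hr, _, transl_emb z (eball n r)⟩ le_rfl


/-- volume bound from the Gromov width -/
theorem gw_vol {n : ℕ}
    (hsc : ∀ r : ℝ, 0 < r → volume (eball n r) = ENNReal.ofReal (r ^ (2 * n)) * volume (eball n 1))
    (hop : ∀ r : ℝ, IsOpen (eball n r))
    (hemb : ∀ (f : (Fin n → ℂ) → (Fin n → ℂ)) (U V : Set (Fin n → ℂ)), IsOpen U →
      IsSympEmb f U V → volume U ≤ volume V)
    (W : Set (Fin n → ℂ)) (r : ℝ) (hr : 0 < r)
    (h : ENNReal.ofReal (Real.pi * r ^ 2) ≤ gromovWidth W) : volume (eball n r) ≤ volume W := by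
  have key : ∀ s ∈ Set.Ioo 0 r, ENNReal.ofReal (s ^ (2 * n)) * volume (eball n 1) ≤ volume W := by
    intro s hs
    rw [← hsc s hs.1]
    have h1 : ENNReal.ofReal (Real.pi * s ^ 2) < gromovWidth W := by
      refine lt_of_lt_of_le ?_ h
      rw [ENNReal.ofReal_lt_ofReal_iff (by positivity)]
      have h2 : s ^ 2 < r ^ 2 := by
        have h3 := hs.1
        have h4 := hs.2
        nlinarith
      exact mul_lt_mul_of_pos_left h2 Real.pi_pos
    unfold gromovWidth at h1
    rw [lt_iSup_iff] at h1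
    obtain ⟨r1, h1⟩ := h1
    rw [lt_iSup_iff] at h1
    obtain ⟨⟨hr1, f, hf⟩, h1⟩ := h1
    have h5 : Real.pi * s ^ 2 < Real.pi * r1 ^ 2 := by
      rw [ENNReal.ofReal_lt_ofReal_iff (by positivity)] at h1
      exact h1
    have h6 : s ^ 2 < r1 ^ 2 := lt_of_mul_lt_mul_left h5 Real.pi_pos.le
    refine (measure_mono ?_).trans (hemb f _ _ (hop r1) hf)
    intro x hx
    have hx' : ∑ j, ‖x j‖ ^ 2 < s ^ 2 := hx
    exact lt_trans hx' h6
  rw [hsc r hr]
  have hlim : Filter.Tendsto (fun s : ℝ => ENNReal.ofReal (s ^ (2 * n)) * volume (eball n 1))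
      (nhdsWithin r (Set.Iio r)) (nhds (ENNReal.ofReal (r ^ (2 * n)) * volume (eball n 1))) := by
    apply ENNReal.Tendsto.mul_const
    · have h1 : Continuous (fun s : ℝ => ENNReal.ofReal (s ^ (2 * n))) :=
        ENNReal.continuous_ofReal.comp (continuous_pow (2 * n))
      exact (h1.tendsto r).mono_left nhdsWithin_le_nhds
    · left
      rw [Ne, ENNReal.ofReal_eq_zero, not_le]
      positivity
  refine le_of_tendsto hlim ?_
  filter_upwards [Ioo_mem_nhdsLT hr] with s hs
  exact key s hs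



end Pool.Agent.Helper943.VC
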