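import Pool.Agent.Helper943.VCDefs

set_option autoImplicit false

open MeasureTheory
open scoped ENNReal

namespace Pool.Agent.Helper943.VC

theorem cap_ball {n : ℕ} (c : Set (Fin n → ℂ) → ℝ≥0∞) (hc : IsCapacity n c)
    (hop : ∀ r : ℝ, IsOpen (eball n r))
    (hsm : ∀ r : ℝ, 0 < r → (fun z => r • z) '' eball n 1 = eball n r)
    (htr : ∀ (z : Fin n → ℂ) (U : Set (Fin n → ℂ)), IsSympEmb (fun x => z + x) U ((fun x => z + x) '' U))
    (hto : ∀ (z : Fin n → ℂ) (U : Set (Fin n → ℂ)), IsOpen U → IsOpen ((fun x => z + x) '' U))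
    (z : Fin n → ℂ) (r : ℝ) (hr : 0 < r)  :
    ENNReal.ofReal (Real.pi * r ^ 2) ≤ c ((fun x => z + x) '' eball n r) := by
  have h1 : c (eball n r) = ENNReal.ofReal (Real.pi * r ^ 2) := by
    rw [← hsm r hr, hc.conf _ (hop 1) r hr, hc.ball, ← ENNReal.ofReal_mul (by positivity)]
    congr 1
    ring
  rw [← h1]
  exact hc.mono _ _ (hop r) (hto z _ (hop r)) ⟨_, htr z _⟩

theorem cap_vol {n : ℕ} (hn : 1 ≤ n) (c : Set (Fin n → ℂ) → ℝ≥0∞) (hv : VolDominated n c)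
    (hfin : volume (eball n 1) < ⊤) (hpos : 0 < volume (eball n 1))
    (hsc : ∀ r : ℝ, 0 < r → volume (eball n r) = ENNReal.ofReal (r ^ (2 * n)) * volume (eball n 1))
    (W : Set (Fin n → ℂ)) (hW : IsOpen W) (r : ℝ) (hr : 0 < r)
    (h : ENNReal.ofReal (Real.pi * r ^ 2) ≤ c W) : volume (eball n r) ≤ volume W := by
  have h1 : ENNReal.ofReal (Real.pi * r ^ 2) ^ n * volume (eball n 1)
      ≤ ENNReal.ofReal Real.pi ^ n * volume W :=
    le_trans (by gcongr) (hv W hW)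
  have h2 : ENNReal.ofReal (Real.pi * r ^ 2) ^ n * volume (eball n 1)
      = ENNReal.ofReal Real.pi ^ n * volume (eball n r) := by
    have h3 : ENNReal.ofReal (r ^ (2 * n)) = ENNReal.ofReal (r ^ 2) ^ n := by
      rw [pow_mul, ENNReal.ofReal_pow (by positivity)]
    rw [hsc r hr, ENNReal.ofReal_mul Real.pi_pos.le, mul_pow, h3, mul_assoc]
  rw [h2] at h1
  have hp0 : ENNReal.ofReal Real.pi ^ n ≠ 0 :=
    pow_ne_zero _ (ENNReal.ofReal_pos.mpr Real.pi_pos).ne'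
  have hpt : ENNReal.ofReal Real.pi ^ n ≠ ⊤ := ENNReal.pow_ne_top ENNReal.ofReal_ne_top
  exact (ENNReal.mul_le_mul_iff_right hp0 hpt).mp h1


end Pool.Agent.Helper943.VC
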