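import Pool.Agent.Helper943.VCDefs

set_option autoImplicit false

open MeasureTheory
open scoped ENNReal

namespace Pool.Agent.Helper943.VC

theorem init_prodId {n : ℕ} (f : (Fin n → ℂ) → (Fin n → ℂ)) (z : Fin (n + 1) → ℂ) :
    Fin.init (prodId f z) = f (Fin.init z) := by
  unfold prodId
  exact Fin.init_snoc (α := fun _ => ℂ) _ _

theorem last_prodId {n : ℕ} (f : (Fin n → ℂ) → (Fin n → ℂ)) (z : Fin (n + 1) → ℂ) :
    prodId f z (Fin.last n) = z (Fin.last n) := by
  unfold prodId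
  exact Fin.snoc_last (α := fun _ => ℂ) _ _

theorem prodId_comp {n : ℕ} (f g : (Fin n → ℂ) → (Fin n → ℂ)) (h : ∀ x, f (g x) = x)
    (z : Fin (n + 1) → ℂ) : prodId f (prodId g z) = z := by
  show Fin.snoc (α := fun _ => ℂ) (f (Fin.init (prodId g z))) (prodId g z (Fin.last n)) = z
  rw [init_prodId, last_prodId, h]
  exact Fin.snoc_init_self (α := fun _ => ℂ) z

theorem prodId_cont {n : ℕ} (f : (Fin n → ℂ) → (Fin n → ℂ)) (h : Continuous f) :
    Continuous (prodId f) := by
  have hi : Continuous (fun z : Fin (n + 1) → ℂ => (Fin.init z : Fin n → ℂ)) :=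
    continuous_pi fun i => continuous_apply _
  refine continuous_pi fun i => ?_
  refine Fin.lastCases ?_ (fun j => ?_) i
  · have : (fun z : Fin (n + 1) → ℂ => prodId f z (Fin.last n)) = fun z => z (Fin.last n) :=
      funext fun z => last_prodId f z
    rw [this]
    exact continuous_apply _
  · have : (fun z : Fin (n + 1) → ℂ => prodId f z j.castSucc) = fun z => f (Fin.init z) j :=
      funext fun z => congrFun (init_prodId f z) j
    rw [this]
    exact (continuous_apply j).comp (h.comp hi)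

/-- the homeomorphism phi times identity and its inverse -/
theorem prodId_homeo {n : ℕ} (φ : (Fin n → ℂ) ≃ₜ (Fin n → ℂ)) :
    ∃ Φ : (Fin (n + 1) → ℂ) ≃ₜ (Fin (n + 1) → ℂ), (Φ : (Fin (n + 1) → ℂ) → (Fin (n + 1) → ℂ)) = prodId φ := by
  refine ⟨{
    toFun := prodId φ
    invFun := prodId φ.symm
    left_inv := prodId_comp _ _ φ.symm_apply_apply
    right_inv := prodId_comp _ _ φ.apply_symm_apply
    continuous_toFun := prodId_cont _ φ.continuous
    continuous_invFun := prodId_cont _ φ.symm.continuous }, rfl⟩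

theorem cyl_eq {n : ℕ} (A : Set (Fin n → ℂ)) :
    {z : Fin (n + 1) → ℂ | (Fin.init z : Fin n → ℂ) ∈ A ∧ z (Fin.last n) ∈ Metric.ball (0:ℂ) 1} =
      (MeasurableEquiv.piFinSuccAbove (fun _ => ℂ) (Fin.last n)) ⁻¹'
        ((Metric.ball (0:ℂ) 1) ×ˢ A) := by
  ext z
  have h2 : ((MeasurableEquiv.piFinSuccAbove (fun _ => ℂ) (Fin.last n)) z).2 =
      (Fin.init z : Fin n → ℂ) := by
    funext j
    show z ((Fin.last n).succAbove j) = z j.castSucc
    rw [Fin.succAbove_last]
  rw [Set.mem_preimage, Set.mem_prod, h2]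
  exact and_comm

theorem vol_cyl {n : ℕ} (A : Set (Fin n → ℂ)) :
    volume {z : Fin (n + 1) → ℂ | (Fin.init z : Fin n → ℂ) ∈ A ∧
      z (Fin.last n) ∈ Metric.ball (0:ℂ) 1} = volume (Metric.ball (0:ℂ) 1) * volume A := by
  rw [cyl_eq, (volume_preserving_piFinSuccAbove (fun _ => ℂ) (Fin.last n)).measure_preimage_equiv,
    Measure.volume_eq_prod, Measure.prod_prod]

/-- if phi times identity preserves volume then so does phi -/
theorem prodId_vol {n : ℕ} (φ : (Fin n → ℂ) ≃ₜ (Fin n → ℂ))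
    (h : ∀ A, MeasurableSet A → volume (prodId φ '' A) = volume A) :
    ∀ A, MeasurableSet A → volume (φ '' A) = volume A := by
  intro A hA
  have h1 := h {z : Fin (n + 1) → ℂ | (Fin.init z : Fin n → ℂ) ∈ A ∧
    z (Fin.last n) ∈ Metric.ball (0:ℂ) 1} (by
      rw [cyl_eq]
      exact (MeasurableEquiv.measurable _) (Metric.isOpen_ball.measurableSet.prod hA))
  have h2 : prodId φ '' {z : Fin (n + 1) → ℂ | (Fin.init z : Fin n → ℂ) ∈ A ∧
      z (Fin.last n) ∈ Metric.ball (0:ℂ) 1} =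
      {z : Fin (n + 1) → ℂ | (Fin.init z : Fin n → ℂ) ∈ φ '' A ∧
      z (Fin.last n) ∈ Metric.ball (0:ℂ) 1} := by
    ext z
    constructor
    · rintro ⟨w, ⟨hw1, hw2⟩, rfl⟩
      refine ⟨?_, ?_⟩
      · rw [init_prodId]
        exact ⟨_, hw1, rfl⟩
      · rw [last_prodId]
        exact hw2
    · rintro ⟨⟨a, ha, hz⟩, hz2⟩
      refine ⟨Fin.snoc (α := fun _ => ℂ) a (z (Fin.last n)), ⟨?_, ?_⟩, ?_⟩
      · have : (Fin.init (Fin.snoc (α := fun _ => ℂ) a (z (Fin.last n))) : Fin n → ℂ) = a :=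
          Fin.init_snoc (α := fun _ => ℂ) _ _
        rw [this]
        exact ha
      · have : (Fin.snoc (α := fun _ => ℂ) a (z (Fin.last n)) : Fin (n + 1) → ℂ) (Fin.last n) =
            z (Fin.last n) := Fin.snoc_last (α := fun _ => ℂ) _ _
        rw [this]
        exact hz2
      · have e1 : (Fin.init (Fin.snoc (α := fun _ => ℂ) a (z (Fin.last n))) : Fin n → ℂ) = a :=
          Fin.init_snoc (α := fun _ => ℂ) _ _
        have e2 : (Fin.snoc (α := fun _ => ℂ) a (z (Fin.last n)) : Fin (n + 1) → ℂ) (Fin.last n) =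
            z (Fin.last n) := Fin.snoc_last (α := fun _ => ℂ) _ _
        unfold prodId
        rw [e1, e2, hz]
        exact Fin.snoc_init_self (α := fun _ => ℂ) z
  rw [h2, vol_cyl, vol_cyl] at h1
  exact (ENNReal.mul_right_inj (Metric.measure_ball_pos volume (0:ℂ) one_pos).ne'
    measure_ball_lt_top.ne).1 h1


end Pool.Agent.Helper943.VC
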