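import Pool.Agent.Helper943.VCDich

set_option autoImplicit false

open MeasureTheory
open scoped ENNReal

namespace Pool.Agent.Helper943.VC

theorem small_ball {n : ℕ} (hn : 1 ≤ n) (p z : Fin n → ℂ) (r δ : ℝ) (hr : 0 < r)
    (h : ((fun x => z + x) '' eball n r) ⊆ Metric.ball p δ) : dist z p < δ ∧ r < 4 * δ := by
  have h0 : (0 : Fin n → ℂ) ∈ eball n r := by
    show ∑ j, ‖(0 : Fin n → ℂ) j‖ ^ 2 < r ^ 2
    have : ∑ j, ‖(0 : Fin n → ℂ) j‖ ^ 2 = 0 := by simp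
    rw [this]
    exact pow_pos hr 2
  have hz : z + 0 ∈ Metric.ball p δ := h ⟨0, h0, rfl⟩
  obtain ⟨w, hw1, hw2⟩ : ∃ w : Fin n → ℂ, w ∈ eball n r ∧ ‖w‖ = r / 2 := by
    refine ⟨Pi.single (⟨0, hn⟩ : Fin n) ((r / 2 : ℝ) : ℂ), ?_, ?_⟩
    · show ∑ j, ‖(Pi.single (⟨0, hn⟩ : Fin n) ((r / 2 : ℝ) : ℂ) : Fin n → ℂ) j‖ ^ 2 < r ^ 2
      rw [Finset.sum_eq_single (⟨0, hn⟩ : Fin n)]
      · rw [Pi.single_eq_same, Complex.norm_real, Real.norm_eq_abs, sq_abs]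
        nlinarith
      · intro j _ hj
        rw [Pi.single_eq_of_ne hj]
        simp
      · intro h0
        exact absurd (Finset.mem_univ _) h0
    · rw [Pi.norm_single, Complex.norm_real, Real.norm_eq_abs, abs_of_pos (half_pos hr)]
  have hw : z + w ∈ Metric.ball p δ := h ⟨w, hw1, rfl⟩
  rw [add_zero] at hz
  rw [Metric.mem_ball] at hz hw
  refine ⟨hz, ?_⟩
  have h1 : dist (z + w) z ≤ dist (z + w) p + dist p z := dist_triangle _ _ _
  rw [dist_comm p z, dist_eq_norm (z + w) z, add_sub_cancel_left, hw2] at h1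
  linarith

theorem eball_norm {n : ℕ} (R : ℝ) (x : Fin n → ℂ) (hx : x ∈ eball n R) : ‖x‖ ≤ |R| := by
  have h : x ∈ Metric.closedBall (0 : Fin n → ℂ) |R| := by
    apply vs_sub 0 |R| (abs_nonneg R)
    show ∑ j, ‖x j - (0 : Fin n → ℂ) j‖ ^ 2 ≤ |R| ^ 2
    rw [sq_abs]
    have hx' : ∑ j, ‖x j‖ ^ 2 < R ^ 2 := hx
    simpa using hx'.le
  simpa using h

/-- affine images of the ball of radius R stay in a metric ball -/
theorem aff_sub {n : ℕ} (p z : Fin n → ℂ) (r δ ρ R : ℝ) (hr : 0 < r) (h1 : dist z p < δ)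
    (h2 : r < 4 * δ) (h3 : δ * (1 + 4 * |R|) ≤ ρ) (V : Set (Fin n → ℂ)) (hV : V ⊆ eball n R) :
    aff z r hr '' V ⊆ Metric.ball p ρ := by
  rintro _ ⟨x, hx, rfl⟩
  rw [Metric.mem_ball, aff_apply]
  have hx' := eball_norm R x (hV hx)
  calc dist (z + r • x) p ≤ dist (z + r • x) z + dist z p := dist_triangle _ _ _
    _ = r * ‖x‖ + dist z p := by
        rw [dist_eq_norm, add_sub_cancel_left, norm_smul, Real.norm_eq_abs, abs_of_pos hr]
    _ < ρ := by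
        have : r * ‖x‖ ≤ 4 * δ * |R| := by
          apply mul_le_mul h2.le hx' (norm_nonneg _) (by linarith)
        nlinarith

theorem macro_step (c : ∀ m : ℕ, Set (Fin m → ℂ) → ℝ≥0∞)
    (hc : ∀ m, 1 ≤ m → IsCapacity m (c m)) {n : ℕ} (hn : 1 ≤ n) (K : ℝ≥0∞) (hK : K ≠ ⊤) (R : ℝ)
    (H : ∀ φ : (Fin n → ℂ) ≃ₜ (Fin n → ℂ), IsCSympHomeo c n φ → φ 0 = 0 →
      (Odd n → ∀ V, IsOpen V → V ⊆ eball n R → c n (φ '' V) = c n V) →
      (Even n → ∀ V, IsOpen V → V ⊆ eball (n + 1) R →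
        c (n + 1) (prodId φ '' V) = c (n + 1) V) →
      volume (eball n 1) ≤ K * volume (φ '' closure (eball n 1))) :
    ∀ φ : (Fin n → ℂ) ≃ₜ (Fin n → ℂ), IsCSympHomeo c n φ →
      ∀ A, MeasurableSet A → volume (φ '' A) = volume A := by
  intro φ hφ
  apply group_main hn {ψ | IsCSympHomeo c n ψ} (fun z => csymp_transl c hc hn z)
    (fun φ hφ ψ hψ => csymp_trans c φ ψ hφ hψ) (fun φ hφ => csymp_symm c φ hφ) K hK ?_ φ hφ
  intro ψ hψ p
  obtain ⟨Ψ, hΨ⟩ := prodId_homeo ψ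
  -- radius rho
  have hρ : ∃ ρ : ℝ, 0 < ρ ∧ (Odd n → ∀ V, IsOpen V → V ⊆ Metric.ball p ρ →
      c n (ψ '' V) = c n V) ∧ (Even n → ∀ V, IsOpen V →
      V ⊆ Metric.ball (Fin.snoc (α := fun _ => ℂ) p 0 : Fin (n + 1) → ℂ) ρ →
        c (n + 1) (Ψ '' V) = c (n + 1) V) := by
    rcases Nat.even_or_odd n with he | ho
    · obtain ⟨U, hU, hp, h⟩ := hψ.2 he (Fin.snoc (α := fun _ => ℂ) p 0)
      obtain ⟨ρ, hρ, hρ2⟩ := Metric.isOpen_iff.1 hU _ hp
      refine ⟨ρ, hρ, fun ho => absurd ho (Nat.not_odd_iff_even.2 he), fun _ V hV hVs => ?_⟩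
      rw [hΨ]
      exact h V hV (hVs.trans hρ2)
    · obtain ⟨U, hU, hp, h⟩ := hψ.1 ho p
      obtain ⟨ρ, hρ, hρ2⟩ := Metric.isOpen_iff.1 hU _ hp
      exact ⟨ρ, hρ, fun _ V hV hVs => h V hV (hVs.trans hρ2),
        fun he => absurd ho (Nat.not_odd_iff_even.2 he)⟩
  obtain ⟨ρ, hρ, hodd, heven⟩ := hρ
  set δ : ℝ := ρ / (1 + 4 * |R|) with hδ
  have hpos : 0 < 1 + 4 * |R| := by positivity
  have hδ0 : 0 < δ := by positivity
  have hδρ : δ * (1 + 4 * |R|) ≤ ρ := by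
    rw [hδ, div_mul_cancel₀ _ hpos.ne']
  refine ⟨Metric.ball p δ, Metric.isOpen_ball, Metric.mem_ball_self hδ0, ?_⟩
  intro z r hr hsub
  obtain ⟨hz, hr4⟩ := small_ball hn p z r δ hr hsub
  have hb1 : IsCSympHomeo c n (blow ψ z r hr) := by
    refine ⟨fun ho => blow_locPres (c n) (hc n hn) ψ (hψ.1 ho) z r hr, fun he => ?_⟩
    rw [← blow_prod ψ z r hr Ψ hΨ]
    apply blow_locPres (c (n + 1)) (hc _ (by omega)) Ψ
    rw [hΨ]
    exact hψ.2 he
  have hH := H (blow ψ z r hr) hb1 (blow_zero ψ z r hr)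
    (fun ho V hV hVs => by
      apply cap_blow (c n) (hc n hn) ψ z r hr V hV
      exact hodd ho _ ((aff z r hr).isOpenMap _ hV) (aff_sub p z r δ ρ R hr hz hr4 hδρ V hVs))
    (fun he V hV hVs => by
      rw [← blow_prod ψ z r hr Ψ hΨ]
      apply cap_blow (c (n + 1)) (hc _ (by omega)) Ψ _ r hr V hV
      apply heven he _ ((aff _ r hr).isOpenMap _ hV)
      apply aff_sub _ _ r δ ρ R hr _ hr4 hδρ V hVs
      refine lt_of_le_of_lt ?_ hz
      rw [dist_pi_le_iff dist_nonneg]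
      intro j
      refine Fin.lastCases ?_ (fun i => ?_) j
      · simp
      · simpa using dist_le_pi_dist z p i)
  have e1 : (fun x => z + x) '' eball n r = aff z r hr '' eball n 1 := by
    rw [← eball_smul n r hr, ← Set.image_comp]
    rfl
  rw [e1, ← (aff z r hr).image_closure, blow_vol ψ z r hr, eball_vol n r hr]
  calc ENNReal.ofReal (r ^ (2 * n)) * volume (eball n 1)
      ≤ ENNReal.ofReal (r ^ (2 * n)) * (K * volume (blow ψ z r hr '' closure (eball n 1))) := by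
        gcongr
    _ = K * (ENNReal.ofReal (r ^ (2 * n)) * volume (blow ψ z r hr '' closure (eball n 1))) := by
        ring

end Pool.Agent.Helper943.VC
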