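import Pool.Agent.Helper943.VCMac
import Pool.Agent.Helper943.VCFam

set_option autoImplicit false

open MeasureTheory
open scoped ENNReal

namespace Pool.Agent.Helper943.VC

theorem blow_apply {n : ℕ} (φ : (Fin n → ℂ) ≃ₜ (Fin n → ℂ)) (z : Fin n → ℂ) (r : ℝ)
    (hr : 0 < r) (x : Fin n → ℂ) :
    blow φ z r hr x = r⁻¹ • (φ (z + r • x) - φ z) := by
  simp only [blow, Homeomorph.trans_apply]
  rw [Homeomorph.symm_apply_eq, aff_apply, aff_apply, smul_smul, mul_inv_cancel₀ hr.ne', one_smul]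
  abel

theorem macro_stepG (c : ∀ m : ℕ, Set (Fin m → ℂ) → ℝ≥0∞)
    (hc : ∀ m, 1 ≤ m → IsCapacity m (c m)) {n : ℕ} (hn : 1 ≤ n) (K : ℝ≥0∞) (hK : K ≠ ⊤) (R : ℝ)
    (G : Set ((Fin n → ℂ) ≃ₜ (Fin n → ℂ))) (hG : ClosedFam n G)
    (hGc : ∀ φ ∈ G, IsCSympHomeo c n φ)
    (H : ∀ φ : (Fin n → ℂ) ≃ₜ (Fin n → ℂ), φ ∈ G → φ 0 = 0 →
      (Odd n → ∀ V, IsOpen V → V ⊆ eball n R → c n (φ '' V) = c n V) →
      (Even n → ∀ V, IsOpen V → V ⊆ eball (n + 1) R →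
        c (n + 1) (prodId φ '' V) = c (n + 1) V) →
      volume (eball n 1) ≤ K * volume (φ '' closure (eball n 1))) :
    ∀ φ ∈ G, ∀ A, MeasurableSet A → volume (φ '' A) = volume A := by
  intro φ hφ
  apply group_main hn G hG.1 hG.2.1 hG.2.2.1 K hK ?_ φ hφ
  intro ψ hψG p
  have hψ := hGc ψ hψG
  obtain ⟨Ψ, hΨ⟩ := prodId_homeo ψ
  -- radius rho
  have hρ : ∃ ρ : ℝ, 0 < ρ ∧ (Odd n → ∀ V, IsOpen V → V ⊆ Metric.ball p ρ →
      c n (ψ '' V) = c n V) ∧ (Even n → ∀ V, IsOpen V →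
      V ⊆ Metric.ball (Fin.snoc (α := fun _ => ℂ) p 0 : Fin (n + 1) → ℂ) ρ →
        c (n + 1) (Ψ '' V) = c (n + 1) V) := by
    rcases Nat.even_or_odd n with he | ho
    · obtain ⟨U, hU, hp, h⟩ := hψ.2 he (Fin.snoc (α := fun _ => ℂ) p 0)
      obtain ⟨ρ, hρ, hρ2⟩ := Metric.isOpen_iff.1 hU _ hp
      refine ⟨ρ, hρ, fun ho => absurd ho (Nat.not_odd_iff_even.2 he), fun _ V hV hVs => ?_⟩
      rw [hΨ]
      exact h V hV (hVs.trans hρ2)
    · obtain ⟨U, hU, hp, h⟩ := hψ.1 ho p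
      obtain ⟨ρ, hρ, hρ2⟩ := Metric.isOpen_iff.1 hU _ hp
      exact ⟨ρ, hρ, fun _ V hV hVs => h V hV (hVs.trans hρ2),
        fun he => absurd ho (Nat.not_odd_iff_even.2 he)⟩
  obtain ⟨ρ, hρ, hodd, heven⟩ := hρ
  set δ : ℝ := ρ / (1 + 4 * |R|) with hδ
  have hpos : 0 < 1 + 4 * |R| := by positivity
  have hδ0 : 0 < δ := by positivity
  have hδρ : δ * (1 + 4 * |R|) ≤ ρ := by
    rw [hδ, div_mul_cancel₀ _ hpos.ne']
  refine ⟨Metric.ball p δ, Metric.isOpen_ball, Metric.mem_ball_self hδ0, ?_⟩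
  intro z r hr hsub
  obtain ⟨hz, hr4⟩ := small_ball hn p z r δ hr hsub
  have hb1 : blow ψ z r hr ∈ G := by
    obtain ⟨χ, hχ, hχ2⟩ := hG.2.2.2 ψ hψG z r hr
    have : blow ψ z r hr = χ := by
      ext1 x
      rw [hχ2, blow_apply]
    rw [this]
    exact hχ
  have hH := H (blow ψ z r hr) hb1 (blow_zero ψ z r hr)
    (fun ho V hV hVs => by
      apply cap_blow (c n) (hc n hn) ψ z r hr V hV
      exact hodd ho _ ((aff z r hr).isOpenMap _ hV) (aff_sub p z r δ ρ R hr hz hr4 hδρ V hVs))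
    (fun he V hV hVs => by
      rw [← blow_prod ψ z r hr Ψ hΨ]
      apply cap_blow (c (n + 1)) (hc _ (by omega)) Ψ _ r hr V hV
      apply heven he _ ((aff _ r hr).isOpenMap _ hV)
      apply aff_sub _ _ r δ ρ R hr _ hr4 hδρ V hVs
      refine lt_of_le_of_lt ?_ hz
      rw [dist_pi_le_iff dist_nonneg]
      intro j
      refine Fin.lastCases ?_ (fun i => ?_) j
      · simp
      · simpa using dist_le_pi_dist z p i)
  have e1 : (fun x => z + x) '' eball n r = aff z r hr '' eball n 1 := by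
    rw [← eball_smul n r hr, ← Set.image_comp]
    rfl
  rw [e1, ← (aff z r hr).image_closure, blow_vol ψ z r hr, eball_vol n r hr]
  calc ENNReal.ofReal (r ^ (2 * n)) * volume (eball n 1)
      ≤ ENNReal.ofReal (r ^ (2 * n)) * (K * volume (blow ψ z r hr '' closure (eball n 1))) := by
        gcongr
    _ = K * (ENNReal.ofReal (r ^ (2 * n)) * volume (blow ψ z r hr '' closure (eball n 1))) := by
        ring



theorem csymp_blow (c : ∀ m : ℕ, Set (Fin m → ℂ) → ℝ≥0∞)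
    (hc : ∀ m, 1 ≤ m → IsCapacity m (c m)) {n : ℕ} (hn : 1 ≤ n)
    (ψ : (Fin n → ℂ) ≃ₜ (Fin n → ℂ)) (hψ : IsCSympHomeo c n ψ) (z : Fin n → ℂ) (r : ℝ)
    (hr : 0 < r) : IsCSympHomeo c n (blow ψ z r hr) := by
  obtain ⟨Ψ, hΨ⟩ := prodId_homeo ψ
  refine ⟨fun ho => blow_locPres (c n) (hc n hn) ψ (hψ.1 ho) z r hr, fun he => ?_⟩
  rw [← blow_prod ψ z r hr Ψ hΨ]
  apply blow_locPres (c (n + 1)) (hc _ (by omega)) Ψ
  rw [hΨ]
  exact hψ.2 he

theorem csymp_closed (c : ∀ m : ℕ, Set (Fin m → ℂ) → ℝ≥0∞)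
    (hc : ∀ m, 1 ≤ m → IsCapacity m (c m)) {n : ℕ} (hn : 1 ≤ n) :
    ClosedFam n {φ | IsCSympHomeo c n φ} := by
  refine ⟨fun z => csymp_transl c hc hn z, fun φ hφ ψ hψ => csymp_trans c φ ψ hφ hψ,
    fun φ hφ => csymp_symm c φ hφ, fun φ hφ z r hr => ?_⟩
  exact ⟨blow φ z r hr, csymp_blow c hc hn φ hφ z r hr, fun x => blow_apply φ z r hr x⟩

end Pool.Agent.Helper943.VC
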