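import Pool.Agent.Helper943.VCDefs
import Pool.Agent.Helper943.VCL1
import Pool.Agent.Helper943.VCL2
import Pool.Agent.Helper943.VCL3
import Pool.Agent.Helper943.VCL4
import Pool.Agent.Helper943.VCL5
import Pool.Agent.Helper943.VCL6
import Pool.Agent.Helper943.VCL7
import Pool.Agent.Helper943.VCL8

set_option autoImplicit false

open MeasureTheory
open scoped ENNReal

namespace Pool.Agent.Helper943.VC

theorem hemb {n : ℕ} (f : (Fin n → ℂ) → (Fin n → ℂ)) (U V : Set (Fin n → ℂ)) (hU : IsOpen U)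
    (hf : IsSympEmb f U V) : volume U ≤ volume V :=
  emb_vol (fun L h => abs_det_one L h) hU hf

/-- key abstract statement -/
theorem main_odd {n : ℕ} (hn : 1 ≤ n) (c : Set (Fin n → ℂ) → ℝ≥0∞)
    (hb : ∀ (z : Fin n → ℂ) (r : ℝ), 0 < r →
      ENNReal.ofReal (Real.pi * r ^ 2) ≤ c ((fun x => z + x) '' eball n r))
    (hv : ∀ (W : Set (Fin n → ℂ)) (r : ℝ), IsOpen W → 0 < r →
      ENNReal.ofReal (Real.pi * r ^ 2) ≤ c W → volume (eball n r) ≤ volume W)
    (φ : (Fin n → ℂ) ≃ₜ (Fin n → ℂ)) (hφ : LocPres c φ) :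
    ∀ A, MeasurableSet A → volume (φ '' A) = volume A := by
  have key : ∀ ψ : (Fin n → ℂ) ≃ₜ (Fin n → ℂ), LocPres c ψ →
      ∀ W, IsOpen W → volume W ≤ volume (ψ '' W) := by
    intro ψ hψ
    apply vitali_step hn ψ (eball_fin n) (eball_pos n) (fun r hr => eball_vol n r hr)
      (fun r => eball_open n r)
    intro p
    obtain ⟨U, hU, hp, h⟩ := hψ p
    refine ⟨U, hU, hp, ?_⟩
    intro z r hr hsub
    have ho : IsOpen ((fun x => z + x) '' eball n r) := transl_open z _ (eball_open n r)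
    apply hv _ r (ψ.isOpenMap _ ho) hr
    rw [h _ ho hsub]
    exact hb z r hr
  apply eq_of_open φ (key φ hφ)
  apply key
  intro q
  obtain ⟨U, hU, hp, h⟩ := hφ (φ.symm q)
  refine ⟨φ '' U, φ.isOpenMap _ hU, ⟨φ.symm q, hp, by simp⟩, ?_⟩
  intro V hV hVU
  have h1 : φ '' (φ.symm '' V) = V := by
    rw [← Set.image_comp]; simp
  have h2 : φ.symm '' V ⊆ U := by
    rintro _ ⟨v, hv', rfl⟩
    obtain ⟨u, hu, rfl⟩ := hVU hv'
    simpa using hu
  have h3 := h (φ.symm '' V) (φ.symm.isOpenMap _ hV) h2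
  rw [h1] at h3
  exact h3.symm

theorem main_any (c : ∀ m : ℕ, Set (Fin m → ℂ) → ℝ≥0∞)
    (hb : ∀ m, Odd m → ∀ (z : Fin m → ℂ) (r : ℝ), 0 < r →
      ENNReal.ofReal (Real.pi * r ^ 2) ≤ c m ((fun x => z + x) '' eball m r))
    (hv : ∀ m, Odd m → ∀ (W : Set (Fin m → ℂ)) (r : ℝ), IsOpen W → 0 < r →
      ENNReal.ofReal (Real.pi * r ^ 2) ≤ c m W → volume (eball m r) ≤ volume W)
    {n : ℕ} (hn : 1 ≤ n) (φ : (Fin n → ℂ) ≃ₜ (Fin n → ℂ)) (hφ : IsCSympHomeo c n φ) :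
    ∀ A, MeasurableSet A → volume (φ '' A) = volume A := by
  rcases Nat.even_or_odd n with he | ho
  · have ho' : Odd (n + 1) := he.add_one
    obtain ⟨Φ, hΦ⟩ := prodId_homeo φ
    apply prodId_vol φ
    rw [← hΦ]
    apply main_odd (by omega) (c (n + 1)) (hb _ ho') (hv _ ho') Φ
    rw [hΦ]
    exact hφ.2 he
  · exact main_odd hn (c n) (hb _ ho) (hv _ ho) φ (hφ.1 ho)


end Pool.Agent.Helper943.VC
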