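import Pool.Agent.Helper943.VCDefs

set_option autoImplicit false

open MeasureTheory
open scoped ENNReal

namespace Pool.Agent.Helper943.VC

theorem omega_add_left {n : ℕ} (u v w : Fin n → ℂ) : omega (u + v) w = omega u w + omega v w := by
  simp only [omega, Pi.add_apply, Complex.add_re, Complex.add_im, ← Finset.sum_add_distrib]
  exact Finset.sum_congr rfl (fun j _ => by ring)

theorem omega_swap {n : ℕ} (u v : Fin n → ℂ) : omega u v = - omega v u := by
  simp only [omega, ← Finset.sum_neg_distrib]
  exact Finset.sum_congr rfl (fun j _ => by ring)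

theorem omega_add_right {n : ℕ} (u v w : Fin n → ℂ) : omega u (v + w) = omega u v + omega u w := by
  rw [omega_swap, omega_add_left, omega_swap v, omega_swap w]; ring

theorem omega_smul_left {n : ℕ} (t : ℝ) (u w : Fin n → ℂ) : omega (t • u) w = t * omega u w := by
  simp only [omega, Pi.smul_apply, Complex.real_smul, Finset.mul_sum]
  exact Finset.sum_congr rfl (fun j _ => by
    simp [Complex.mul_re, Complex.mul_im]; ring)

theorem omega_smul_right {n : ℕ} (t : ℝ) (u w : Fin n → ℂ) : omega u (t • w) = t * omega u w := by
  rw [omega_swap, omega_smul_left, omega_swap w]; ring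

theorem omega_self {n : ℕ} (u : Fin n → ℂ) : omega u u = 0 := by
  have := omega_swap u u; linarith

theorem omega_neg_left {n : ℕ} (u w : Fin n → ℂ) : omega (-u) w = - omega u w := by
  have := omega_smul_left (-1) u w
  simpa using this

theorem omega_sub_left {n : ℕ} (u v w : Fin n → ℂ) : omega (u - v) w = omega u w - omega v w := by
  rw [sub_eq_add_neg, omega_add_left, omega_neg_left]; ring

theorem omega_sub_right {n : ℕ} (u v w : Fin n → ℂ) : omega u (v - w) = omega u v - omega u w := by
  rw [omega_swap, omega_sub_left, omega_swap v, omega_swap w]; ring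

theorem omega_zero_left {n : ℕ} (w : Fin n → ℂ) : omega 0 w = 0 := by
  simp [omega]

theorem omega_zero_right {n : ℕ} (w : Fin n → ℂ) : omega w 0 = 0 := by
  simp [omega]

theorem omega_nondeg {n : ℕ} (u : Fin n → ℂ) (h : ∀ v, omega u v = 0) : u = 0 := by
  have h1 := h (fun j => Complex.I * u j)
  have h2 : ∑ j, (((u j).re) ^ 2 + ((u j).im) ^ 2) = 0 := by
    rw [← h1, omega]
    exact Finset.sum_congr rfl (fun j _ => by
      simp [Complex.mul_re, Complex.mul_im]; ring)
  have h3 := (Finset.sum_eq_zero_iff_of_nonneg (fun j _ => by positivity)).1 h2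
  funext j
  have h4 := h3 j (Finset.mem_univ j)
  apply Complex.ext
  · have : (u j).re ^ 2 = 0 := by nlinarith [sq_nonneg (u j).re, sq_nonneg (u j).im]
    simpa using this
  · have : (u j).im ^ 2 = 0 := by nlinarith [sq_nonneg (u j).re, sq_nonneg (u j).im]
    simpa using this

end Pool.Agent.Helper943.VC
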