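import Pool.Agent.Helper943.VCDefs

set_option autoImplicit false

open MeasureTheory
open scoped ENNReal

namespace Pool.Agent.Helper943.VC

/-- The volume capacity c_vol(U) = pi (vol U / vol B(1))^(1/m). -/
noncomputable def volCap {m : ℕ} (U : Set (Fin m → ℂ)) : ℝ≥0∞ :=
  ENNReal.ofReal Real.pi * (volume U / volume (eball m 1)) ^ (1 / (m : ℝ))

/-- The truncated family min(c, L c_vol). -/
noncomputable def trunc (c : ∀ m : ℕ, Set (Fin m → ℂ) → ℝ≥0∞) (L : ℝ≥0∞) :
    ∀ m : ℕ, Set (Fin m → ℂ) → ℝ≥0∞ :=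
  fun m U => min (c m U) (L * volCap U)

end Pool.Agent.Helper943.VC
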