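import Pool.Agent.Helper943.VCOm
import Pool.Agent.Helper943.VCTrDefs

set_option autoImplicit false

open MeasureTheory
open scoped ENNReal

namespace Pool.Agent.Helper943.VC


theorem volCap_mono_r1 {m : ℕ} {U V : Set (Fin m → ℂ)} (h : volume U ≤ volume V) :
    volCap U ≤ volCap V := by
  unfold volCap
  have h1 : volume U / volume (eball m 1) ≤ volume V / volume (eball m 1) :=
    ENNReal.div_le_div_right h _
  have h2 : (volume U / volume (eball m 1)) ^ (1 / (m : ℝ)) ≤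
      (volume V / volume (eball m 1)) ^ (1 / (m : ℝ)) :=
    ENNReal.rpow_le_rpow h1 (by positivity)
  gcongr

theorem volCap_ball_r1 (hfin : ∀ n, volume (eball n 1) < ⊤) (hpos : ∀ n, 0 < volume (eball n 1))
    (m : ℕ) : volCap (eball m 1) = ENNReal.ofReal Real.pi := by
  unfold volCap
  rw [ENNReal.div_self (hpos m).ne' (hfin m).ne, ENNReal.one_rpow, mul_one]

theorem volCap_smul_r1 {m : ℕ} (hm : 1 ≤ m) (U : Set (Fin m → ℂ)) (l : ℝ) (hl : 0 < l) :
    volCap ((fun z => l • z) '' U) = ENNReal.ofReal (l ^ 2) * volCap U := by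
  have hm0 : (m : ℝ) ≠ 0 := by
    have : m ≠ 0 := by omega
    exact_mod_cast this
  have hv : volume ((fun z : Fin m → ℂ => l • z) '' U) = ENNReal.ofReal (l ^ 2) ^ m * volume U := by
    rw [Set.image_smul, Measure.addHaar_smul]
    congr 1
    have hfr : Module.finrank ℝ (Fin m → ℂ) = m * 2 := by
      rw [Module.finrank_pi_fintype]
      simp [Complex.finrank_real_complex]
    rw [hfr, abs_of_pos (pow_pos hl _), ← ENNReal.ofReal_pow (by positivity), ← pow_mul, mul_comm m 2]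
  unfold volCap
  rw [hv, mul_div_assoc, ENNReal.mul_rpow_of_nonneg _ _ (by positivity)]
  have h3 : (ENNReal.ofReal (l ^ 2) ^ m) ^ (1 / (m : ℝ)) = ENNReal.ofReal (l ^ 2) := by
    rw [← ENNReal.rpow_natCast, ← ENNReal.rpow_mul, mul_one_div_cancel hm0, ENNReal.rpow_one]
  rw [h3]
  ring

theorem trunc_cap (hemb : ∀ {n : ℕ} (f : (Fin n → ℂ) → (Fin n → ℂ)) (U V : Set (Fin n → ℂ)),
      IsOpen U → IsSympEmb f U V → volume U ≤ volume V)
    (hfin : ∀ n, volume (eball n 1) < ⊤) (hpos : ∀ n, 0 < volume (eball n 1))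
    (c : ∀ m : ℕ, Set (Fin m → ℂ) → ℝ≥0∞) (L : ℝ≥0∞) (hL : 1 ≤ L)
    (m : ℕ) (hm : 1 ≤ m) (hc : IsCapacity m (c m)) : IsCapacity m (trunc c L m) := by
  refine ⟨?_, ?_, ?_, ?_⟩
  · rintro U V hU hV ⟨f, hf⟩
    unfold trunc
    have h1 := volCap_mono_r1 (hemb f U V hU hf)
    apply min_le_min (hc.mono U V hU hV ⟨f, hf⟩)
    gcongr
  · intro U hU l hl
    unfold trunc
    rw [hc.conf U hU l hl, volCap_smul_r1 hm U l hl]
    have hmono : Monotone (fun x : ℝ≥0∞ => ENNReal.ofReal (l ^ 2) * x) := by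
      intro x y h
      show ENNReal.ofReal (l ^ 2) * x ≤ ENNReal.ofReal (l ^ 2) * y
      gcongr
    have h2 := hmono.map_min (a := c m U) (b := L * volCap U)
    rw [h2]
    congr 1
    ring
  · unfold trunc
    rw [hc.ball, volCap_ball_r1 hfin hpos]
    apply min_eq_left
    calc ENNReal.ofReal Real.pi = 1 * ENNReal.ofReal Real.pi := (one_mul _).symm
      _ ≤ L * ENNReal.ofReal Real.pi := by gcongr
  · unfold trunc
    rw [hc.cyl]
    apply min_eq_left
    have hsub : eball m 1 ⊆ cyl m 1 := by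
      intro z hz h0
      have h4 : ∑ j, ‖z j‖ ^ 2 < 1 ^ 2 := hz
      have h5 : ‖z ⟨0, h0⟩‖ ^ 2 ≤ ∑ j, ‖z j‖ ^ 2 :=
        Finset.single_le_sum (f := fun j => ‖z j‖ ^ 2) (fun j _ => sq_nonneg _) (Finset.mem_univ _)
      have h6 : ‖z ⟨0, h0⟩‖ ^ 2 < 1 ^ 2 := lt_of_le_of_lt h5 h4
      exact lt_of_pow_lt_pow_left₀ 2 (by norm_num) h6
    have h7 : volCap (eball m 1) ≤ volCap (cyl m 1) := volCap_mono_r1 (measure_mono hsub)
    rw [volCap_ball_r1 hfin hpos] at h7
    calc ENNReal.ofReal Real.pi ≤ volCap (cyl m 1) := h7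
      _ = 1 * volCap (cyl m 1) := (one_mul _).symm
      _ ≤ L * volCap (cyl m 1) := by gcongr


end Pool.Agent.Helper943.VC
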