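import Pool.Agent.Helper943.VCOm
import Pool.Agent.Helper943.VCTrDefs

set_option autoImplicit false

open MeasureTheory
open scoped ENNReal

namespace Pool.Agent.Helper943.VC


theorem trunc_coarse (hfin : ∀ n, volume (eball n 1) < ⊤) (hpos : ∀ n, 0 < volume (eball n 1))
    (c : ∀ m : ℕ, Set (Fin m → ℂ) → ℝ≥0∞) (L : ℝ≥0∞) (hL : L ≠ ⊤) (m : ℕ) (hm : 1 ≤ m) :
    ∃ K : ℝ≥0∞, K ≠ ⊤ ∧ ∀ ψ : (Fin m → ℂ) ≃ₜ (Fin m → ℂ),
      trunc c L m (ψ '' eball m 1) ^ m ≤ K * volume (closure (ψ '' eball m 1)) := by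
  refine ⟨(L * ENNReal.ofReal Real.pi) ^ m / volume (eball m 1), ?_, fun ψ => ?_⟩
  · exact ENNReal.div_ne_top (ENNReal.pow_ne_top (ENNReal.mul_ne_top hL ENNReal.ofReal_ne_top))
      (hpos m).ne'
  · have h1 : trunc c L m (ψ '' eball m 1) ≤ L * volCap (ψ '' eball m 1) := min_le_right _ _
    have hm0 : (m : ℝ) ≠ 0 := by
      have : (0 : ℝ) < m := by exact_mod_cast hm
      exact this.ne'
    have h2 : ∀ x : ℝ≥0∞, (x ^ (1 / (m : ℝ))) ^ m = x := by
      intro x
      rw [← ENNReal.rpow_natCast, ← ENNReal.rpow_mul, one_div_mul_cancel hm0, ENNReal.rpow_one]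
    calc trunc c L m (ψ '' eball m 1) ^ m ≤ (L * volCap (ψ '' eball m 1)) ^ m :=
          pow_le_pow_left' h1 m
      _ = (L * ENNReal.ofReal Real.pi) ^ m *
            (volume (ψ '' eball m 1) / volume (eball m 1)) := by
          unfold volCap
          rw [← mul_assoc, mul_pow, h2]
      _ ≤ (L * ENNReal.ofReal Real.pi) ^ m *
            (volume (closure (ψ '' eball m 1)) / volume (eball m 1)) :=
          mul_le_mul_right (ENNReal.div_le_div_right (measure_mono subset_closure) _) _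
      _ = (L * ENNReal.ofReal Real.pi) ^ m / volume (eball m 1) *
            volume (closure (ψ '' eball m 1)) := by
          rw [div_eq_mul_inv, div_eq_mul_inv, mul_assoc, mul_comm (volume (closure _))]

end Pool.Agent.Helper943.VC
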