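import Pool.Agent.Helper943.VCOm
import Pool.Agent.Helper943.VCTrDefs

set_option autoImplicit false

open MeasureTheory
open scoped ENNReal

namespace Pool.Agent.Helper943.VC


theorem trunc_sup (hfin : ∀ n, volume (eball n 1) < ⊤) (hpos : ∀ n, 0 < volume (eball n 1))
    (c : ∀ m : ℕ, Set (Fin m → ℂ) → ℝ≥0∞) (m : ℕ) (hm : 1 ≤ m) (hc : IsCapacity m (c m))
    (U : Set (Fin m → ℂ)) (hU : IsOpen U) :
    Filter.Tendsto (fun k : ℕ => trunc c (k : ℝ≥0∞) m U) Filter.atTop (nhds (c m U)) := by
  rcases Set.eq_empty_or_nonempty U with rfl | hne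
  · have hopen : IsOpen (eball m 1) := by
      apply isOpen_lt
      · fun_prop
      · fun_prop
    have h1 : c m ∅ ≤ c m (eball m 1) := by
      apply hc.mono ∅ (eball m 1) isOpen_empty hopen
      exact ⟨id, contDiffOn_id, Set.injOn_id _, fun x hx => absurd hx (Set.notMem_empty x),
        fun z hz => absurd hz (Set.notMem_empty z)⟩
    have h2 : c m ∅ ≠ ⊤ := by
      refine ne_top_of_le_ne_top ?_ h1
      rw [hc.ball]
      exact ENNReal.ofReal_ne_top
    have h3 := hc.conf ∅ isOpen_empty 2 (by norm_num)
    rw [Set.image_empty] at h3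
    have h4 : c m ∅ = 0 := by
      have h5 := congrArg ENNReal.toReal h3
      rw [ENNReal.toReal_mul, ENNReal.toReal_ofReal (by norm_num)] at h5
      have h6 : (c m ∅).toReal = 0 := by linarith
      rcases (ENNReal.toReal_eq_zero_iff _).1 h6 with h | h
      · exact h
      · exact absurd h h2
    have h7 : (fun k : ℕ => trunc c (k : ℝ≥0∞) m ∅) = fun _ => c m ∅ := by
      funext k
      simp only [trunc]
      rw [h4]
      exact min_eq_left zero_le
    rw [h7]
    exact tendsto_const_nhds
  · have hvol : volume U ≠ 0 := (hU.measure_pos volume hne).ne'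
    have hdiv : 0 < volume U / volume (eball m 1) :=
      ENNReal.div_pos hvol (hfin m).ne
    have hcap : 0 < volCap U := by
      unfold volCap
      apply ENNReal.mul_pos
      · simpa using Real.pi_pos
      · exact (ENNReal.rpow_pos_of_nonneg hdiv (by positivity)).ne'
    have ht : Filter.Tendsto (fun k : ℕ => (k : ℝ≥0∞) * volCap U) Filter.atTop (nhds (⊤ * volCap U)) :=
      ENNReal.Tendsto.mul_const ENNReal.tendsto_nat_nhds_top (Or.inl (by simp))
    rw [ENNReal.top_mul hcap.ne'] at ht
    have h := (tendsto_const_nhds (x := c m U)).min ht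
    rw [min_eq_left le_top] at h
    exact h


end Pool.Agent.Helper943.VC
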